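import Mathlib
import Pool.Agent.Work.MP_841263_st.Lattice

/-!
# A lattice lemma: generating subsystems of elliptic root systems
-/

set_option linter.unusedSectionVars false

namespace Pool.Stab

section

variable {K : Type*} [AddCommGroup K] {B : K →+ K →+ ℤ}

/-- The translations by radical elements preserving membership of `b`. -/
def TT (B : K →+ K →+ ℤ) (D : Set K) (b : K) : Set K := {r | (∀ y, B r y = 0) ∧ b + r ∈ D}

/-- A symmetric set of roots, closed under the sum of roots with product `-1`. -/
structure Sub2 (B : K →+ K →+ ℤ) (D : Set K) : Prop where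
  two : ∀ x ∈ D, B x x = 2
  neg : ∀ x ∈ D, -x ∈ D
  add : ∀ x ∈ D, ∀ y ∈ D, B x y = -1 → x + y ∈ D

lemma abs_le_two (hB : IsPSD B) {a c : K} (ha : B a a = 2) (hc : B c c = 2) :
    -2 ≤ B a c ∧ B a c ≤ 2 := by
  have h := hB.cauchy a c
  rw [ha, hc] at h
  constructor <;> nlinarith

lemma sub_mem_rad (hB : IsPSD B) {a c : K} (ha : B a a = 2) (hc : B c c = 2)
    (h : B a c = 2) : ∀ y, B (c - a) y = 0 := by
  refine hB.mem_radical_of_self ?_
  simp only [map_sub, AddMonoidHom.sub_apply]
  rw [ha, hc, h, hB.symm c a, h]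
  norm_num

lemma add_mem_rad (hB : IsPSD B) {a c : K} (ha : B a a = 2) (hc : B c c = 2)
    (h : B a c = -2) : ∀ y, B (a + c) y = 0 := by
  refine hB.mem_radical_of_self ?_
  simp only [map_add, AddMonoidHom.add_apply]
  rw [ha, hc, h, hB.symm c a, h]
  norm_num

lemma orth_closure {P Q : Set K} (h : ∀ x ∈ P, ∀ y ∈ Q, B x y = 0) :
    ∀ x ∈ AddSubgroup.closure P, ∀ y ∈ AddSubgroup.closure Q, B x y = 0 := by
  have h1 : ∀ x ∈ P, ∀ y ∈ AddSubgroup.closure Q, B x y = 0 := by
    intro x hx y hy
    induction hy using AddSubgroup.closure_induction with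
    | mem y hy => exact h x hx y hy
    | zero => simp
    | add a b _ _ ha hb => rw [map_add, ha, hb, add_zero]
    | neg a _ ha => rw [map_neg, ha, neg_zero]
  intro x hx y hy
  induction hx using AddSubgroup.closure_induction with
  | mem x hx => exact h1 x hx y hy
  | zero => simp
  | add a b _ _ ha hb => rw [map_add, AddMonoidHom.add_apply, ha, hb, add_zero]
  | neg a _ ha => rw [map_neg, AddMonoidHom.neg_apply, ha, neg_zero]

lemma closure_sup_of_union {D P Q : Set K} (hgen : AddSubgroup.closure D = ⊤)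
    (h : ∀ x ∈ D, x ∈ P ∨ x ∈ Q) : AddSubgroup.closure P ⊔ AddSubgroup.closure Q = ⊤ := by
  rw [← AddSubgroup.closure_union, eq_top_iff, ← hgen]
  exact AddSubgroup.closure_mono h

variable {D : Set K}

lemma Sub2.exists_neighbour (hD : Sub2 B D) (hB : IsPSD B)
    (hgen : AddSubgroup.closure D = ⊤)
    (hind : ∀ P Q : AddSubgroup K, P ⊔ Q = ⊤ → (∀ x ∈ P, ∀ y ∈ Q, B x y = 0) →
      (∀ x ∈ P, ∀ y, B x y = 0) ∨ (∀ x ∈ Q, ∀ y, B x y = 0))
    (hrk : ∀ a : K, ∃ x : K, ∀ m : ℤ, ∃ y, B (x - m • a) y ≠ 0) {a : K} (ha : a ∈ D) :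
    ∃ c ∈ D, B a c = -1 := by
  by_contra hcon
  push Not at hcon
  have haa := hD.two a ha
  have h3 : ∀ c ∈ D, B a c ≠ 0 → B a c = 2 ∨ B a c = -2 := by
    intro c hc h0
    have h1 := hcon c hc
    have h2 := hcon (-c) (hD.neg c hc)
    rw [map_neg] at h2
    have h4 := abs_le_two hB haa (hD.two c hc)
    omega
  set P : Set K := {c | c ∈ D ∧ B a c ≠ 0} with hP
  set Q : Set K := {c | c ∈ D ∧ B a c = 0} with hQ
  have hPm : ∀ x ∈ AddSubgroup.closure P, ∃ m : ℤ, ∀ y, B (x - m • a) y = 0 := by
    intro x hx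
    induction hx using AddSubgroup.closure_induction with
    | mem c hc =>
      rcases h3 c hc.1 hc.2 with h | h
      · exact ⟨1, by rw [one_smul]; exact sub_mem_rad hB haa (hD.two c hc.1) h⟩
      · refine ⟨-1, ?_⟩
        rw [neg_smul, one_smul, sub_neg_eq_add, add_comm]
        exact add_mem_rad hB haa (hD.two c hc.1) h
    | zero => exact ⟨0, by simp⟩
    | add x y _ _ hx hy =>
      obtain ⟨m, hm⟩ := hx
      obtain ⟨n, hn⟩ := hy
      refine ⟨m + n, fun z => ?_⟩
      have h1 : x + y - (m + n) • a = (x - m • a) + (y - n • a) := by rw [add_smul]; abel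
      rw [h1, map_add, AddMonoidHom.add_apply, hm, hn, add_zero]
    | neg x _ hx =>
      obtain ⟨m, hm⟩ := hx
      refine ⟨-m, fun z => ?_⟩
      have h1 : -x - (-m) • a = -(x - m • a) := by rw [neg_smul]; abel
      rw [h1, map_neg, AddMonoidHom.neg_apply, hm, neg_zero]
  have hQz : ∀ y ∈ AddSubgroup.closure Q, B a y = 0 := by
    intro y hy
    induction hy using AddSubgroup.closure_induction with
    | mem y hy => exact hy.2
    | zero => simp
    | add a b _ _ ha hb => rw [map_add, ha, hb, add_zero]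
    | neg a _ ha => rw [map_neg, ha, neg_zero]
  have htop : AddSubgroup.closure P ⊔ AddSubgroup.closure Q = ⊤ := by
    refine closure_sup_of_union hgen ?_
    intro x hx
    by_cases h : B a x = 0
    · exact Or.inr ⟨hx, h⟩
    · exact Or.inl ⟨hx, h⟩
  rcases hind _ _ htop (by
    intro x hx y hy
    obtain ⟨m, hm⟩ := hPm x hx
    have h1 := hm y
    rw [map_sub, map_zsmul, AddMonoidHom.sub_apply, AddMonoidHom.coe_smul, Pi.smul_apply,
      hQz y hy, smul_zero, sub_zero] at h1
    exact h1) with h | h
  · have h1 := h a (AddSubgroup.subset_closure ⟨ha, by rw [haa]; norm_num⟩) a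
    rw [haa] at h1
    norm_num at h1
  · obtain ⟨x, hx⟩ := hrk a
    have hxt : x ∈ AddSubgroup.closure P ⊔ AddSubgroup.closure Q := by rw [htop]; trivial
    obtain ⟨p, hp, q, hq, rfl⟩ := AddSubgroup.mem_sup.1 hxt
    obtain ⟨m, hm⟩ := hPm p hp
    obtain ⟨y, hy⟩ := hx m
    apply hy
    have h1 : p + q - m • a = (p - m • a) + q := by abel
    rw [h1, map_add, AddMonoidHom.add_apply, hm y, h q hq y, add_zero]

lemma TT_eq_add (hD : Sub2 B D) (hB : IsPSD B) {b c : K} (hb : b ∈ D) (hc : c ∈ D)
    (h : B b c = -1) : TT B D b = TT B D (b + c) := by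
  ext r
  constructor
  · rintro ⟨h1, h2⟩
    refine ⟨h1, ?_⟩
    have h3 : B (b + r) c = -1 := by rw [map_add, AddMonoidHom.add_apply, h, h1, add_zero]
    have h4 := hD.add _ h2 c hc h3
    have h5 : b + c + r = b + r + c := by abel
    rw [h5]
    exact h4
  · rintro ⟨h1, h2⟩
    refine ⟨h1, ?_⟩
    have h3 : B (b + c + r) (-c) = -1 := by
      rw [map_neg, map_add, map_add, AddMonoidHom.add_apply, AddMonoidHom.add_apply, h, h1,
        hD.two c hc]
      norm_num
    have h4 := hD.add _ h2 _ (hD.neg c hc) h3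
    have h5 : b + r = b + c + r + -c := by abel
    rw [h5]
    exact h4

lemma TT_eq (hD : Sub2 B D) (hB : IsPSD B) {b c : K} (hb : b ∈ D) (hc : c ∈ D)
    (h : B b c = -1) : TT B D b = TT B D c := by
  rw [TT_eq_add hD hB hb hc h, TT_eq_add hD hB hc hb (by rw [hB.symm]; exact h), add_comm]

lemma mem_TT_neg (hD : Sub2 B D) {b r : K} : r ∈ TT B D (-b) ↔ -r ∈ TT B D b := by
  constructor
  · rintro ⟨h1, h2⟩
    refine ⟨fun y => by rw [map_neg, AddMonoidHom.neg_apply, h1 y, neg_zero], ?_⟩
    have h3 := hD.neg _ h2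
    have h4 : b + -r = -(-b + r) := by abel
    rw [h4]
    exact h3
  · rintro ⟨h1, h2⟩
    refine ⟨fun y => ?_, ?_⟩
    · have := h1 y
      rw [map_neg, AddMonoidHom.neg_apply] at this
      linarith
    · have h3 := hD.neg _ h2
      have h4 : -b + r = -(b + -r) := by abel
      rw [h4]
      exact h3

section

variable (hD : Sub2 B D) (hB : IsPSD B) (hgen : AddSubgroup.closure D = ⊤)
    (hind : ∀ P Q : AddSubgroup K, P ⊔ Q = ⊤ → (∀ x ∈ P, ∀ y ∈ Q, B x y = 0) →
      (∀ x ∈ P, ∀ y, B x y = 0) ∨ (∀ x ∈ Q, ∀ y, B x y = 0))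
    (hrk : ∀ a : K, ∃ x : K, ∀ m : ℤ, ∃ y, B (x - m • a) y ≠ 0)

include hD hB hgen hind hrk

lemma TT_neg_mem {b r : K} (hb : b ∈ D) (hr : r ∈ TT B D b) : -r ∈ TT B D b := by
  obtain ⟨c, hc, hbc⟩ := hD.exists_neighbour hB hgen hind hrk hb
  have hbcD := hD.add b hb c hc hbc
  have h1 : B b (-(b + c)) = -1 := by
    rw [map_neg, map_add, hD.two b hb, hbc]; norm_num
  have h2 := TT_eq hD hB hb (hD.neg _ hbcD) h1
  have h3 := TT_eq_add hD hB hb hc hbc
  rw [h2, mem_TT_neg hD, ← h3] at hr
  exact hr

lemma TT_neg_eq {b : K} (hb : b ∈ D) : TT B D (-b) = TT B D b := by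
  ext r
  rw [mem_TT_neg hD]
  constructor
  · intro h
    have := TT_neg_mem hD hB hgen hind hrk hb h
    rwa [neg_neg] at this
  · exact TT_neg_mem hD hB hgen hind hrk hb

lemma TT_add_mem {b r r' : K} (hb : b ∈ D) (hr : r ∈ TT B D b) (hr' : r' ∈ TT B D b) :
    r + r' ∈ TT B D b := by
  obtain ⟨c, hc, hbc⟩ := hD.exists_neighbour hB hgen hind hrk hb
  have h2 := TT_eq hD hB hb hc hbc
  have h3 := TT_eq_add hD hB hb hc hbc
  rw [h2] at hr'
  rw [h3]
  refine ⟨fun y => by rw [map_add, AddMonoidHom.add_apply, hr.1 y, hr'.1 y, add_zero], ?_⟩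
  have h4 : B (b + r) (c + r') = -1 := by
    rw [map_add, map_add, AddMonoidHom.add_apply, AddMonoidHom.add_apply, hbc, hr.1,
      hB.symm b r', hr'.1, hB.symm r r', hr'.1]
    norm_num
  have h5 := hD.add _ hr.2 _ hr'.2 h4
  have h6 : b + c + (r + r') = b + r + (c + r') := by abel
  rw [h6]
  exact h5

lemma TT_translate {c ρ : K} (hc : c ∈ D) (hρ : ρ ∈ TT B D c) : TT B D (c + ρ) = TT B D c := by
  ext r
  constructor
  · rintro ⟨h1, h2⟩
    have h3 : ρ + r ∈ TT B D c := by
      refine ⟨fun y => by rw [map_add, AddMonoidHom.add_apply, hρ.1 y, h1 y, add_zero], ?_⟩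
      rw [← add_assoc]
      exact h2
    have h4 := TT_add_mem hD hB hgen hind hrk hc h3
      (TT_neg_mem hD hB hgen hind hrk hc hρ)
    have h5 : ρ + r + -ρ = r := by abel
    rwa [h5] at h4
  · intro h
    have h4 := TT_add_mem hD hB hgen hind hrk hc hρ h
    exact ⟨h.1, by rw [add_assoc]; exact h4.2⟩

lemma TT_const {b c : K} (hb : b ∈ D) (hc : c ∈ D) : TT B D c = TT B D b := by
  set P : Set K := {c | c ∈ D ∧ TT B D c = TT B D b} with hP
  set Q : Set K := {c | c ∈ D ∧ TT B D c ≠ TT B D b} with hQ
  have hPQ : ∀ x ∈ P, ∀ y ∈ Q, B x y = 0 := by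
    rintro x ⟨hx, hxT⟩ y ⟨hy, hyT⟩
    by_contra hne
    apply hyT
    rw [← hxT]
    have hxx := hD.two x hx
    have hyy := hD.two y hy
    have h4 := abs_le_two hB hxx hyy
    have h5 : B x y = -1 ∨ B x y = 1 ∨ B x y = -2 ∨ B x y = 2 := by omega
    rcases h5 with h | h | h | h
    · exact (TT_eq hD hB hx hy h).symm
    · have h6 := TT_eq hD hB hx (hD.neg y hy) (by rw [map_neg, h])
      rw [h6, TT_neg_eq hD hB hgen hind hrk hy]
    · have h6 := add_mem_rad hB hxx hyy h
      have h7 : x + y ∈ TT B D (-x) := ⟨h6, by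
        have : -x + (x + y) = y := by abel
        rw [this]; exact hy⟩
      have h8 := TT_translate hD hB hgen hind hrk (hD.neg x hx) h7
      have h9 : -x + (x + y) = y := by abel
      rw [h9, TT_neg_eq hD hB hgen hind hrk hx] at h8
      exact h8
    · have h6 := sub_mem_rad hB hxx hyy h
      have h7 : y - x ∈ TT B D x := ⟨h6, by
        have : x + (y - x) = y := by abel
        rw [this]; exact hy⟩
      have h8 := TT_translate hD hB hgen hind hrk hx h7
      have h9 : x + (y - x) = y := by abel
      rw [h9] at h8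
      exact h8
  have htop : AddSubgroup.closure P ⊔ AddSubgroup.closure Q = ⊤ := by
    refine closure_sup_of_union hgen ?_
    intro x hx
    by_cases h : TT B D x = TT B D b
    · exact Or.inl ⟨hx, h⟩
    · exact Or.inr ⟨hx, h⟩
  rcases hind _ _ htop (orth_closure hPQ) with h | h
  · have h1 := h b (AddSubgroup.subset_closure ⟨hb, rfl⟩) b
    rw [hD.two b hb] at h1
    norm_num at h1
  · by_contra hne
    have h1 := h c (AddSubgroup.subset_closure ⟨hc, hne⟩) c
    rw [hD.two c hc] at h1
    norm_num at h1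

lemma mem_of_multiset : ∀ (n : ℕ) (s : Multiset K), s.card = n → (∀ x ∈ s, x ∈ D) →
    (B s.sum s.sum = 2 → s.sum ∈ D) ∧ (B s.sum s.sum = 0 → ∀ b ∈ D, b + s.sum ∈ D) := by
  intro n
  induction n using Nat.strong_induction_on with
  | _ n ih =>
    intro s hcard hs
    by_cases hpair : ∀ x y s', s = x ::ₘ y ::ₘ s' → 0 ≤ B x y
    · -- all products nonnegative
      have hge : ∀ s : Multiset K, (∀ x ∈ s, x ∈ D) →
          (∀ x y s', s = x ::ₘ y ::ₘ s' → 0 ≤ B x y) → 2 * (s.card : ℤ) ≤ B s.sum s.sum := by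
        intro s
        induction s using Multiset.induction_on with
        | empty => simp
        | cons x s ih =>
          intro hs hpair
          have h1 := ih (fun y hy => hs y (Multiset.mem_cons_of_mem hy)) (by
            rintro y z s' rfl
            refine hpair y z (x ::ₘ s') ?_
            rw [Multiset.cons_swap x y, Multiset.cons_swap x z])
          have h2 : 0 ≤ B x s.sum := by
            have h3 : ∀ y ∈ s, 0 ≤ B x y := by
              intro y hy
              obtain ⟨s', rfl⟩ := Multiset.exists_cons_of_mem hy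
              exact hpair x y s' rfl
            clear ih h1 hpair hs
            induction s using Multiset.induction_on with
            | empty => simp
            | cons b n ih =>
              rw [Multiset.sum_cons, map_add]
              have h4 := ih (fun x hx => h3 x (Multiset.mem_cons_of_mem hx))
              have h5 := h3 b (Multiset.mem_cons_self b n)
              linarith
          rw [Multiset.sum_cons, Multiset.card_cons]
          simp only [map_add, AddMonoidHom.add_apply]
          rw [hB.symm s.sum x, hD.two x (hs x (Multiset.mem_cons_self x s))]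
          push_cast
          linarith
      have h1 := hge s hs hpair
      rcases Nat.lt_or_ge s.card 2 with h2 | h2
      · rcases Nat.lt_or_ge s.card 1 with h3 | h3
        · have h4 : s = 0 := by rw [← Multiset.card_eq_zero]; omega
          subst h4
          exact ⟨by simp, by simp⟩
        · obtain ⟨x, rfl⟩ := Multiset.card_eq_one.1 (show s.card = 1 by omega)
          have hx := hs x (by simp)
          rw [Multiset.sum_singleton]
          refine ⟨fun _ => hx, fun h0 => ?_⟩
          rw [hD.two x hx] at h0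
          norm_num at h0
      · have h3 : (2 : ℤ) ≤ s.card := by exact_mod_cast h2
        exact ⟨fun h => by linarith, fun h => by linarith⟩
    · push Not at hpair
      obtain ⟨x, y, s', rfl, hneg⟩ := hpair
      have hx := hs x (by simp)
      have hy := hs y (by simp)
      have hs' : ∀ z ∈ s', z ∈ D := fun z hz => hs z (by simp [hz])
      have hxx := hD.two x hx
      have hyy := hD.two y hy
      have h4 := abs_le_two hB hxx hyy
      rw [Multiset.card_cons, Multiset.card_cons] at hcard
      have h5 : B x y = -1 ∨ B x y = -2 := by omega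
      rcases h5 with h | h
      · have h6 := hD.add x hx y hy h
        have h7 := ih (s'.card + 1) (by omega) ((x + y) ::ₘ s') (by rw [Multiset.card_cons])
          (by
            intro z hz
            rcases Multiset.mem_cons.1 hz with rfl | hz
            · exact h6
            · exact hs' z hz)
        have h8 : (x ::ₘ y ::ₘ s').sum = ((x + y) ::ₘ s').sum := by
          simp [add_assoc]
        rw [h8]
        exact h7
      · have h6 := add_mem_rad hB hxx hyy h
        have h7 := ih s'.card (by omega) s' rfl hs'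
        have h8 : (x ::ₘ y ::ₘ s').sum = s'.sum + (x + y) := by
          simp only [Multiset.sum_cons]; abel
        have h9' : ∀ z : K, (∀ y, B z y = 0) →
            B (s'.sum + z) (s'.sum + z) = B s'.sum s'.sum := by
          intro z hz
          have e1 := hz s'.sum
          have e2 := hz z
          have e3 : B s'.sum z = 0 := by rw [hB.symm]; exact e1
          simp only [map_add, AddMonoidHom.add_apply]
          rw [e1, e2, e3]
          ring
        have h9 := h9' (x + y) h6
        rw [h8, h9]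
        have hT : ∀ b ∈ D, b + (x + y) ∈ D := by
          intro b hb
          have h10 : x + y ∈ TT B D (-x) := ⟨h6, by
            have : -x + (x + y) = y := by abel
            rw [this]; exact hy⟩
          rw [TT_const hD hB hgen hind hrk hb (hD.neg x hx)] at h10
          exact h10.2
        refine ⟨fun h => hT _ (h7.1 h), fun h b hb => ?_⟩
        rw [← add_assoc]
        exact hT _ (h7.2 h b hb)

/-- **The lattice lemma.** -/
theorem Sub2.all_roots {x : K} (hx : B x x = 2) : x ∈ D := by
  have h1 : x ∈ AddSubgroup.closure D := by rw [hgen]; trivial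
  obtain ⟨s, hs, rfl⟩ : ∃ s : Multiset K, (∀ y ∈ s, y ∈ D) ∧ s.sum = x := by
    clear hx
    induction h1 using AddSubgroup.closure_induction with
    | mem y hy => exact ⟨{y}, by simpa using hy, by simp⟩
    | zero => exact ⟨0, by simp, by simp⟩
    | add a b _ _ ha hb =>
      obtain ⟨s, hs, rfl⟩ := ha
      obtain ⟨s', hs', rfl⟩ := hb
      refine ⟨s + s', ?_, by simp⟩
      intro y hy
      rcases Multiset.mem_add.1 hy with h | h
      · exact hs y h
      · exact hs' y h
    | neg a _ ha =>
      obtain ⟨s, hs, rfl⟩ := ha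
      refine ⟨s.map (fun y => -y), ?_, by rw [Multiset.sum_map_neg']⟩
      intro y hy
      obtain ⟨z, hz, rfl⟩ := Multiset.mem_map.1 hy
      exact hD.neg z (hs z hz)
  exact (mem_of_multiset hD hB hgen hind hrk _ s rfl hs).1 hx

end

end

end Pool.Stab
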