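import Mathlib
import Pool.Agent.Work.MP_841263_st.Defs

/-!
# Rigid and spherical objects
-/

open CategoryTheory CategoryTheory.Limits CategoryTheory.Pretriangulated
open scoped ZeroObject

namespace Pool.Stab

universe v u

variable {C : Type u} [Category.{v} C] [Preadditive C] [HasShift C ℤ]

/-- Rigid objects: `Hom(E, E[1]) = 0`. -/
def Rigid (E : C) : Prop := ∀ f : E ⟶ E⟦(1 : ℤ)⟧, f = 0

/-- Spherical objects of a K3 category: `Hom(X, X)` has dimension one and `Hom(X, X[n]) = 0`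
for `n ≠ 0, 2`. -/
def Spherical [Linear ℂ C] (X : C) : Prop :=
  Module.finrank ℂ (X ⟶ X) = 1 ∧ ∀ n : ℤ, n ≠ 0 → n ≠ 2 → ∀ f : X ⟶ X⟦n⟧, f = 0

end Pool.Stab
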