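import Mathlib
import Pool.Agent.Work.MP_841263_st.Simple

/-!
# Abelian subcategories of a triangulated category
-/

open CategoryTheory CategoryTheory.Limits CategoryTheory.Pretriangulated
open scoped ZeroObject

set_option backward.isDefEq.respectTransparency false
set_option backward.defeqAttrib.useBackward true
set_option linter.unusedSectionVars false

namespace Pool.Stab

universe v u

variable {C : Type u} [Category.{v} C] [Preadditive C] [HasZeroObject C] [HasShift C ℤ]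
  [∀ n : ℤ, (shiftFunctor C n).Additive] [Pretriangulated C]

/-- Short exact sequences of the class `A`. -/
def SES (A : C → Prop) {X Y Z : C} (f : X ⟶ Y) (g : Y ⟶ Z) : Prop :=
  A X ∧ A Y ∧ A Z ∧ ∃ h : Z ⟶ X⟦(1 : ℤ)⟧, Triangle.mk f g h ∈ distTriang C

/-- Full subcategories which are closed under extensions, have no negative extensions, and have
kernels, images and cokernels. -/
structure AbSub (A : C → Prop) : Prop where
  iso_mem : ∀ {X Y : C}, (X ≅ Y) → A X → A Y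
  zero_mem : ∀ {X : C}, IsZero X → A X
  ext_mem : ∀ {X Y Z : C} {f : X ⟶ Y} {g : Y ⟶ Z} {h : Z ⟶ X⟦(1 : ℤ)⟧},
    Triangle.mk f g h ∈ distTriang C → A X → A Z → A Y
  hom_neg : ∀ {X Y : C}, A X → A Y → ∀ {n : ℤ}, n < 0 → ∀ f : X ⟶ Y⟦n⟧, f = 0
  kiq : ∀ {X Y : C}, A X → A Y → ∀ f : X ⟶ Y, ∃ (K I Q : C) (k : K ⟶ X) (p : X ⟶ I)
    (i : I ⟶ Y) (q : Y ⟶ Q), SES A k p ∧ SES A i q ∧ p ≫ i = f

lemma hom_shift_zero {X Y : C} {a b c : ℤ} (hc : c + a = b) (h : ∀ f : X ⟶ Y⟦c⟧, f = 0)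
    (f : X⟦a⟧ ⟶ Y⟦b⟧) : f = 0 := by
  have e : (Y⟦c⟧)⟦a⟧ ≅ Y⟦b⟧ := ((shiftFunctorAdd' C c a b hc).app Y).symm
  obtain ⟨g, hg⟩ : ∃ g : X ⟶ Y⟦c⟧, g⟦a⟧' = f ≫ e.inv :=
    ⟨(shiftFunctor C a).preimage _, Functor.map_preimage _ _⟩
  rw [h g, Functor.map_zero] at hg
  rw [← cancel_mono e.inv, ← hg, zero_comp]

lemma AbSub.hom_pos {A : C → Prop} (hA : AbSub A) {X Y : C} (hX : A X) (hY : A Y)
    (f : X⟦(1 : ℤ)⟧ ⟶ Y) : f = 0 := by
  have h := hom_shift_zero (X := X) (Y := Y) (a := 1) (b := 0) (c := -1) (by norm_num)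
    (hA.hom_neg hX hY (by norm_num)) (f ≫ ((shiftFunctorZero C ℤ).app Y).inv)
  rw [← cancel_mono ((shiftFunctorZero C ℤ).app Y).inv, h, zero_comp]

section SES

variable {A : C → Prop} (hA : AbSub A)

lemma SES.comp_zero {X Y Z : C} {f : X ⟶ Y} {g : Y ⟶ Z} (h : SES A f g) : f ≫ g = 0 := by
  obtain ⟨-, -, -, d, hT⟩ := h
  exact comp_distTriang_mor_zero₁₂ _ hT

lemma SES.cls_eq {X Y Z : C} {f : X ⟶ Y} {g : Y ⟶ Z} (h : SES A f g) :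
    cls Y = cls X + cls Z := by
  obtain ⟨-, -, -, d, hT⟩ := h
  exact cls_mk hT

include hA in
lemma SES.mono {X Y Z : C} {f : X ⟶ Y} {g : Y ⟶ Z} (h : SES A f g) {W : C} (hW : A W)
    (a : W ⟶ X) (ha : a ≫ f = 0) : a = 0 := by
  obtain ⟨hX, hY, hZ, d, hT⟩ := h
  obtain ⟨a', c', hinv⟩ := exists_invrot hT
  obtain ⟨b, hb⟩ := Triangle.coyoneda_exact₂ _ hinv a ha
  rw [hb, hA.hom_neg hW hZ (by norm_num) b, zero_comp]

include hA in
lemma SES.epi {X Y Z : C} {f : X ⟶ Y} {g : Y ⟶ Z} (h : SES A f g) {W : C} (hW : A W)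
    (b : Z ⟶ W) (hb : g ≫ b = 0) : b = 0 := by
  obtain ⟨hX, hY, hZ, d, hT⟩ := h
  obtain ⟨c, hc⟩ := Triangle.yoneda_exact₂ _ (rot_mk hT) b hb
  rw [hc, hA.hom_pos hX hW c, CategoryTheory.Limits.comp_zero]

lemma SES.lift {X Y Z : C} {f : X ⟶ Y} {g : Y ⟶ Z} (h : SES A f g) {W : C}
    (a : W ⟶ Y) (ha : a ≫ g = 0) : ∃ b : W ⟶ X, b ≫ f = a := by
  obtain ⟨hX, hY, hZ, d, hT⟩ := h
  obtain ⟨b, hb⟩ := Triangle.coyoneda_exact₂ _ hT a ha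
  exact ⟨b, hb.symm⟩

lemma SES.desc {X Y Z : C} {f : X ⟶ Y} {g : Y ⟶ Z} (h : SES A f g) {W : C}
    (a : Y ⟶ W) (ha : f ≫ a = 0) : ∃ b : Z ⟶ W, g ≫ b = a := by
  obtain ⟨hX, hY, hZ, d, hT⟩ := h
  obtain ⟨b, hb⟩ := Triangle.yoneda_exact₂ _ hT a ha
  exact ⟨b, hb.symm⟩

include hA in
/-- A subobject of a subobject is a subobject. -/
lemma SES.comp [IsTriangulated C] {X Y Z Y' Z' : C} {f : X ⟶ Y} {g : Y ⟶ Z} (h : SES A f g)
    {f' : Y ⟶ Y'} {g' : Y' ⟶ Z'} (h' : SES A f' g') :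
    ∃ (Q : C) (q : Y' ⟶ Q) (m : Z ⟶ Q) (n : Q ⟶ Z'), SES A (f ≫ f') q ∧ SES A m n := by
  obtain ⟨hX, hY, hZ, d, hT⟩ := h
  obtain ⟨-, hY', hZ', d', hT'⟩ := h'
  obtain ⟨W, p, q, hW⟩ := distinguished_cocone_triangle (f ≫ f')
  obtain ⟨m, n, r, hmn, -⟩ := exists_octa hT hT' hW
  have hAW : A W := hA.ext_mem hmn hZ hZ'
  exact ⟨W, p, m, n, ⟨hX, hY', hAW, q, hW⟩, ⟨hZ, hAW, hZ', r, hmn⟩⟩

include hA in
/-- A quotient of a quotient is a quotient. -/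
lemma SES.comp' [IsTriangulated C] {X Y Z X' Z' : C} {f : X ⟶ Y} {g : Y ⟶ Z} (h : SES A f g)
    {f' : X' ⟶ Z} {g' : Z ⟶ Z'} (h' : SES A f' g') :
    ∃ (F : C) (i : F ⟶ Y) (m : X ⟶ F) (n : F ⟶ X'), SES A i (g ≫ g') ∧ SES A m n := by
  obtain ⟨hX, hY, hZ, d, hT⟩ := h
  obtain ⟨hX', -, hZ', d', hT'⟩ := h'
  obtain ⟨F, i₃, d₃, hF⟩ := distinguished_cocone_triangle₁ (g ≫ g')
  obtain ⟨m, n, r, hmn, -⟩ := exists_octa_cocone hT hT' hF
  have hAF : A F := hA.ext_mem hmn hX hX'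
  exact ⟨F, i₃, m, n, ⟨hAF, hY, hZ', d₃, hF⟩, ⟨hX, hAF, hX', r, hmn⟩⟩

lemma tri_first_iso {X Y Z X' : C} {f : X ⟶ Y} {g : Y ⟶ Z} {h : Z ⟶ X⟦(1 : ℤ)⟧}
    (hT : Triangle.mk f g h ∈ distTriang C) (e : X' ≅ X) :
    Triangle.mk (e.hom ≫ f) g (h ≫ e.inv⟦(1 : ℤ)⟧') ∈ distTriang C := by
  refine isomorphic_distinguished _ hT _ ?_
  refine Triangle.isoMk _ _ e (Iso.refl _) (Iso.refl _) (by simp) (by simp) ?_
  simp [← Functor.map_comp]

include hA in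
lemma isZero_of_SES_left {X Y Z : C} {f : X ⟶ Y} {g : Y ⟶ Z} (h : SES A f g) (hf : f = 0) :
    IsZero X := by
  rw [IsZero.iff_id_eq_zero]
  exact h.mono hA h.1 _ (by rw [hf, CategoryTheory.Limits.comp_zero])

include hA in
lemma isZero_of_SES_right {X Y Z : C} {f : X ⟶ Y} {g : Y ⟶ Z} (h : SES A f g) (hg : g = 0) :
    IsZero Z := by
  rw [IsZero.iff_id_eq_zero]
  exact h.epi hA h.2.2.1 _ (by rw [hg, zero_comp])

include hA in
/-- Monomorphisms are subobjects. -/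
lemma AbSub.exists_of_mono {X Y : C} (hX : A X) (hY : A Y) (f : X ⟶ Y)
    (hf : ∀ W, A W → ∀ a : W ⟶ X, a ≫ f = 0 → a = 0) :
    ∃ (Q : C) (q : Y ⟶ Q), SES A f q := by
  obtain ⟨K, I, Q, k, p, i, q, h1, h2, hpi⟩ := hA.kiq hX hY f
  have hk : k = 0 := hf K h1.1 k (by rw [← hpi, ← Category.assoc, h1.comp_zero, zero_comp])
  have hK0 := isZero_of_SES_left hA h1 hk
  obtain ⟨-, -, hI, d, hT⟩ := h1
  have := iso_of_isZero₁ hT hK0
  obtain ⟨-, -, hQ, e, hT2⟩ := h2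
  refine ⟨Q, q, hX, hY, hQ, e ≫ (inv p)⟦(1 : ℤ)⟧', ?_⟩
  have := tri_first_iso hT2 (asIso p)
  rw [← hpi]
  exact this

include hA in
/-- Epimorphisms are quotients. -/
lemma AbSub.exists_of_epi {X Y : C} (hX : A X) (hY : A Y) (f : X ⟶ Y)
    (hf : ∀ W, A W → ∀ a : Y ⟶ W, f ≫ a = 0 → a = 0) :
    ∃ (K : C) (k : K ⟶ X), SES A k f := by
  obtain ⟨K, I, Q, k, p, i, q, h1, h2, hpi⟩ := hA.kiq hX hY f
  have hq : q = 0 := hf Q h2.2.2.1 q (by rw [← hpi, Category.assoc, h2.comp_zero,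
    CategoryTheory.Limits.comp_zero])
  have hQ0 := isZero_of_SES_right hA h2 hq
  obtain ⟨hK, -, hI, d, hT⟩ := h1
  obtain ⟨-, -, hQ, e, hT2⟩ := h2
  have := iso_of_isZero₃ hT2 hQ0
  refine ⟨K, k, hK, hX, hY, inv i ≫ d, ?_⟩
  have := tri_last_iso hT (asIso i)
  rw [← hpi]
  exact this

/-- The classes of the subobjects of `E`. -/
def Sub (A : C → Prop) (E : C) : Set (K0 C) :=
  {x | ∃ (F Q : C) (f : F ⟶ E) (g : E ⟶ Q), SES A f g ∧ cls F = x}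

include hA in
lemma sub_mono [IsTriangulated C] {F E Q : C} {f : F ⟶ E} {g : E ⟶ Q} (h : SES A f g) :
    Sub A F ⊆ Sub A E := by
  rintro x ⟨F', Q', f', g', h', rfl⟩
  obtain ⟨W, q, m, n, h1, -⟩ := h'.comp hA h
  exact ⟨F', W, _, q, h1, rfl⟩

include hA in
lemma sub_quot [IsTriangulated C] {F E Q : C} {f : F ⟶ E} {g : E ⟶ Q} (h : SES A f g)
    {x : K0 C} (hx : x ∈ Sub A Q) : cls F + x ∈ Sub A E := by
  obtain ⟨F', Q', f', g', h', rfl⟩ := hx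
  obtain ⟨W, i, m, n, h1, h2⟩ := h.comp' hA h'
  exact ⟨W, Q', i, _, h1, h2.cls_eq⟩

include hA in
lemma AbSub.ses_id {E : C} (hE : A E) : SES A (𝟙 E) (0 : E ⟶ (0 : C)) :=
  ⟨hE, hE, hA.zero_mem (isZero_zero C), 0, contractible_distinguished E⟩

include hA in
lemma AbSub.ses_zero {E : C} (hE : A E) : SES A (0 : (0 : C) ⟶ E) (𝟙 E) :=
  ⟨hA.zero_mem (isZero_zero C), hE, hE, 0, contractible_distinguished₁ E⟩

include hA in
lemma self_mem_sub {E : C} (hE : A E) : cls E ∈ Sub A E :=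
  ⟨E, 0, 𝟙 E, 0, hA.ses_id hE, rfl⟩

include hA in
lemma zero_mem_sub {E : C} (hE : A E) : (0 : K0 C) ∈ Sub A E :=
  ⟨0, E, 0, 𝟙 E, hA.ses_zero hE, cls_of_isZero (isZero_zero C)⟩

include hA in
lemma sub_of_isZero {E : C} (hE : IsZero E) {x : K0 C} (hx : x ∈ Sub A E) : x = 0 := by
  obtain ⟨F, Q, f, g, h, rfl⟩ := hx
  exact cls_of_isZero (isZero_of_SES_left hA h (hE.eq_of_tgt _ _))

lemma SES.left_mem {X Y Z : C} {f : X ⟶ Y} {g : Y ⟶ Z} (h : SES A f g) : cls X ∈ Sub A Y :=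
  ⟨X, Z, f, g, h, rfl⟩

include hA in
lemma AbSub.biprod_mem {X Y : C} (hX : A X) (hY : A Y) : A (X ⊞ Y) :=
  hA.ext_mem (binaryBiproductTriangle_distinguished X Y) hX hY

include hA in
lemma AbSub.ses_biprod {X Y : C} (hX : A X) (hY : A Y) :
    SES A (biprod.inl : X ⟶ X ⊞ Y) (biprod.snd : X ⊞ Y ⟶ Y) :=
  ⟨hX, hA.biprod_mem hX hY, hY, _, binaryBiproductTriangle_distinguished X Y⟩

include hA in
lemma sub_iso {X Y : C} (e : X ≅ Y) : Sub A X ⊆ Sub A Y := by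
  rintro x ⟨F, Q, f, g, ⟨h1, h2, h3, d, hT⟩, rfl⟩
  exact ⟨F, Q, _, _, ⟨h1, hA.iso_mem e h2, h3, d, tri_mid_iso hT e⟩, rfl⟩

include hA in
/-- The intersection with a subobject. -/
lemma AbSub.inter [IsTriangulated C] {F E Q X Y : C} {f : F ⟶ E} {g : E ⟶ Q} (h : SES A f g)
    {a : X ⟶ E} {b : E ⟶ Y} (h' : SES A a b) :
    ∃ (K I X' Y' : C) (k : K ⟶ F) (p : F ⟶ I) (k' : K ⟶ X) (x : X ⟶ X') (i : I ⟶ Y)
      (y : Y ⟶ Y'), SES A k p ∧ SES A k' x ∧ SES A i y := by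
  obtain ⟨K, I, Y', k, p, i, y, h1, h2, hpi⟩ := hA.kiq h.1 h'.2.2.1 (f ≫ b)
  obtain ⟨k', hk'⟩ := h'.lift (k ≫ f) (by
    rw [Category.assoc, ← hpi, ← Category.assoc, h1.comp_zero, zero_comp])
  obtain ⟨X', x, hx⟩ := hA.exists_of_mono h1.1 h'.1 k' (by
    intro W hW c hc
    have h3 : (c ≫ k) ≫ f = 0 := by
      rw [Category.assoc, ← hk', ← Category.assoc, hc, zero_comp]
    exact h1.mono hA hW _ (h.mono hA hW _ h3))
  exact ⟨K, I, X', Y', k, p, k', x, i, y, h1, hx, h2⟩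

end SES

/-- King stability: objects of `A` with `ℓ = 0` all of whose subobjects have `ℓ ≥ 0`. -/
def King (A : C → Prop) (l : K0 C →+ ℝ) (E : C) : Prop :=
  A E ∧ l (cls E) = 0 ∧ ∀ x ∈ Sub A E, 0 ≤ l x

lemma King.ab [IsTriangulated C] {A : C → Prop} (hA : AbSub A) (l : K0 C →+ ℝ) :
    AbSub (King A l) where
  iso_mem := by
    rintro X Y e ⟨h1, h2, h3⟩
    exact ⟨hA.iso_mem e h1, by rw [← cls_iso e]; exact h2,
      fun x hx => h3 x (sub_iso hA e.symm hx)⟩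
  zero_mem := by
    intro X hX
    exact ⟨hA.zero_mem hX, by rw [cls_of_isZero hX, map_zero],
      fun x hx => by rw [sub_of_isZero hA hX hx, map_zero]⟩
  ext_mem := by
    rintro X Y Z f g h hT ⟨hX1, hX2, hX3⟩ ⟨hZ1, hZ2, hZ3⟩
    have hY := hA.ext_mem hT hX1 hZ1
    refine ⟨hY, by rw [cls_mk hT, map_add, hX2, hZ2, add_zero], ?_⟩
    rintro x ⟨F, Q, a, b, hab, rfl⟩
    obtain ⟨K, I, X', Y', k, p, k', x, i, y, h1, h2, h3⟩ :=
      hA.inter hab (X := X) (Y := Z) (a := f) (b := g) ⟨hX1, hY, hZ1, h, hT⟩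
    rw [h1.cls_eq, map_add]
    exact add_nonneg (hX3 _ h2.left_mem) (hZ3 _ h3.left_mem)
  hom_neg := by
    intro X Y hX hY n hn f
    exact hA.hom_neg hX.1 hY.1 hn f
  kiq := by
    rintro X Y ⟨hX1, hX2, hX3⟩ ⟨hY1, hY2, hY3⟩ f
    obtain ⟨K, I, Q, k, p, i, q, h1, h2, hpi⟩ := hA.kiq hX1 hY1 f
    have hK := hX3 _ h1.left_mem
    have hI := hY3 _ h2.left_mem
    have e1 := h1.cls_eq
    have e2 := h2.cls_eq
    have e1' : l (cls K) + l (cls I) = 0 := by rw [← map_add, ← e1, hX2]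
    have e2' : l (cls I) + l (cls Q) = 0 := by rw [← map_add, ← e2, hY2]
    have hK0 : l (cls K) = 0 := by linarith
    have hI0 : l (cls I) = 0 := by linarith
    have hQ0 : l (cls Q) = 0 := by linarith
    have kK : King A l K := ⟨h1.1, hK0, fun x hx => hX3 x (sub_mono hA h1 hx)⟩
    have kI : King A l I := ⟨h1.2.2.1, hI0, fun x hx => hY3 x (sub_mono hA h2 hx)⟩
    have kQ : King A l Q := ⟨h2.2.2.1, hQ0, fun x hx => by
      have := hY3 _ (sub_quot hA h2 hx)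
      rw [map_add, hI0, zero_add] at this
      exact this⟩
    exact ⟨K, I, Q, k, p, i, q, ⟨kK, ⟨hX1, hX2, hX3⟩, kI, h1.2.2.2⟩,
      ⟨kI, ⟨hY1, hY2, hY3⟩, kQ, h2.2.2.2⟩, hpi⟩

lemma SES.of_le {A A' : C → Prop} {X Y Z : C} {f : X ⟶ Y} {g : Y ⟶ Z} (h : SES A f g)
    (hX : A' X) (hY : A' Y) (hZ : A' Z) : SES A' f g := ⟨hX, hY, hZ, h.2.2.2⟩

lemma King.sub [IsTriangulated C] {A : C → Prop} (hA : AbSub A) {l : K0 C →+ ℝ} {F E Q : C}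
    {f : F ⟶ E} {g : E ⟶ Q} (h : SES A f g) (hE : King A l E) (hF : l (cls F) = 0) :
    SES (King A l) f g := by
  have hQ : l (cls Q) = 0 := by
    have := h.cls_eq
    have h2 := hE.2.1
    rw [this, map_add, hF, zero_add] at h2
    exact h2
  refine ⟨⟨h.1, hF, fun x hx => hE.2.2 x (sub_mono hA h hx)⟩, hE, ⟨h.2.2.1, hQ, ?_⟩, h.2.2.2⟩
  intro x hx
  have := hE.2.2 _ (sub_quot hA h hx)
  rw [map_add, hF, zero_add] at this
  exact this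

/-- The heart of a slicing is an abelian subcategory. -/
lemma Slicing.heart_ab [IsTriangulated C] (S : Slicing C) (t : ℝ) : AbSub (S.Heart t) where
  iso_mem := fun e h => h.iso e
  zero_mem := fun h => Slicing.heart_of_isZero h
  ext_mem := fun hT h1 h2 => Slicing.Heart.ext hT h1 h2
  hom_neg := fun hX hY n hn f => hX.hom_neg hY hn f
  kiq := by
    intro X Y hX hY f
    obtain ⟨K, I, Q, i, p, d, j, q, e, hT1, hT2, hK, hI, hQ, hpj⟩ := Slicing.exists_KIQ hX hY f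
    exact ⟨K, I, Q, i, p, j, q, ⟨hK, hX, hI, d, hT1⟩, ⟨hI, hY, hQ, e, hT2⟩, hpj⟩

end Pool.Stab
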