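import Mathlib
import Pool.Agent.Work.MP_841263_r.Ab

/-!
# Finite length, simple objects, Serre subcategories
-/

open CategoryTheory CategoryTheory.Limits CategoryTheory.Pretriangulated
open scoped ZeroObject

set_option backward.isDefEq.respectTransparency false
set_option backward.defeqAttrib.useBackward true
set_option linter.unusedSectionVars false

namespace Pool.Stab

universe v u

variable {C : Type u} [Category.{v} C] [Preadditive C] [HasZeroObject C] [HasShift C ℤ]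
  [∀ n : ℤ, (shiftFunctor C n).Additive] [Pretriangulated C]

/-- An abelian subcategory with a positive additive function, in which every object has only
finitely many classes of subobjects. -/
structure FinCat (A : C → Prop) (im : K0 C →+ ℝ) : Prop extends AbSub A where
  pos : ∀ X, A X → ¬ IsZero X → 0 < im (cls X)
  fin : ∀ X, A X → (Sub A X).Finite

section

variable {A : C → Prop} {im : K0 C →+ ℝ} [IsTriangulated C]

lemma FinCat.nonneg (h : FinCat A im) {X : C} (hX : A X) : 0 ≤ im (cls X) := by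
  by_cases h0 : IsZero X
  · rw [cls_of_isZero h0, map_zero]
  · exact (h.pos X hX h0).le

/-- Induction over proper subobjects and proper quotients. -/
lemma FinCat.induction (h : FinCat A im) {P : C → Prop}
    (hP : ∀ E, A E → (∀ (F Q : C) (f : F ⟶ E) (g : E ⟶ Q), SES A f g → ¬ IsZero Q → P F) →
      (∀ (F Q : C) (f : F ⟶ E) (g : E ⟶ Q), SES A f g → ¬ IsZero F → P Q) → P E) :
    ∀ E, A E → P E := by
  have key : ∀ (n : ℕ) (E : C), A E → (Sub A E).ncard ≤ n → P E := by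
    intro n
    induction n using Nat.strong_induction_on with
    | _ n ih =>
      intro E hE hn
      refine hP E hE ?_ ?_
      · intro F Q f g hs hQ
        have hlt : (Sub A F).ncard < (Sub A E).ncard := by
          refine Set.ncard_lt_ncard ?_ (h.fin E hE)
          refine ⟨sub_mono h.toAbSub hs, fun hcon => ?_⟩
          obtain ⟨F', Q', f', g', hs', hc⟩ := hcon (self_mem_sub h.toAbSub hE)
          have h1 := hs'.cls_eq
          have h2 := hs.cls_eq
          have h3 := h.nonneg hs'.2.2.1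
          have h4 := h.pos Q hs.2.2.1 hQ
          have h5 : im (cls E) = im (cls F) + im (cls Q) := by rw [h2, map_add]
          have h6 : im (cls F) = im (cls E) + im (cls Q') := by rw [h1, map_add, hc]
          linarith
        exact ih _ (lt_of_lt_of_le hlt hn) F hs.1 le_rfl
      · intro F Q f g hs hF
        have hlt : (Sub A Q).ncard < (Sub A E).ncard := by
          have h1 : ((fun x => cls F + x) '' Sub A Q).ncard = (Sub A Q).ncard :=
            Set.ncard_image_of_injective _ (add_right_injective _)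
          rw [← h1]
          refine Set.ncard_lt_ncard ?_ (h.fin E hE)
          refine ⟨?_, fun hcon => ?_⟩
          · rintro _ ⟨x, hx, rfl⟩
            exact sub_quot h.toAbSub hs hx
          · obtain ⟨x, hx, hx0⟩ := hcon (zero_mem_sub h.toAbSub hE)
            obtain ⟨F', Q', f', g', hs', rfl⟩ := hx
            have hx0' : cls F + cls F' = 0 := hx0
            have h3 := h.nonneg hs'.1
            have h4 := h.pos F hs.1 hF
            have h5 : im (cls F) + im (cls F') = 0 := by rw [← map_add, hx0', map_zero]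
            linarith
        exact ih _ (lt_of_lt_of_le hlt hn) Q hs.2.2.1 le_rfl
  intro E hE
  exact key _ E hE le_rfl

lemma simpleIn_iff {X : C} : SimpleIn A X ↔ A X ∧ ¬ IsZero X ∧
    ∀ (Y Z : C) (f : Y ⟶ X) (g : X ⟶ Z), SES A f g → IsZero Y ∨ IsZero Z := by
  constructor
  · rintro ⟨h1, h2, h3⟩
    refine ⟨h1, h2, ?_⟩
    rintro Y Z f g ⟨hY, -, hZ, d, hT⟩
    exact h3 Y Z f g d hT hY hZ
  · rintro ⟨h1, h2, h3⟩
    refine ⟨h1, h2, ?_⟩
    intro Y Z f g d hT hY hZ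
    exact h3 Y Z f g ⟨hY, h1, hZ, d, hT⟩

/-- Every object has finite length. -/
lemma FinCat.gen_simple (h : FinCat A im) : ∀ E, A E → Gen (SimpleIn A) E := by
  refine h.induction ?_
  intro E hE h1 h2
  by_cases h0 : IsZero E
  · exact Gen.zero h0
  by_cases hs : SimpleIn A E
  · exact Gen.of hs
  · rw [simpleIn_iff] at hs
    push Not at hs
    obtain ⟨Y, Z, f, g, hfg, hY, hZ⟩ := hs hE h0
    have hY' := h1 _ _ _ _ hfg hZ
    have hZ' := h2 _ _ _ _ hfg hY
    obtain ⟨-, -, -, d, hT⟩ := hfg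
    exact Gen.ext hT hY' hZ'

lemma FinCat.exists_simple_quot (h : FinCat A im) : ∀ E, A E → ¬ IsZero E →
    ∃ (K S : C) (k : K ⟶ E) (s : E ⟶ S), SES A k s ∧ SimpleIn A S := by
  refine h.induction ?_
  intro E hE h1 h2 h0
  by_cases hs : SimpleIn A E
  · exact ⟨0, E, 0, 𝟙 E, h.ses_zero hE, hs⟩
  · rw [simpleIn_iff] at hs
    push Not at hs
    obtain ⟨Y, Z, f, g, hfg, hY, hZ⟩ := hs hE h0
    obtain ⟨K, S, k, s, hks, hS⟩ := h2 _ _ _ _ hfg hY hZ
    obtain ⟨F, i, m, n, h3, h4⟩ := hfg.comp' h.toAbSub hks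
    exact ⟨F, S, i, _, h3, hS⟩

lemma FinCat.exists_simple_sub (h : FinCat A im) : ∀ E, A E → ¬ IsZero E →
    ∃ (S Q : C) (s : S ⟶ E) (q : E ⟶ Q), SES A s q ∧ SimpleIn A S := by
  refine h.induction ?_
  intro E hE h1 h2 h0
  by_cases hs : SimpleIn A E
  · exact ⟨E, 0, 𝟙 E, 0, h.ses_id hE, hs⟩
  · rw [simpleIn_iff] at hs
    push Not at hs
    obtain ⟨Y, Z, f, g, hfg, hY, hZ⟩ := hs hE h0
    obtain ⟨S, Q, s, q, hsq, hS⟩ := h1 _ _ _ _ hfg hZ hY
    obtain ⟨Q', q', m, n, h3, h4⟩ := hsq.comp h.toAbSub hfg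
    exact ⟨S, Q', _, q', h3, hS⟩

/-- Schur's lemma. -/
lemma AbSub.schur (hA : AbSub A) {X Y : C} (hX : SimpleIn A X) (hY : SimpleIn A Y) (f : X ⟶ Y)
    (hf : f ≠ 0) : IsIso f := by
  obtain ⟨K, I, Q, k, p, i, q, h1, h2, hpi⟩ := hA.kiq hX.1 hY.1 f
  have hI0 : ¬ IsZero I := by
    intro h
    apply hf
    rw [← hpi, h.eq_of_tgt p 0, zero_comp]
  have hK0 : IsZero K := ((simpleIn_iff.1 hX).2.2 _ _ _ _ h1).resolve_right hI0
  have hQ0 : IsZero Q := ((simpleIn_iff.1 hY).2.2 _ _ _ _ h2).resolve_left hI0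
  obtain ⟨-, -, -, d, hT⟩ := h1
  obtain ⟨-, -, -, e, hT2⟩ := h2
  have := iso_of_isZero₁ hT hK0
  have := iso_of_isZero₃ hT2 hQ0
  rw [← hpi]
  infer_instance

/-- A nonzero morphism to a simple object is an epimorphism. -/
lemma AbSub.epi_simple (hA : AbSub A) {X S : C} (hX : A X) (hS : SimpleIn A S) (f : X ⟶ S)
    (hf : f ≠ 0) : ∃ (K : C) (k : K ⟶ X), SES A k f := by
  refine hA.exists_of_epi hX hS.1 f ?_
  intro W hW a ha
  obtain ⟨K, I, Q, k, p, i, q, h1, h2, hpi⟩ := hA.kiq hX hS.1 f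
  have hI0 : ¬ IsZero I := by
    intro h
    apply hf
    rw [← hpi, h.eq_of_tgt p 0, zero_comp]
  have hQ0 : IsZero Q := ((simpleIn_iff.1 hS).2.2 _ _ _ _ h2).resolve_left hI0
  have h3 : p ≫ (i ≫ a) = 0 := by rw [← Category.assoc, hpi, ha]
  have h4 : i ≫ a = 0 := h1.epi hA hW _ h3
  obtain ⟨b, hb⟩ := h2.desc a h4
  rw [← hb, hQ0.eq_of_src b 0, CategoryTheory.Limits.comp_zero]

lemma SimpleIn.iso {X Y : C} (hA : AbSub A) (hX : SimpleIn A X) (e : X ≅ Y) : SimpleIn A Y := by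
  refine ⟨hA.iso_mem e hX.1, fun h => hX.2.1 (h.of_iso e), ?_⟩
  intro Y' Z f g d hT hY' hZ
  have hT' := tri_mid_iso hT e.symm
  exact hX.2.2 _ _ _ _ _ hT' hY' hZ

/-- Serre property: sub and quotient objects of iterated extensions of simple objects. -/
lemma AbSub.serre (hA : AbSub A) {G : C → Prop} (hG : ∀ X, G X → SimpleIn A X) {Y : C}
    (hY : Gen G Y) : ∀ (X Z : C) (f : X ⟶ Y) (g : Y ⟶ Z), SES A f g → Gen G X ∧ Gen G Z := by
  induction hY with
  | zero h0 =>
    intro X Z f g h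
    exact ⟨Gen.zero (isZero_of_SES_left hA h (h0.eq_of_tgt _ _)),
      Gen.zero (isZero_of_SES_right hA h (h0.eq_of_src _ _))⟩
  | @of Y hY =>
    intro X Z f g h
    obtain ⟨hX, hY', hZ, d, hT⟩ := h
    rcases (hG Y hY).2.2 _ _ _ _ _ hT hX hZ with h0 | h0
    · have := iso_of_isZero₁ hT h0
      exact ⟨Gen.zero h0, (Gen.of hY).iso (asIso g)⟩
    · have := iso_of_isZero₃ hT h0
      exact ⟨(Gen.of hY).iso (asIso f).symm, Gen.zero h0⟩
  | @ext Y1 Y Y2 a b c hT h1 h2 ih1 ih2 =>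
    intro X Z f g h
    have hAG : ∀ W, Gen G W → A W := by
      intro W hW
      induction hW with
      | zero h => exact hA.zero_mem h
      | of h => exact (hG _ h).1
      | ext hT _ _ h1 h2 => exact hA.ext_mem hT h1 h2
    have hses : SES A a b := ⟨hAG _ h1, h.2.1, hAG _ h2, c, hT⟩
    obtain ⟨K, I, X', Y', k, p, k', x, i, y, s1, s2, s3⟩ := hA.inter h hses
    have hK := (ih1 _ _ _ _ s2).1
    have hI := (ih2 _ _ _ _ s3).1
    obtain ⟨-, -, -, d1, hT1⟩ := s1
    refine ⟨Gen.ext hT1 hK hI, ?_⟩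
    obtain ⟨K', I', Z', k2, p2, i2, z, t1, t2, hpi⟩ := hA.kiq hses.1 h.2.2.1 (a ≫ g)
    have hI' := (ih1 _ _ _ _ t1).2
    have h5 : a ≫ (g ≫ z) = 0 := by
      rw [← Category.assoc, ← hpi, Category.assoc, t2.comp_zero, CategoryTheory.Limits.comp_zero]
    obtain ⟨w, hw⟩ := hses.desc _ h5
    obtain ⟨K3, k3, t3⟩ := hA.exists_of_epi hses.2.2.1 t2.2.2.1 w (by
      intro W hW e he
      have h6 : g ≫ (z ≫ e) = 0 := by
        rw [← Category.assoc, ← hw, Category.assoc, he, CategoryTheory.Limits.comp_zero]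
      exact t2.epi hA hW _ (h.epi hA hW _ h6))
    have hZ' := (ih2 _ _ _ _ t3).2
    obtain ⟨-, -, -, d2, hT2⟩ := t2
    exact Gen.ext hT2 hI' hZ'

lemma AbSub.gen_mem (hA : AbSub A) {G : C → Prop} (hG : ∀ X, G X → SimpleIn A X) {W : C}
    (hW : Gen G W) : A W := by
  induction hW with
  | zero h => exact hA.zero_mem h
  | of h => exact (hG _ h).1
  | ext hT _ _ h1 h2 => exact hA.ext_mem hT h1 h2

/-- The iterated extensions of a class of simple objects form an abelian subcategory. -/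
lemma AbSub.gen_ab (hA : AbSub A) {G : C → Prop} (hG : ∀ X, G X → SimpleIn A X) :
    AbSub (Gen G) where
  iso_mem := fun e h => h.iso e
  zero_mem := fun h => Gen.zero h
  ext_mem := fun hT h1 h2 => Gen.ext hT h1 h2
  hom_neg := fun hX hY n hn f => hA.hom_neg (hA.gen_mem hG hX) (hA.gen_mem hG hY) hn f
  kiq := by
    intro X Y hX hY f
    obtain ⟨K, I, Q, k, p, i, q, h1, h2, hpi⟩ :=
      hA.kiq (hA.gen_mem hG hX) (hA.gen_mem hG hY) f
    have hKI := hA.serre hG hX _ _ _ _ h1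
    have hIQ := hA.serre hG hY _ _ _ _ h2
    exact ⟨K, I, Q, k, p, i, q, h1.of_le hKI.1 hX hKI.2, h2.of_le hIQ.1 hY hIQ.2, hpi⟩

lemma FinCat.gen_fin (h : FinCat A im) {G : C → Prop} (hG : ∀ X, G X → SimpleIn A X) :
    FinCat (Gen G) im where
  toAbSub := h.toAbSub.gen_ab hG
  pos := fun X hX h0 => h.pos X (h.gen_mem hG hX) h0
  fin := by
    intro X hX
    refine (h.fin X (h.gen_mem hG hX)).subset ?_
    rintro x ⟨F, Q, f, g, hs, rfl⟩
    exact ⟨F, Q, f, g, hs.of_le (h.gen_mem hG hs.1) (h.gen_mem hG hs.2.1)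
      (h.gen_mem hG hs.2.2.1), rfl⟩

lemma simple_of_gen (hA : AbSub A) {G : C → Prop} (hG : ∀ X, G X → SimpleIn A X) {X : C}
    (hX : Gen G X) (hs : SimpleIn A X) : SimpleIn (Gen G) X := by
  refine ⟨hX, hs.2.1, ?_⟩
  intro Y Z f g d hT hY hZ
  exact hs.2.2 _ _ _ _ _ hT (hA.gen_mem hG hY) (hA.gen_mem hG hZ)

end

section Linear

variable {A : C → Prop} [IsTriangulated C] [Linear ℂ C]

lemma AbSub.finrank_end (hA : AbSub A) (hK : IsK3 C) {X : C} (hX : SimpleIn A X) :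
    Module.finrank ℂ (X ⟶ X) = 1 := by
  have := hK.homFinite X X
  refine finrank_endomorphism_eq_one ℂ ?_
  intro f
  refine ⟨fun h h0 => ?_, fun h => hA.schur hX hX f h⟩
  subst h0
  have h1 : (𝟙 X : X ⟶ X) = 0 := by
    rw [← IsIso.hom_inv_id (0 : X ⟶ X), zero_comp]
  exact hX.2.1 (by rwa [IsZero.iff_id_eq_zero])

variable [∀ n : ℤ, (shiftFunctor C n).Linear ℂ]

lemma AbSub.finrank_zero (hA : AbSub A) (hK : IsK3 C) {X Y : C} (hX : A X) (hY : A Y) {n : ℤ}
    (hn : n < 0 ∨ 2 < n) : Module.finrank ℂ (X ⟶ Y⟦n⟧) = 0 := by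
  rcases hn with hn | hn
  · exact finrank_of_forall_zero (fun f => hA.hom_neg hX hY hn f)
  · rw [finrank_duality hK]
    exact finrank_of_forall_zero (fun f => hA.hom_neg hY hX (by omega) f)

/-- The key formula. -/
lemma AbSub.eulerChar (hA : AbSub A) (hK : IsK3 C) {X Y : C} (hX : A X) (hY : A Y) :
    eulerForm hK (cls X) (cls Y) = (Module.finrank ℂ (X ⟶ Y) : ℤ) +
      (Module.finrank ℂ (Y ⟶ X) : ℤ) - (Module.finrank ℂ (X ⟶ Y⟦(1 : ℤ)⟧) : ℤ) := by
  rw [eulerForm_cls, Pool.Stab.eulerChar]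
  rw [finsum_eq_sum_of_support_subset (s := {0, 1, 2})]
  · rw [Finset.sum_insert (by decide), Finset.sum_insert (by decide), Finset.sum_singleton]
    rw [finrank_shift_zero, ← hK.serre Y X, Int.negOnePow_zero, Int.negOnePow_one,
      Int.negOnePow_even 2 (by decide)]
    push_cast
    ring
  · intro n hn
    by_contra hcon
    apply hn
    have h : n < 0 ∨ 2 < n := by
      by_contra h'
      push Not at h'
      apply hcon
      obtain ⟨h1, h2⟩ := h'
      interval_cases n <;> simp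
    show (n.negOnePow : ℤ) * (Module.finrank ℂ (X ⟶ Y⟦n⟧) : ℤ) = 0
    rw [hA.finrank_zero hK hX hY h]
    simp

lemma AbSub.self_le (hA : AbSub A) (hK : IsK3 C) {X : C} (hX : SimpleIn A X) :
    eulerForm hK (cls X) (cls X) = 2 - (Module.finrank ℂ (X ⟶ X⟦(1 : ℤ)⟧) : ℤ) := by
  rw [hA.eulerChar hK hX.1 hX.1, hA.finrank_end hK hX]
  push_cast
  ring

lemma AbSub.self_le' (hA : AbSub A) (hK : IsK3 C) {X : C} (hX : SimpleIn A X) :
    eulerForm hK (cls X) (cls X) ≤ 2 := by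
  rw [hA.self_le hK hX]
  have : (0 : ℤ) ≤ (Module.finrank ℂ (X ⟶ X⟦(1 : ℤ)⟧) : ℤ) := by positivity
  linarith

/-- Simple objects which are not isomorphic. -/
lemma AbSub.simple_form_le (hA : AbSub A) (hK : IsK3 C) {X Y : C} (hX : SimpleIn A X)
    (hY : SimpleIn A Y) (h : ¬ Nonempty (X ≅ Y)) :
    eulerForm hK (cls X) (cls Y) = - (Module.finrank ℂ (X ⟶ Y⟦(1 : ℤ)⟧) : ℤ) ∧
      (∀ f : X ⟶ Y, f = 0) ∧ (∀ f : Y ⟶ X, f = 0) := by
  have h1 : ∀ f : X ⟶ Y, f = 0 := by
    intro f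
    by_contra hf
    have := hA.schur hX hY f hf
    exact h ⟨asIso f⟩
  have h2 : ∀ f : Y ⟶ X, f = 0 := by
    intro f
    by_contra hf
    have := hA.schur hY hX f hf
    exact h ⟨(asIso f).symm⟩
  refine ⟨?_, h1, h2⟩
  rw [hA.eulerChar hK hX.1 hY.1, finrank_of_forall_zero h1, finrank_of_forall_zero h2]
  simp

/-- Vanishing of all `Hom(X, Y[n])` from the vanishing for `n = 0, 1, 2`. -/
lemma AbSub.orth (hA : AbSub A) (hK : IsK3 C) {X Y : C} (hX : A X) (hY : A Y)
    (h0 : ∀ f : X ⟶ Y, f = 0) (h1 : ∀ f : X ⟶ Y⟦(1 : ℤ)⟧, f = 0) (h2 : ∀ f : Y ⟶ X, f = 0)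
    (n : ℤ) (f : X ⟶ Y⟦n⟧) : f = 0 := by
  refine forall_zero_of_finrank hK ?_ f
  by_cases hn : n < 0 ∨ 2 < n
  · exact hA.finrank_zero hK hX hY hn
  · push Not at hn
    obtain ⟨h3, h4⟩ := hn
    interval_cases n
    · rw [finrank_shift_zero]
      exact finrank_of_forall_zero h0
    · exact finrank_of_forall_zero h1
    · rw [← hK.serre Y X]
      exact finrank_of_forall_zero h2

lemma finrank_pos_of_ne {X Y : C} (hK : IsK3 C) (f : X ⟶ Y) (hf : f ≠ 0) :
    0 < Module.finrank ℂ (X ⟶ Y) := by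
  have := hK.homFinite X Y
  rw [Module.finrank_pos_iff_exists_ne_zero]
  exact ⟨f, hf⟩

lemma finrank_self_pos (hK : IsK3 C) {X : C} (hX : ¬ IsZero X) :
    0 < Module.finrank ℂ (X ⟶ X) := by
  refine finrank_pos_of_ne hK (𝟙 X) ?_
  intro h
  exact hX (by rwa [IsZero.iff_id_eq_zero])

/-- `Hom(X, Y[1])` and `Hom(Y, X[1])` have the same dimension. -/
lemma finrank_ext_symm (hK : IsK3 C) (X Y : C) :
    Module.finrank ℂ (X ⟶ Y⟦(1 : ℤ)⟧) = Module.finrank ℂ (Y ⟶ X⟦(1 : ℤ)⟧) := by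
  have h1 := finrank_duality hK X Y 1
  have h2 : (2 : ℤ) - 1 = 1 := by norm_num
  rw [h2] at h1
  exact h1

end Linear

end Pool.Stab
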