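import Mathlib
import Pool.Agent.Work.MP_841263_r.Fin
import Pool.Agent.Work.MP_841263_r.Defs

/-!
# Rigid objects
-/

open CategoryTheory CategoryTheory.Limits CategoryTheory.Pretriangulated
open scoped ZeroObject

set_option backward.isDefEq.respectTransparency false
set_option backward.defeqAttrib.useBackward true
set_option linter.unusedSectionVars false

namespace Pool.Stab

universe v u

variable {C : Type u} [Category.{v} C] [Preadditive C] [HasZeroObject C] [HasShift C ℤ]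
  [∀ n : ℤ, (shiftFunctor C n).Additive] [Pretriangulated C]

lemma Rigid.iso {X Y : C} (h : Rigid X) (e : X ≅ Y) : Rigid Y := by
  intro f
  have h1 := h (e.hom ≫ f ≫ e.inv⟦(1 : ℤ)⟧')
  have h2 : (e.inv⟦(1 : ℤ)⟧') ≫ (e.hom⟦(1 : ℤ)⟧') = 𝟙 _ := by
    rw [← Functor.map_comp, e.inv_hom_id, CategoryTheory.Functor.map_id]
  calc f = e.inv ≫ (e.hom ≫ f ≫ e.inv⟦(1 : ℤ)⟧') ≫ e.hom⟦(1 : ℤ)⟧' := by
        simp [h2]
    _ = 0 := by rw [h1]; simp

lemma Rigid.shift {X : C} (h : Rigid X) (n : ℤ) : Rigid (X⟦n⟧) := by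
  intro f
  have e : (X⟦n⟧)⟦(1 : ℤ)⟧ ≅ X⟦1 + n⟧ := ((shiftFunctorAdd' C n 1 (1 + n) (by ring)).app X).symm
  have h1 := hom_shift_zero (X := X) (Y := X) (a := n) (b := 1 + n) (c := 1) rfl h (f ≫ e.hom)
  rw [← cancel_mono e.hom, h1, zero_comp]

section Linear

variable [Linear ℂ C] [∀ n : ℤ, (shiftFunctor C n).Linear ℂ]

/-- **Mukai's lemma** for rigid objects. -/
lemma Rigid.of_triangle (hK : IsK3 C) {X E Y : C} {f : X ⟶ E} {g : E ⟶ Y}
    {h : Y ⟶ X⟦(1 : ℤ)⟧} (hT : Triangle.mk f g h ∈ distTriang C) (h0 : ∀ a : X ⟶ Y, a = 0)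
    (hE : Rigid E) : Rigid X ∧ Rigid Y := by
  have h2 : ∀ a : Y ⟶ X⟦(2 : ℤ)⟧, a = 0 := by
    refine forall_zero_of_finrank hK ?_
    rw [← hK.serre X Y]
    exact finrank_of_forall_zero h0
  have h11 : ∀ a : Y ⟶ (X⟦(1 : ℤ)⟧)⟦(1 : ℤ)⟧, a = 0 := by
    intro a
    have e : X⟦(2 : ℤ)⟧ ≅ (X⟦(1 : ℤ)⟧)⟦(1 : ℤ)⟧ :=
      (shiftFunctorAdd' C (1 : ℤ) 1 2 (by norm_num)).app X
    rw [← cancel_mono e.inv, h2 (a ≫ e.inv), zero_comp]
  constructor
  · intro a
    obtain ⟨a', c', hinv⟩ := exists_invrot hT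
    have h3 : a' ≫ (a ≫ f⟦(1 : ℤ)⟧') = 0 := by
      rw [← Category.assoc, hom_shift_zero (X := Y) (Y := X) (a := -1) (b := 1) (c := 2)
        (by norm_num) h2 (a' ≫ a), zero_comp]
    obtain ⟨b, hb⟩ := Triangle.yoneda_exact₂ _ hinv _ h3
    have hb' : a ≫ f⟦(1 : ℤ)⟧' = f ≫ b := hb
    rw [hE b, CategoryTheory.Limits.comp_zero] at hb'
    -- `a` factors through `Y → X[1]`
    have h4 : a ≫ (-f⟦(1 : ℤ)⟧') = 0 := by rw [Preadditive.comp_neg, hb', neg_zero]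
    obtain ⟨c, hc⟩ := Triangle.coyoneda_exact₃ _ (rot_mk hT) a h4
    have hc' : a = c ≫ h := hc
    rw [hc', h0 c, zero_comp]
  · intro b
    have h3 : (g ≫ b) ≫ (-h⟦(1 : ℤ)⟧') = 0 := by
      rw [Category.assoc, Preadditive.comp_neg, h11 (b ≫ h⟦(1 : ℤ)⟧'), neg_zero,
        CategoryTheory.Limits.comp_zero]
    have hT3 := rot_mk (rot_mk (rot_mk hT))
    obtain ⟨c, hc⟩ := Triangle.coyoneda_exact₃ _ hT3 (g ≫ b) h3
    have hc' : g ≫ b = c ≫ (-g⟦(1 : ℤ)⟧') := hc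
    rw [hE c, zero_comp] at hc'
    obtain ⟨d, hd⟩ := Triangle.yoneda_exact₂ _ (rot_mk hT) b hc'
    have hd' : b = h ≫ d := hd
    rw [hd', hom_shift_zero (X := X) (Y := Y) (a := 1) (b := 1) (c := 0) (by norm_num)
      (fun a => by
        rw [← cancel_mono ((shiftFunctorZero C ℤ).app Y).hom, h0 (a ≫ _), zero_comp]) d,
      CategoryTheory.Limits.comp_zero]

variable [IsTriangulated C] {A : C → Prop} {im : K0 C →+ ℝ}

lemma Rigid.form_self (hA : AbSub A) (hK : IsK3 C) {E : C} (hE : A E) (hr : Rigid E) :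
    eulerForm hK (cls E) (cls E) = 2 * (Module.finrank ℂ (E ⟶ E) : ℤ) := by
  rw [hA.eulerChar hK hE hE, finrank_of_forall_zero hr]
  push_cast
  ring

lemma gen_iso_cls {S : C} {X : C} (h : Gen (fun Y => Nonempty (Y ≅ S)) X) :
    ∃ n : ℕ, cls X = n • cls S := by
  induction h with
  | zero h => exact ⟨0, by rw [cls_of_isZero h, zero_smul]⟩
  | of h =>
    obtain ⟨e⟩ := h
    exact ⟨1, by rw [cls_iso e, one_smul]⟩
  | ext hT _ _ h1 h2 =>
    obtain ⟨n, hn⟩ := h1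
    obtain ⟨m, hm⟩ := h2
    exact ⟨n + m, by rw [cls_mk hT, hn, hm, add_smul]⟩

/-- The maximal quotient which is an iterated extension of copies of the simple object `S`. -/
lemma FinCat.isotypic (h : FinCat A im) {S : C} (hS : SimpleIn A S) : ∀ E, A E →
    ∃ (A' Q : C) (a : A' ⟶ E) (q : E ⟶ Q), SES A a q ∧ Gen (fun Y => Nonempty (Y ≅ S)) Q ∧
      (∀ f : A' ⟶ S, f = 0) ∧ ((∃ f : E ⟶ S, f ≠ 0) → ¬ IsZero Q) := by
  refine h.induction ?_
  intro E hE h1 h2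
  by_cases h0 : ∀ f : E ⟶ S, f = 0
  · exact ⟨E, 0, 𝟙 E, 0, h.ses_id hE, Gen.zero (isZero_zero C), h0,
      fun ⟨f, hf⟩ => absurd (h0 f) hf⟩
  · push Not at h0
    obtain ⟨f, hf⟩ := h0
    obtain ⟨K, k, hk⟩ := h.toAbSub.epi_simple hE hS f hf
    obtain ⟨A', Q, a, q, s1, g1, z1, -⟩ := h1 _ _ _ _ hk hS.2.1
    obtain ⟨W, w, m, n, s2, s3⟩ := s1.comp h.toAbSub hk
    have s3' := s3
    obtain ⟨-, -, -, d, hT⟩ := s3'
    refine ⟨A', W, _, w, s2, Gen.ext hT g1 (Gen.of ⟨Iso.refl S⟩), z1, fun _ hW => ?_⟩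
    exact hS.2.1 (isZero_of_SES_right h.toAbSub s3 (hW.eq_of_src _ _))

/-- The simple factors of a rigid object are rigid. -/
lemma FinCat.rigid_factors (h : FinCat A im) (hK : IsK3 C)
    (heven : ∀ x : K0 C, Even (eulerForm hK x x)) : ∀ E, A E → Rigid E →
    Gen (fun S => SimpleIn A S ∧ Rigid S) E := by
  refine h.induction ?_
  intro E hE h1 _ hr
  by_cases h0 : IsZero E
  · exact Gen.zero h0
  obtain ⟨K, S, k, s, hks, hS⟩ := h.exists_simple_quot E hE h0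
  have hs0 : s ≠ 0 := by
    intro hs
    exact hS.2.1 (isZero_of_SES_right h.toAbSub hks hs)
  obtain ⟨A', Q, a, q, s1, g1, z1, z2⟩ := h.isotypic hS E hE
  have hQ0 := z2 ⟨s, hs0⟩
  have s1' := s1
  obtain ⟨hA', -, hQ, d, hT⟩ := s1'
  have hzero : ∀ f : A' ⟶ Q, f = 0 := by
    intro f
    refine Gen.hom_zero (G := fun Y => Y = A') (G' := fun Y => Nonempty (Y ≅ S)) ?_
      (Gen.of rfl) g1 f
    rintro X Y rfl ⟨e⟩ f
    rw [← cancel_mono e.hom, z1 (f ≫ e.hom), zero_comp]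
  obtain ⟨hrA, hrQ⟩ := Rigid.of_triangle hK hT hzero hr
  obtain ⟨n, hn⟩ := gen_iso_cls g1
  have hSr : Rigid S := by
    have e1 := hrQ.form_self h.toAbSub hK hQ
    have e2 := finrank_self_pos hK hQ0
    have e3 : eulerForm hK (cls Q) (cls Q) = (n : ℤ) * n * eulerForm hK (cls S) (cls S) := by
      rw [hn]
      simp only [map_nsmul, AddMonoidHom.coe_smul, Pi.smul_apply, nsmul_eq_mul]
      ring
    have e4 := h.toAbSub.self_le hK hS
    obtain ⟨r, hr⟩ := heven (cls S)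
    have e5 : 0 < eulerForm hK (cls S) (cls S) := by
      by_contra hcon
      push Not at hcon
      have : eulerForm hK (cls Q) (cls Q) ≤ 0 := by
        rw [e3]
        exact mul_nonpos_of_nonneg_of_nonpos (by positivity) hcon
      have e2' : (0 : ℤ) < (Module.finrank ℂ (Q ⟶ Q) : ℤ) := by exact_mod_cast e2
      linarith
    have e6 : Module.finrank ℂ (S ⟶ S⟦(1 : ℤ)⟧) = 0 := by
      have : (0 : ℤ) ≤ (Module.finrank ℂ (S ⟶ S⟦(1 : ℤ)⟧) : ℤ) := by positivity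
      omega
    exact forall_zero_of_finrank hK e6
  refine Gen.ext hT (h1 _ _ _ _ s1 hQ0 hrA) ?_
  refine g1.mono ?_
  rintro Y ⟨e⟩
  exact ⟨hS.iso h.toAbSub e.symm, hSr.iso e.symm⟩

/-- A simple object of positive norm is rigid, of norm two. -/
lemma AbSub.rigid_of_pos (hA : AbSub A) (hK : IsK3 C)
    (heven : ∀ x : K0 C, Even (eulerForm hK x x)) {S : C} (hS : SimpleIn A S)
    (hpos : 0 < eulerForm hK (cls S) (cls S)) : Rigid S := by
  have e4 := hA.self_le hK hS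
  obtain ⟨r, hr⟩ := heven (cls S)
  have e6 : Module.finrank ℂ (S ⟶ S⟦(1 : ℤ)⟧) = 0 := by
    have : (0 : ℤ) ≤ (Module.finrank ℂ (S ⟶ S⟦(1 : ℤ)⟧) : ℤ) := by positivity
    omega
  exact forall_zero_of_finrank hK e6

lemma AbSub.norm_of_rigid (hA : AbSub A) (hK : IsK3 C) {S : C} (hS : SimpleIn A S)
    (hr : Rigid S) : eulerForm hK (cls S) (cls S) = 2 := by
  rw [hA.self_le hK hS, finrank_of_forall_zero hr]
  simp

/-- Simple rigid objects with the same class are isomorphic. -/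
lemma AbSub.iso_of_cls (hA : AbSub A) (hK : IsK3 C) {S T : C} (hS : SimpleIn A S)
    (hT : SimpleIn A T) (hr : Rigid S) (h : cls S = cls T) : Nonempty (S ≅ T) := by
  by_contra hcon
  have h1 := (hA.simple_form_le hK hS hT hcon).1
  rw [← h, hA.norm_of_rigid hK hS hr] at h1
  have : (0 : ℤ) ≤ (Module.finrank ℂ (S ⟶ T⟦(1 : ℤ)⟧) : ℤ) := by positivity
  linarith

end Linear

end Pool.Stab
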