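import Mathlib
import Pool.Agent.Work.MP_841263_r.Rig

/-!
# Slope stability in an abelian subcategory of finite length
-/

open CategoryTheory CategoryTheory.Limits CategoryTheory.Pretriangulated
open scoped ZeroObject

set_option backward.isDefEq.respectTransparency false
set_option backward.defeqAttrib.useBackward true
set_option linter.unusedSectionVars false

namespace Pool.Stab

universe v u

variable {C : Type u} [Category.{v} C] [Preadditive C] [HasZeroObject C] [HasShift C ℤ]
  [∀ n : ℤ, (shiftFunctor C n).Additive] [Pretriangulated C]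

/-- The functional comparing slopes with the slope of `c`. -/
noncomputable def lin (im w : K0 C →+ ℝ) (c : K0 C) : K0 C →+ ℝ := (im c) • w - (w c) • im

lemma lin_apply (im w : K0 C →+ ℝ) (c x : K0 C) :
    lin im w c x = im c * w x - w c * im x := by
  simp [lin]

lemma lin_self (im w : K0 C →+ ℝ) (c : K0 C) : lin im w c c = 0 := by
  rw [lin_apply]; ring

lemma lin_anti (im w : K0 C →+ ℝ) (c x : K0 C) : lin im w c x = - lin im w x c := by
  rw [lin_apply, lin_apply]; ring

lemma lin_add_left (im w : K0 C →+ ℝ) (c d x : K0 C) :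
    lin im w (c + d) x = lin im w c x + lin im w d x := by
  simp only [lin_apply, map_add]; ring

lemma lin_trans (im w : K0 C →+ ℝ) (x y z : K0 C) :
    im y * lin im w x z = im z * lin im w x y + im x * lin im w y z := by
  simp only [lin_apply]; ring

lemma lin_trans_nonneg {im w : K0 C →+ ℝ} {x y z : K0 C} (hy : 0 < im y) (hx : 0 ≤ im x)
    (hz : 0 ≤ im z) (h1 : 0 ≤ lin im w x y) (h2 : 0 ≤ lin im w y z) : 0 ≤ lin im w x z := by
  have h := lin_trans im w x y z
  have : 0 ≤ im y * lin im w x z := by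
    rw [h]; positivity
  exact nonneg_of_mul_nonneg_right this hy

lemma lin_trans_pos {im w : K0 C →+ ℝ} {x y z : K0 C} (hy : 0 < im y) (hx : 0 < im x)
    (hz : 0 < im z) (h1 : 0 ≤ lin im w x y) (h2 : 0 < lin im w y z) : 0 < lin im w x z := by
  have h := lin_trans im w x y z
  have : 0 < im y * lin im w x z := by
    rw [h]; positivity
  exact pos_of_mul_pos_right this hy.le

lemma lin_trans_pos' {im w : K0 C →+ ℝ} {x y z : K0 C} (hy : 0 < im y) (hx : 0 < im x)
    (hz : 0 < im z) (h1 : 0 < lin im w x y) (h2 : 0 ≤ lin im w y z) : 0 < lin im w x z := by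
  have h := lin_trans im w x y z
  have : 0 < im y * lin im w x z := by
    rw [h]; positivity
  exact pos_of_mul_pos_right this hy.le

/-- Slope semistable objects. -/
def SSt (A : C → Prop) (im w : K0 C →+ ℝ) (E : C) : Prop := King A (lin im w (cls E)) E

section

variable {A : C → Prop} {im : K0 C →+ ℝ} [IsTriangulated C]

lemma SSt.quot (h : FinCat A im) {w : K0 C →+ ℝ} {E : C} (hE : SSt A im w E) {K I : C}
    {k : K ⟶ E} {p : E ⟶ I} (hs : SES A k p) : lin im w (cls E) (cls I) ≤ 0 := by
  have h1 := hE.2.2 _ hs.left_mem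
  have h2 := hE.2.1
  rw [hs.cls_eq, map_add] at h2
  rw [← hs.cls_eq] at h2
  linarith

/-- There are no nonzero morphisms from larger to smaller phase. -/
lemma SSt.hom_zero (h : FinCat A im) {w : K0 C →+ ℝ} {E F : C} (hE : SSt A im w E)
    (hF : SSt A im w F) (hlt : 0 < lin im w (cls E) (cls F)) (f : E ⟶ F) : f = 0 := by
  obtain ⟨K, I, Q, k, p, i, q, h1, h2, hpi⟩ := h.kiq hE.1 hF.1 f
  have hI0 : IsZero I := by
    by_contra hI
    have hIpos := h.pos I h1.2.2.1 hI
    have hE0 : ¬ IsZero E := fun h0 => hI (isZero_of_SES_right h.toAbSub h1 (h0.eq_of_src _ _))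
    have hF0 : ¬ IsZero F := fun h0 => hI (isZero_of_SES_left h.toAbSub h2 (h0.eq_of_tgt _ _))
    have e1 := hE.quot h h1
    have e2 := hF.2.2 _ h2.left_mem
    have hEpos := h.pos E hE.1 hE0
    have hFpos := h.pos F hF.1 hF0
    have e3 : 0 < lin im w (cls E) (cls I) := lin_trans_pos' hFpos hEpos hIpos hlt e2
    linarith
  rw [← hpi, hI0.eq_of_tgt p 0, zero_comp]

/-- Harder-Narasimhan filtrations by objects, the subobject of largest phase comes first. -/
inductive HNo (A : C → Prop) (im w : K0 C →+ ℝ) : C → List C → Prop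
  | zero {E : C} (h : IsZero E) : HNo A im w E []
  | step {F E Q : C} {f : F ⟶ E} {g : E ⟶ Q} {l : List C} (h : SES A f g)
      (hF : SSt A im w F) (hF0 : ¬ IsZero F) (hQ : HNo A im w Q l)
      (hl : ∀ H ∈ l, 0 < lin im w (cls F) (cls H)) : HNo A im w E (F :: l)

lemma HNo.all {w : K0 C →+ ℝ} {E : C} {l : List C} (hE : HNo A im w E l) :
    ∀ H ∈ l, SSt A im w H ∧ ¬ IsZero H := by
  induction hE with
  | zero h => simp
  | step h hF hF0 hQ hl ih =>
    intro H hH
    rcases List.mem_cons.1 hH with rfl | hH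
    · exact ⟨hF, hF0⟩
    · exact ih H hH

lemma HNo.cls_eq {w : K0 C →+ ℝ} {E : C} {l : List C} (hE : HNo A im w E l) :
    cls E = (l.map cls).sum := by
  induction hE with
  | zero h => simp [cls_of_isZero h]
  | step h hF hF0 hQ hl ih =>
    rw [List.map_cons, List.sum_cons, ← ih, h.cls_eq]

lemma HNo.gen {w : K0 C →+ ℝ} {E : C} {l : List C} (hE : HNo A im w E l) :
    Gen (fun H => H ∈ l) E := by
  induction hE with
  | zero h => exact Gen.zero h
  | step h hF hF0 hQ hl ih =>
    obtain ⟨-, -, -, d, hT⟩ := h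
    exact Gen.ext hT (Gen.of (by simp)) (ih.mono (fun X hX => by simp [hX]))

lemma HNo.last (h : FinCat A im) {w : K0 C →+ ℝ} {E : C} {l : List C}
    (hE : HNo A im w E l) : ∀ H, l.getLast? = some H →
      ∃ (K : C) (k : K ⟶ E) (g : E ⟶ H), SES A k g := by
  induction hE with
  | zero h => intro H hH; simp at hH
  | @step F E Q f g l hs hF hF0 hQ hl ih =>
    intro H hH
    cases l with
    | nil =>
      rw [List.getLast?_singleton] at hH
      obtain rfl : F = H := by simpa using hH
      cases hQ with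
      | zero hQ0 =>
        obtain ⟨-, hE, -, d, hT⟩ := hs
        have := iso_of_isZero₃ hT hQ0
        exact ⟨0, 0, inv f, h.iso_mem (Iso.refl (0 : C)) (h.zero_mem (isZero_zero C)), hE, hF.1,
          0, by
            have := tri_mid_iso (contractible_distinguished₁ F) (asIso f)
            simpa using this⟩
    | cons H1 l' =>
      rw [List.getLast?_cons_cons] at hH
      obtain ⟨K, k, g', hk⟩ := ih H hH
      obtain ⟨F', i, m, n, h1, h2⟩ := hs.comp' h.toAbSub hk
      exact ⟨F', i, _, h1⟩

lemma FinCat.exists_HNo (h : FinCat A im) (w : K0 C →+ ℝ) : ∀ E, A E →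
    ∃ l, HNo A im w E l := by
  refine h.induction ?_
  intro E hE _ h2
  by_cases h0 : IsZero E
  · exact ⟨[], HNo.zero h0⟩
  have hEpos := h.pos E hE h0
  set T : Set (K0 C) := {x ∈ Sub A E | 0 < im x} with hT
  have hTfin : T.Finite := (h.fin E hE).subset (Set.sep_subset _ _)
  have hTne : T.Nonempty := ⟨cls E, self_mem_sub h.toAbSub hE, hEpos⟩
  obtain ⟨x, hx, hmin⟩ := Set.exists_min_image T
    (fun x => toLex (w x / im x, - im x)) hTfin hTne
  obtain ⟨⟨F, Q, f, g, hs, rfl⟩, hFpos⟩ := hx
  have hF0 : ¬ IsZero F := by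
    intro h3
    rw [cls_of_isZero h3, map_zero] at hFpos
    exact lt_irrefl _ hFpos
  have hmin1 : ∀ y ∈ Sub A E, 0 < im y → 0 ≤ lin im w (cls F) y := by
    intro y hy hypos
    have h3 := hmin y ⟨hy, hypos⟩
    have h4 : w (cls F) / im (cls F) ≤ w y / im y := by
      rw [Prod.Lex.le_iff] at h3
      rcases h3 with h3 | h3
      · exact h3.le
      · exact h3.1.le
    rw [div_le_div_iff₀ hFpos hypos] at h4
    rw [lin_apply]
    linarith
  have hmin2 : ∀ y ∈ Sub A E, im (cls F) < im y → 0 < lin im w (cls F) y := by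
    intro y hy hypos
    have hy0 : 0 < im y := hFpos.trans hypos
    have h3 := hmin y ⟨hy, hy0⟩
    have h4 : w (cls F) / im (cls F) < w y / im y := by
      rw [Prod.Lex.le_iff] at h3
      rcases h3 with h3 | h3
      · exact h3
      · exfalso
        have : - im (cls F) ≤ - im y := h3.2
        linarith
    rw [div_lt_div_iff₀ hFpos hy0] at h4
    rw [lin_apply]
    linarith
  have hFs : SSt A im w F := by
    refine ⟨hs.1, lin_self _ _ _, ?_⟩
    intro y hy
    by_cases hy0 : 0 < im y
    · exact hmin1 y (sub_mono h.toAbSub hs hy) hy0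
    · obtain ⟨F', Q', f', g', hs', rfl⟩ := hy
      have : IsZero F' := by
        by_contra hF'
        exact hy0 (h.pos _ hs'.1 hF')
      rw [cls_of_isZero this, map_zero]
  obtain ⟨l, hl⟩ := h2 _ _ _ _ hs hF0
  have hall := hl.all
  refine ⟨F :: l, HNo.step hs hFs hF0 hl ?_⟩
  cases hl with
  | zero _ => simp
  | @step H1 _ Q' f' g' l' hs' hH1 hH10 hQ' hl' =>
    have hH1pos := h.pos _ hH1.1 hH10
    have h5 : 0 < lin im w (cls F) (cls H1) := by
      have h6 := hmin2 _ (sub_quot h.toAbSub hs hs'.left_mem) (by rw [map_add]; linarith)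
      rw [map_add, lin_self, zero_add] at h6
      exact h6
    intro H hH
    rcases List.mem_cons.1 hH with rfl | hH'
    · exact h5
    · have hHpos := h.pos _ (hall H hH).1.1 (hall H hH).2
      exact lin_trans_pos' hH1pos hFpos hHpos h5 (hl' H hH').le

lemma conv_le {a b p q x y h z D : ℝ} (ha : 0 ≤ a) (hb : 0 ≤ b) (hp : 0 < p) (hq : 0 < q)
    (hh : 0 < h) (hD : 0 < D) (h1 : h * D = a * p + b * q) (h2 : z * D = a * x + b * y) :
    z ^ 2 / h * D + a * b * (x * q - y * p) ^ 2 / (p * q * (h * D)) =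
      a * (x ^ 2 / p) + b * (y ^ 2 / q) := by
  have e1 : z ^ 2 / h * D = (z * D) ^ 2 / (h * D) := by
    field_simp
  have hhD : 0 < h * D := by positivity
  rw [e1, h2]
  have h3 : 0 < a * p + b * q := by rw [← h1]; exact hhD
  rw [h1]
  field_simp
  ring

end

end Pool.Stab
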