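import Mathlib
import Pool.Agent.Work.MP_841263_r.Slope

/-!
# The mass decreases strictly under nonsplit extensions in the wrong order
-/

open CategoryTheory CategoryTheory.Limits CategoryTheory.Pretriangulated
open scoped ZeroObject

set_option backward.isDefEq.respectTransparency false
set_option backward.defeqAttrib.useBackward true
set_option linter.unusedSectionVars false

namespace Pool.Stab

universe v u

variable {C : Type u} [Category.{v} C] [Preadditive C] [HasZeroObject C] [HasShift C ℤ]
  [∀ n : ℤ, (shiftFunctor C n).Additive] [Pretriangulated C]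

/-- The mass of a list of objects. -/
noncomputable def massL (im w : K0 C →+ ℝ) (L : Multiset C) : ℝ :=
  (L.map (fun H => w (cls H) ^ 2 / im (cls H))).sum

lemma massL_cons (im w : K0 C →+ ℝ) (X : C) (L : Multiset C) :
    massL im w (X ::ₘ L) = w (cls X) ^ 2 / im (cls X) + massL im w L := by
  simp [massL]

lemma massL_add (im w : K0 C →+ ℝ) (L M : Multiset C) :
    massL im w (L + M) = massL im w L + massL im w M := by
  simp [massL]

section

variable {A : C → Prop} {im : K0 C →+ ℝ} [IsTriangulated C]

/-- Sum of the values of an additive function over a list. -/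
lemma sum_map_apply (F : K0 C →+ ℝ) (l : List C) :
    F ((l.map cls).sum) = (l.map (fun H => F (cls H))).sum := by
  induction l with
  | nil => simp
  | cons a l ih => simp [ih]

lemma mass_bound {im w : K0 C →+ ℝ} {X Y : K0 C} (hX : 0 < im X) (hY : 0 < im Y)
    (hD : 0 < lin im w X Y) {H : K0 C} (hH : 0 < im H) (ha : 0 ≤ lin im w H Y)
    (hb : 0 ≤ lin im w X H) :
    w H ^ 2 / im H * lin im w X Y ≤
      lin im w H Y * (w X ^ 2 / im X) + lin im w X H * (w Y ^ 2 / im Y) ∧
    (0 < lin im w H Y → 0 < lin im w X H → w H ^ 2 / im H * lin im w X Y <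
      lin im w H Y * (w X ^ 2 / im X) + lin im w X H * (w Y ^ 2 / im Y)) := by
  have h1 : im H * lin im w X Y = lin im w H Y * im X + lin im w X H * im Y := by
    simp only [lin_apply]; ring
  have h2 : w H * lin im w X Y = lin im w H Y * w X + lin im w X H * w Y := by
    simp only [lin_apply]; ring
  have h3 := conv_le ha hb hX hY hH hD h1 h2
  have h4 : w X * im Y - w Y * im X = - lin im w X Y := by rw [lin_apply]; ring
  rw [h4] at h3
  refine ⟨?_, ?_⟩
  · have : 0 ≤ lin im w H Y * lin im w X H * (-lin im w X Y) ^ 2 /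
        (im X * im Y * (im H * lin im w X Y)) := by positivity
    linarith
  · intro ha' hb'
    have : 0 < lin im w H Y * lin im w X H * (-lin im w X Y) ^ 2 /
        (im X * im Y * (im H * lin im w X Y)) := by
      have h5 : (0 : ℝ) < (-lin im w X Y) ^ 2 := by
        rw [neg_sq]; positivity
      positivity
    linarith

lemma HNo.pairwise {w : K0 C →+ ℝ} {G : C} {l : List C} (hl : HNo A im w G l) :
    l.Pairwise (fun H H' => 0 < lin im w (cls H) (cls H')) := by
  induction hl with
  | zero _ => exact List.Pairwise.nil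
  | step hs' hH1 hH10 hQ hl' ih => exact List.Pairwise.cons hl' ih

/-- The splitting argument. -/
lemma split_aux (h : FinCat A im) {w : K0 C →+ ℝ} {X Y G : C} {a : Y ⟶ G} {b : G ⟶ X}
    (hs : SES A a b) (hX : SSt A im w X) (hY : SSt A im w Y) (hX0 : ¬ IsZero X)
    (hlt : 0 < lin im w (cls X) (cls Y)) {H Q : C} {f : H ⟶ G} {g : G ⟶ Q}
    (hH : SES A f g) (hHs : SSt A im w H) (hH0 : ¬ IsZero H)
    (e1 : lin im w (cls X) (cls H) = 0) (e2 : im (cls H) = im (cls X)) :
    ∃ s : X ⟶ G, s ≫ b = 𝟙 X := by
  have hXpos := h.pos X hX.1 hX0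
  have hHpos := h.pos H hH.1 hH0
  obtain ⟨K, I, X', k, p, i, x, t1, t2, hpi⟩ := h.kiq hH.1 hX.1 (f ≫ b)
  -- the kernel is a subobject of `Y`
  obtain ⟨k', hk'⟩ := hs.lift (k ≫ f) (by
    rw [Category.assoc, ← hpi, ← Category.assoc, t1.comp_zero, zero_comp])
  obtain ⟨Y', y, hy⟩ := h.toAbSub.exists_of_mono t1.1 hs.1 k' (by
    intro W hW c hc
    have h3 : (c ≫ k) ≫ f = 0 := by
      rw [Category.assoc, ← hk', ← Category.assoc, hc, zero_comp]
    exact t1.mono h.toAbSub hW _ (hH.mono h.toAbSub hW _ h3))
  have e3 : lin im w (cls H) (cls X) = 0 := by rw [lin_anti, e1, neg_zero]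
  have hK0 : IsZero K := by
    by_contra hK
    have hKpos := h.pos K t1.1 hK
    have hYpos : 0 < im (cls Y) := h.pos Y hY.1 (fun h0 => hK
      (isZero_of_SES_left h.toAbSub hy (h0.eq_of_tgt _ _)))
    have g1 : 0 ≤ lin im w (cls Y) (cls K) := hY.2.2 _ hy.left_mem
    have g2 : 0 < lin im w (cls X) (cls K) := lin_trans_pos' hYpos hXpos hKpos hlt g1
    have g3 : 0 < lin im w (cls H) (cls K) :=
      lin_trans_pos hXpos hHpos hKpos e3.ge g2
    have g4 := hHs.2.1
    rw [t1.cls_eq, map_add, ← t1.cls_eq] at g4
    by_cases hI : IsZero I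
    · rw [cls_of_isZero hI, map_zero] at g4
      linarith
    · have hIpos := h.pos I t1.2.2.1 hI
      have g5 := hX.2.2 _ t2.left_mem
      have g6 : 0 ≤ lin im w (cls H) (cls I) :=
        lin_trans_nonneg hXpos hHpos.le hIpos.le e3.ge g5
      linarith
  have hXz : IsZero X' := by
    by_contra hX'
    have g1 := h.pos X' t2.2.2.1 hX'
    have g2 := t2.cls_eq
    have g3 := t1.cls_eq
    rw [cls_of_isZero hK0, zero_add] at g3
    have g4 : im (cls X) = im (cls H) + im (cls X') := by rw [g2, map_add, g3]
    linarith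
  obtain ⟨-, -, -, d1, hT1⟩ := t1
  obtain ⟨-, -, -, d2, hT2⟩ := t2
  have := iso_of_isZero₁ hT1 hK0
  have := iso_of_isZero₃ hT2 hXz
  have hiso : IsIso (f ≫ b) := by rw [← hpi]; infer_instance
  exact ⟨inv (f ≫ b) ≫ f, by rw [Category.assoc, IsIso.inv_hom_id]⟩

/-- **Strict decrease of the mass.** -/
lemma strict_massL (h : FinCat A im) {w : K0 C →+ ℝ} {X Y G : C} {a : Y ⟶ G} {b : G ⟶ X}
    {p : X ⟶ Y⟦(1 : ℤ)⟧} (hT : Triangle.mk a b p ∈ distTriang C) (hp : p ≠ 0)
    (hX : SSt A im w X) (hY : SSt A im w Y) (hX0 : ¬ IsZero X) (hY0 : ¬ IsZero Y)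
    (hlt : 0 < lin im w (cls X) (cls Y)) :
    ∃ l, HNo A im w G l ∧
      massL im w (l : Multiset C) < w (cls X) ^ 2 / im (cls X) + w (cls Y) ^ 2 / im (cls Y) := by
  have hG : A G := h.ext_mem hT hY.1 hX.1
  have hs : SES A a b := ⟨hY.1, hG, hX.1, p, hT⟩
  obtain ⟨l, hl⟩ := h.exists_HNo w G hG
  refine ⟨l, hl, ?_⟩
  have hall := hl.all
  have hXpos := h.pos X hX.1 hX0
  have hYpos := h.pos Y hY.1 hY0
  have hpos : ∀ H ∈ l, 0 < im (cls H) := fun H hH => h.pos H (hall H hH).1.1 (hall H hH).2
  have hcls : cls G = cls Y + cls X := hs.cls_eq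
  -- upper bound for the phases
  have hb : ∀ H ∈ l, 0 ≤ lin im w (cls X) (cls H) := by
    cases hl with
    | zero _ => simp
    | @step H1 _ Q f g l' hs' hH1 hH10 hQ hl' =>
      have hH1pos := hpos H1 (by simp)
      have h5 : 0 ≤ lin im w (cls X) (cls H1) := by
        have hf0 : f ≠ 0 := fun h0 => hH10 (isZero_of_SES_left h.toAbSub hs' h0)
        by_cases hfb : f ≫ b = 0
        · obtain ⟨f', hf'⟩ := hs.lift f hfb
          have hf'0 : f' ≠ 0 := by
            intro h0
            rw [h0, zero_comp] at hf'
            exact hf0 hf'.symm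
          have h6 : 0 ≤ lin im w (cls Y) (cls H1) := by
            by_contra hcon
            push Not at hcon
            rw [lin_anti] at hcon
            exact hf'0 (hH1.hom_zero h hY (by linarith) f')
          exact (lin_trans_pos' hYpos hXpos hH1pos hlt h6).le
        · by_contra hcon
          push Not at hcon
          rw [lin_anti] at hcon
          exact hfb (hH1.hom_zero h hX (by linarith) _)
      intro H hH
      rcases List.mem_cons.1 hH with rfl | hH'
      · exact h5
      · exact lin_trans_nonneg hH1pos hXpos.le (hpos H hH).le h5 (hl' H hH').le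
  -- lower bound for the phases
  have hinc : l.Pairwise (fun H H' => 0 < lin im w (cls H) (cls H')) := hl.pairwise
  have ha : ∀ H ∈ l, 0 ≤ lin im w (cls H) (cls Y) := by
    rcases List.eq_nil_or_concat l with rfl | ⟨l0, Hm, rfl⟩
    · simp
    · obtain ⟨K, k, g, hk⟩ := hl.last h Hm (by simp)
      have hHm := hall Hm (by simp)
      have hHmpos := hpos Hm (by simp)
      have h5 : 0 ≤ lin im w (cls Hm) (cls Y) := by
        have hg0 : g ≠ 0 := fun h0 => hHm.2 (isZero_of_SES_right h.toAbSub hk h0)
        by_cases hag : a ≫ g = 0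
        · obtain ⟨g', hg'⟩ := hs.desc g hag
          have hg'0 : g' ≠ 0 := by
            intro h0
            rw [h0, CategoryTheory.Limits.comp_zero] at hg'
            exact hg0 hg'.symm
          have h6 : 0 ≤ lin im w (cls Hm) (cls X) := by
            by_contra hcon
            push Not at hcon
            rw [lin_anti] at hcon
            exact hg'0 (hX.hom_zero h hHm.1 (by linarith) g')
          exact (lin_trans_pos hXpos hHmpos hYpos h6 hlt).le
        · by_contra hcon
          push Not at hcon
          rw [lin_anti] at hcon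
          exact hag (hY.hom_zero h hHm.1 (by linarith) _)
      intro H hH
      rw [List.concat_eq_append, List.mem_append, List.mem_singleton] at hH
      rcases hH with hH | rfl
      · have h7 : 0 < lin im w (cls H) (cls Hm) := by
          rw [List.concat_eq_append, List.pairwise_append] at hinc
          exact hinc.2.2 H hH Hm (by simp)
        exact (lin_trans_pos' hHmpos (hpos H (by simp [hH])) hYpos h7 h5).le
      · exact h5
  -- sums
  set D := lin im w (cls X) (cls Y) with hD
  have hsumA : (l.map (fun H => lin im w (cls H) (cls Y))).sum = D := by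
    have h1 : (l.map (fun H => lin im w (cls H) (cls Y))).sum =
        - lin im w (cls Y) ((l.map cls).sum) := by
      have h2 := sum_map_apply (-(lin im w (cls Y))) l
      rw [AddMonoidHom.neg_apply] at h2
      rw [h2]
      congr 1
      refine List.map_congr_left ?_
      intro H _
      rw [lin_anti, AddMonoidHom.neg_apply]
    rw [h1, ← hl.cls_eq, hcls, map_add, lin_self, zero_add, ← lin_anti]
  have hsumB : (l.map (fun H => lin im w (cls X) (cls H))).sum = D := by
    rw [← sum_map_apply, ← hl.cls_eq, hcls, map_add, lin_self, add_zero]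
  have hmass : massL im w (l : Multiset C) = (l.map (fun H => w (cls H) ^ 2 / im (cls H))).sum := by
    simp [massL]
  -- the inequality multiplied by `D`
  have hle : ∀ l' : List C, (∀ H ∈ l', H ∈ l) →
      (l'.map (fun H => w (cls H) ^ 2 / im (cls H))).sum * D ≤
      (l'.map (fun H => lin im w (cls H) (cls Y))).sum * (w (cls X) ^ 2 / im (cls X)) +
      (l'.map (fun H => lin im w (cls X) (cls H))).sum * (w (cls Y) ^ 2 / im (cls Y)) ∧
      ((∃ H ∈ l', 0 < lin im w (cls H) (cls Y) ∧ 0 < lin im w (cls X) (cls H)) →
      (l'.map (fun H => w (cls H) ^ 2 / im (cls H))).sum * D <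
      (l'.map (fun H => lin im w (cls H) (cls Y))).sum * (w (cls X) ^ 2 / im (cls X)) +
      (l'.map (fun H => lin im w (cls X) (cls H))).sum * (w (cls Y) ^ 2 / im (cls Y))) := by
    intro l' hl'
    induction l' with
    | nil => simp
    | cons H l' ih =>
      obtain ⟨i1, i2⟩ := ih (fun H hH => hl' H (by simp [hH]))
      have hHl := hl' H (by simp)
      obtain ⟨j1, j2⟩ := mass_bound hXpos hYpos hlt (hpos H hHl) (ha H hHl) (hb H hHl)
      simp only [List.map_cons, List.sum_cons, add_mul]
      refine ⟨by linarith, ?_⟩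
      rintro ⟨H', hH', hp1, hp2⟩
      rcases List.mem_cons.1 hH' with rfl | hH'
      · have := j2 hp1 hp2
        linarith
      · have := i2 ⟨H', hH', hp1, hp2⟩
        linarith
  obtain ⟨-, hlt2⟩ := hle l (fun H hH => hH)
  have hex : ∃ H ∈ l, 0 < lin im w (cls H) (cls Y) ∧ 0 < lin im w (cls X) (cls H) := by
    by_contra hcon
    push Not at hcon
    cases hl with
    | zero hz =>
      simp only [List.map_nil, List.sum_nil] at hsumA
      rw [← hsumA] at hlt
      exact lt_irrefl _ hlt
    | @step H1 _ Q f g l' hs' hH1 hH10 hQ hl' =>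
      cases l' with
      | nil =>
        simp only [List.map_cons, List.map_nil, List.sum_cons, List.sum_nil, add_zero] at hsumA hsumB
        have := hcon H1 (by simp) (by rw [hsumA]; exact hlt)
        rw [hsumB] at this
        linarith
      | cons H2 l'' =>
        have hH1pos := hpos H1 (by simp)
        have hH2pos := hpos H2 (by simp)
        have h12 := hl' H2 (by simp)
        have h2Y := ha H2 (by simp)
        have h1Y : 0 < lin im w (cls H1) (cls Y) :=
          lin_trans_pos' hH2pos hH1pos hYpos h12 h2Y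
        have hX1 : lin im w (cls X) (cls H1) = 0 :=
          le_antisymm (hcon H1 (by simp) h1Y) (hb H1 (by simp))
        have hzero : ∀ H ∈ H2 :: l'', lin im w (cls H) (cls Y) = 0 := by
          intro H hH
          have g1 : 0 < lin im w (cls X) (cls H) :=
            lin_trans_pos hH1pos hXpos (hpos H (List.mem_cons_of_mem _ hH)) hX1.ge (hl' H hH)
          have g2 := ha H (List.mem_cons_of_mem _ hH)
          by_contra hne
          have g3 : 0 < lin im w (cls H) (cls Y) := lt_of_le_of_ne g2 (Ne.symm hne)
          have := hcon H (List.mem_cons_of_mem _ hH) g3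
          linarith
        have hsum0 : ((H2 :: l'').map (fun H => lin im w (cls H) (cls Y))).sum = 0 := by
          refine List.sum_eq_zero ?_
          intro r hr
          obtain ⟨H, hH, rfl⟩ := List.mem_map.1 hr
          exact hzero H hH
        rw [List.map_cons, List.sum_cons, hsum0, add_zero] at hsumA
        have him : im (cls H1) = im (cls X) := by
          have h1 : im (cls H1) * D = lin im w (cls H1) (cls Y) * im (cls X) +
              lin im w (cls X) (cls H1) * im (cls Y) := by
            rw [hD]; simp only [lin_apply]; ring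
          rw [hX1, hsumA, zero_mul, add_zero, mul_comm] at h1
          exact mul_left_cancel₀ hlt.ne' h1
        obtain ⟨s, hsb⟩ := split_aux h hs hX hY hX0 hlt hs' hH1 hH10 hX1 him
        apply hp
        have h6 : b ≫ p = 0 := comp_distTriang_mor_zero₂₃ _ hT
        calc p = (s ≫ b) ≫ p := by rw [hsb, Category.id_comp]
          _ = 0 := by rw [Category.assoc, h6, CategoryTheory.Limits.comp_zero]
  have h7 := hlt2 hex
  rw [hsumA, hsumB, ← mul_add, mul_comm] at h7
  rw [hmass]
  exact lt_of_mul_lt_mul_left h7 hlt.le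

end

end Pool.Stab
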