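import Mathlib
import Pool.Agent.Work.MP_841263_r.Strict

/-!
# Orthogonality and the pencil argument
-/

open CategoryTheory CategoryTheory.Limits CategoryTheory.Pretriangulated
open scoped ZeroObject

set_option backward.isDefEq.respectTransparency false
set_option backward.defeqAttrib.useBackward true
set_option linter.unusedSectionVars false

namespace Pool.Stab

universe v u

variable {C : Type u} [Category.{v} C] [Preadditive C] [HasZeroObject C] [HasShift C ℤ]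
  [∀ n : ℤ, (shiftFunctor C n).Additive] [Pretriangulated C]

/-- `Hom(E, X[n]) = 0` for all `n`. -/
def Orth (E X : C) : Prop := ∀ (n : ℤ) (f : E ⟶ X⟦n⟧), f = 0

lemma Orth.iso {E X Y : C} (h : Orth E X) (e : X ≅ Y) : Orth E Y := by
  intro n f
  have := h n (f ≫ e.inv⟦n⟧')
  rw [← cancel_mono (e.inv⟦n⟧'), this, zero_comp]

lemma Orth.of_isZero {E X : C} (h : IsZero X) : Orth E X := by
  intro n f
  exact ((isZero_shift_iff X n).2 h).eq_of_tgt _ _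

lemma Orth.ext {E X Y Z : C} {f : X ⟶ Y} {g : Y ⟶ Z} {h : Z ⟶ X⟦(1 : ℤ)⟧}
    (hT : Triangle.mk f g h ∈ distTriang C) (hX : Orth E X) (hZ : Orth E Z) : Orth E Y := by
  intro n a
  exact hom_zero_of_ext₂ (Triangle.shift_distinguished _ hT n) (fun b => hX n b)
    (fun b => hZ n b) a

lemma Orth.shift {E X : C} (h : Orth E X) (m : ℤ) : Orth E (X⟦m⟧) := by
  intro n f
  have e : (X⟦m⟧)⟦n⟧ ≅ X⟦m + n⟧ := ((shiftFunctorAdd' C m n (m + n) rfl).app X).symm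
  rw [← cancel_mono e.hom, h _ (f ≫ e.hom), zero_comp]

lemma Orth.third {E X Y Z : C} {f : X ⟶ Y} {g : Y ⟶ Z} {h : Z ⟶ X⟦(1 : ℤ)⟧}
    (hT : Triangle.mk f g h ∈ distTriang C) (hX : Orth E X) (hY : Orth E Y) : Orth E Z :=
  Orth.ext (rot_mk hT) hY (hX.shift 1)

lemma Orth.first {E X Y Z : C} {f : X ⟶ Y} {g : Y ⟶ Z} {h : Z ⟶ X⟦(1 : ℤ)⟧}
    (hT : Triangle.mk f g h ∈ distTriang C) (hY : Orth E Y) (hZ : Orth E Z) : Orth E X := by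
  obtain ⟨a', c', hinv⟩ := exists_invrot hT
  exact Orth.ext hinv (hZ.shift (-1)) hY

lemma Orth.of_gen {G : C → Prop} {E X : C} (hX : Gen G X) (h : ∀ Y, G Y → Orth E Y) :
    Orth E X := by
  induction hX with
  | zero h0 => exact Orth.of_isZero h0
  | of hX => exact h _ hX
  | ext hT _ _ h1 h2 => exact Orth.ext hT h1 h2

lemma exists_not_orth {G : C → Prop} {E X : C} (hX : Gen G X) (h : ¬ Orth E X) :
    ∃ Y, G Y ∧ ¬ Orth E Y := by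
  by_contra hcon
  push Not at hcon
  exact h (Orth.of_gen hX hcon)

lemma not_orth_self {E : C} (hE : ¬ IsZero E) : ¬ Orth E E := by
  intro h
  apply hE
  rw [IsZero.iff_id_eq_zero, ← cancel_mono ((shiftFunctorZero C ℤ).app E).inv,
    h 0 (𝟙 E ≫ _), zero_comp]

lemma Orth.of_biprod_left {E X Y : C} (h : Orth E (X ⊞ Y)) : Orth E X := by
  intro n f
  have h1 := h n (f ≫ (biprod.inl : X ⟶ X ⊞ Y)⟦n⟧')
  have h2 : (biprod.inl : X ⟶ X ⊞ Y)⟦n⟧' ≫ (biprod.fst : X ⊞ Y ⟶ X)⟦n⟧' = 𝟙 _ := by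
    rw [← Functor.map_comp, biprod.inl_fst, CategoryTheory.Functor.map_id]
  calc f = (f ≫ (biprod.inl : X ⟶ X ⊞ Y)⟦n⟧') ≫ (biprod.fst : X ⊞ Y ⟶ X)⟦n⟧' := by
        rw [Category.assoc, h2, Category.comp_id]
    _ = 0 := by rw [h1, zero_comp]

section Linear

variable [Linear ℂ C] [∀ n : ℤ, (shiftFunctor C n).Linear ℂ]

lemma pencil_inj {E X Y G : C} {a : Y ⟶ G} {b : G ⟶ X} {p : X ⟶ Y⟦(1 : ℤ)⟧}
    (hT : Triangle.mk a b p ∈ distTriang C) (hG : Orth E G) (n : ℤ) (f : E ⟶ X⟦n⟧)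
    (hf : f ≫ p⟦n⟧' = 0) : f = 0 := by
  have hT2 := Triangle.shift_distinguished _ (rot_mk hT) n
  obtain ⟨c, hc⟩ := Triangle.coyoneda_exact₂ _ hT2 f (by
    show f ≫ (n.negOnePow • (p⟦n⟧')) = 0
    rw [Linear.comp_units_smul, hf, smul_zero])
  have hc0 : c = 0 := hG n c
  rw [hc, hc0, zero_comp]

lemma pencil_surj {E X Y G : C} {a : Y ⟶ G} {b : G ⟶ X} {p : X ⟶ Y⟦(1 : ℤ)⟧}
    (hT : Triangle.mk a b p ∈ distTriang C) (hG : Orth E G) (n : ℤ)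
    (g : E ⟶ (Y⟦(1 : ℤ)⟧)⟦n⟧) : ∃ f : E ⟶ X⟦n⟧, f ≫ p⟦n⟧' = g := by
  have hT2 := Triangle.shift_distinguished _ (rot_mk (rot_mk hT)) n
  obtain ⟨c, hc⟩ := Triangle.coyoneda_exact₂ _ hT2 g ((hG.shift 1) n _)
  have hc' : g = c ≫ (n.negOnePow • (p⟦n⟧')) := hc
  refine ⟨n.negOnePow • c, ?_⟩
  rw [hc', Linear.units_smul_comp, Linear.comp_units_smul]

/-- **The pencil argument.** If `Ext¹(X, Y)` has dimension at least two, and `X`, `Y` are not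
both orthogonal to `E`, some nonsplit extension of `X` by `Y` is not orthogonal to `E`. -/
lemma exists_pencil (hK : IsK3 C) {E X Y : C}
    (h2 : 1 < Module.finrank ℂ (X ⟶ Y⟦(1 : ℤ)⟧)) (hno : ¬ (Orth E X ∧ Orth E Y)) :
    ∃ p : X ⟶ Y⟦(1 : ℤ)⟧, p ≠ 0 ∧ ∀ (G : C) (a : Y ⟶ G) (b : G ⟶ X),
      Triangle.mk a b p ∈ distTriang C → ¬ Orth E G := by
  by_contra hcon
  push Not at hcon
  have hfd := hK.homFinite X (Y⟦(1 : ℤ)⟧)
  obtain ⟨p₁, hp₁⟩ : ∃ p : X ⟶ Y⟦(1 : ℤ)⟧, p ≠ 0 := by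
    have : 0 < Module.finrank ℂ (X ⟶ Y⟦(1 : ℤ)⟧) := by omega
    exact Module.finrank_pos_iff_exists_ne_zero.1 this
  obtain ⟨p₂, hp₂⟩ := exists_linearIndependent_pair_of_one_lt_finrank h2 hp₁
  have hne : ∀ lam : ℂ, p₂ - lam • p₁ ≠ 0 := by
    intro lam h0
    have h1 := LinearIndependent.pair_iff.1 hp₂ (-lam) 1 (by
      rw [one_smul, neg_smul, ← h0]; abel)
    exact one_ne_zero h1.2
  have hp₂0 : p₂ ≠ 0 := by
    have := hne 0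
    simpa using this
  obtain ⟨G₁, a₁, b₁, hT₁, hG₁⟩ := hcon p₁ hp₁
  obtain ⟨G₂, a₂, b₂, hT₂, hG₂⟩ := hcon p₂ hp₂0
  -- some `Hom(E, X[n])` is nonzero
  have hX : ¬ Orth E X := by
    intro hX
    exact hno ⟨hX, Orth.first hT₁ hG₁ hX⟩
  obtain ⟨n, f, hf⟩ : ∃ (n : ℤ) (f : E ⟶ X⟦n⟧), f ≠ 0 := by
    by_contra h
    push Not at h
    exact hX h
  have hfd1 := hK.homFinite E (X⟦n⟧)
  have hfd2 := hK.homFinite E ((Y⟦(1 : ℤ)⟧)⟦n⟧)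
  have hnt : Nontrivial (E ⟶ X⟦n⟧) := ⟨f, 0, hf⟩
  let φ₁ : (E ⟶ X⟦n⟧) →ₗ[ℂ] (E ⟶ (Y⟦(1 : ℤ)⟧)⟦n⟧) := Linear.rightComp ℂ E (p₁⟦n⟧')
  let φ₂ : (E ⟶ X⟦n⟧) →ₗ[ℂ] (E ⟶ (Y⟦(1 : ℤ)⟧)⟦n⟧) := Linear.rightComp ℂ E (p₂⟦n⟧')
  have hinj : Function.Injective φ₁ := by
    rw [injective_iff_map_eq_zero]
    intro g hg
    exact pencil_inj hT₁ hG₁ n g hg
  have hsurj : Function.Surjective φ₁ := by
    intro g
    obtain ⟨c, hc⟩ := pencil_surj hT₁ hG₁ n g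
    exact ⟨c, hc⟩
  let e₁ := LinearEquiv.ofBijective φ₁ ⟨hinj, hsurj⟩
  obtain ⟨lam, hlam⟩ := Module.End.exists_eigenvalue (K := ℂ)
    ((e₁.symm : (E ⟶ (Y⟦(1 : ℤ)⟧)⟦n⟧) →ₗ[ℂ] (E ⟶ X⟦n⟧)) ∘ₗ φ₂)
  obtain ⟨v, hv⟩ := hlam.exists_hasEigenvector
  have hv1 := hv.apply_eq_smul
  have hv0 := hv.2
  have hv2 : φ₂ v = lam • φ₁ v := by
    have h3 : e₁.symm (φ₂ v) = lam • v := hv1
    have h4 : e₁ (e₁.symm (φ₂ v)) = e₁ (lam • v) := by rw [h3]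
    rw [LinearEquiv.apply_symm_apply, map_smul] at h4
    exact h4
  obtain ⟨G₃, a₃, b₃, hT₃, hG₃⟩ := hcon (p₂ - lam • p₁) (hne lam)
  apply hv0
  refine pencil_inj hT₃ hG₃ n v ?_
  rw [Functor.map_sub, Functor.map_smul, Preadditive.comp_sub, Linear.comp_smul]
  have h5 : v ≫ p₂⟦n⟧' = lam • (v ≫ p₁⟦n⟧') := hv2
  rw [h5, sub_self]

end Linear

end Pool.Stab
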