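import Mathlib
import Pool.Agent.Work.MP_841263_r.Pencil

/-!
# Configurations of least mass
-/

open CategoryTheory CategoryTheory.Limits CategoryTheory.Pretriangulated
open scoped ZeroObject

set_option backward.isDefEq.respectTransparency false
set_option backward.defeqAttrib.useBackward true
set_option linter.unusedSectionVars false

namespace Pool.Stab

universe v u

variable {C : Type u} [Category.{v} C] [Preadditive C] [HasZeroObject C] [HasShift C ℤ]
  [∀ n : ℤ, (shiftFunctor C n).Additive] [Pretriangulated C]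

/-- A configuration of class `c`: a finite list of nonzero semistable objects. -/
def Cfg (A : C → Prop) (im w : K0 C →+ ℝ) (c : K0 C) (L : Multiset C) : Prop :=
  (∀ H ∈ L, SSt A im w H ∧ ¬ IsZero H) ∧ (L.map cls).sum = c

/-- Finiteness of the classes of subobjects of all objects of class `c`. -/
def FinU (A : C → Prop) (c : K0 C) : Prop :=
  {x : K0 C | ∃ E, A E ∧ cls E = c ∧ x ∈ Sub A E}.Finite

lemma King.scale {A : C → Prop} {l l' : K0 C →+ ℝ} {r : ℝ} (hr : 0 < r)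
    (h : ∀ x, l' x = r * l x) {E : C} (hE : King A l E) : King A l' E := by
  obtain ⟨h1, h2, h3⟩ := hE
  exact ⟨h1, by rw [h, h2, mul_zero], fun x hx => by rw [h]; exact mul_nonneg hr.le (h3 x hx)⟩

lemma lin_parallel {im w : K0 C →+ ℝ} {x y : K0 C} (hx : 0 < im x) (h : lin im w x y = 0)
    (z : K0 C) : lin im w y z = (im y / im x) * lin im w x z := by
  rw [lin_apply] at h
  rw [lin_apply, lin_apply]
  field_simp
  linear_combination (-(im z)) * h

lemma mass_parallel {im w : K0 C →+ ℝ} {x y : K0 C} (hx : 0 < im x) (hy : 0 < im y)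
    (h : lin im w x y = 0) :
    w (x + y) ^ 2 / im (x + y) = w x ^ 2 / im x + w y ^ 2 / im y := by
  rw [lin_apply] at h
  rw [map_add, map_add]
  have h1 : w y = w x * im y / im x := by
    field_simp
    linarith
  rw [h1]
  field_simp

section

variable {A : C → Prop} {im : K0 C →+ ℝ} [IsTriangulated C]

lemma exists_sum_obj (hA : AbSub A) (L : Multiset C) (hL : ∀ H ∈ L, A H) :
    ∃ E, A E ∧ cls E = (L.map cls).sum ∧ ∀ H ∈ L, cls H ∈ Sub A E := by
  induction L using Multiset.induction_on with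
  | empty => exact ⟨0, hA.zero_mem (isZero_zero C), by simp [cls_of_isZero (isZero_zero C)],
      by simp⟩
  | cons X L ih =>
    obtain ⟨E, hE, hc, hs⟩ := ih (fun H hH => hL H (Multiset.mem_cons_of_mem hH))
    have hX := hL X (Multiset.mem_cons_self X L)
    refine ⟨X ⊞ E, hA.biprod_mem hX hE, by rw [cls_biprod, hc]; simp, ?_⟩
    intro H hH
    rcases Multiset.mem_cons.1 hH with rfl | hH
    · exact (hA.ses_biprod hX hE).left_mem
    · have h1 := sub_mono hA (hA.ses_biprod hE hX) (hs H hH)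
      exact sub_iso hA (biprod.braiding E X) h1

lemma FinU.of_add (hA : AbSub A) {a b : K0 C} (h : FinU A (a + b))
    (hb : ∃ E, A E ∧ cls E = b) : FinU A a := by
  obtain ⟨E', hE', rfl⟩ := hb
  refine h.subset ?_
  rintro x ⟨E, hE, rfl, hx⟩
  exact ⟨E ⊞ E', hA.biprod_mem hE hE', cls_biprod _ _, sub_mono hA (hA.ses_biprod hE hE') hx⟩

lemma finite_multisets {K : Type*} {S : Set K} (hS : S.Finite) (N : ℕ) :
    {s : Multiset K | (∀ x ∈ s, x ∈ S) ∧ s.card ≤ N}.Finite := by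
  classical
  set F : Finset K := hS.toFinset with hFdef
  refine (Set.finite_Iic (N • F.val)).subset ?_
  rintro s ⟨hs, hN⟩
  show s ≤ N • F.val
  rw [Multiset.le_iff_count]
  intro a
  by_cases ha : a ∈ s
  · have hmem : a ∈ F := by
      rw [hFdef, Set.Finite.mem_toFinset]
      exact hs a ha
    rw [Multiset.count_nsmul, Multiset.count_eq_one_of_mem F.nodup hmem, mul_one]
    exact (Multiset.count_le_card a s).trans hN
  · rw [Multiset.count_eq_zero_of_notMem ha]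
    exact Nat.zero_le _

lemma map_sum_apply (F : K0 C →+ ℝ) (L : Multiset C) :
    F ((L.map cls).sum) = (L.map (fun H => F (cls H))).sum := by
  induction L using Multiset.induction_on with
  | empty => simp
  | cons a l ih => simp [ih]

lemma Cfg.exists_obj (hA : AbSub A) {w : K0 C →+ ℝ} {c : K0 C} {L : Multiset C}
    (hL : Cfg A im w c L) : ∃ E, A E ∧ cls E = c ∧ ∀ H ∈ L, cls H ∈ Sub A E := by
  obtain ⟨E, h1, h2, h3⟩ := exists_sum_obj hA L (fun H hH => (hL.1 H hH).1.1)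
  exact ⟨E, h1, h2.trans hL.2, h3⟩

lemma FinCat.cfg_finite (h : FinCat A im) {w : K0 C →+ ℝ} {c : K0 C} (hfin : FinU A c) :
    {s : Multiset (K0 C) | ∃ L : Multiset C, Cfg A im w c L ∧ L.map cls = s}.Finite := by
  set S : Set (K0 C) := {x : K0 C | (∃ E, A E ∧ cls E = c ∧ x ∈ Sub A E) ∧ 0 < im x} with hS
  have hSfin : S.Finite := hfin.subset (fun x hx => hx.1)
  obtain ⟨ε, hε, hεS⟩ : ∃ ε : ℝ, 0 < ε ∧ ∀ x ∈ S, ε ≤ im x := by
    by_cases hne : S.Nonempty
    · obtain ⟨x, hx, hmin⟩ := Set.exists_min_image S (fun x => im x) hSfin hne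
      exact ⟨im x, hx.2, hmin⟩
    · exact ⟨1, one_pos, fun x hx => absurd ⟨x, hx⟩ hne⟩
  refine (finite_multisets hSfin ⌈im c / ε⌉₊).subset ?_
  rintro s ⟨L, hL, rfl⟩
  obtain ⟨E, hE, hEc, hsub⟩ := hL.exists_obj h.toAbSub
  have hmem : ∀ H ∈ L, cls H ∈ S := fun H hH =>
    ⟨⟨E, hE, hEc, hsub H hH⟩, h.pos H (hL.1 H hH).1.1 (hL.1 H hH).2⟩
  refine ⟨?_, ?_⟩
  · intro x hx
    obtain ⟨H, hH, rfl⟩ := Multiset.mem_map.1 hx
    exact hmem H hH
  · rw [Multiset.card_map]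
    have h1 : (L.card : ℝ) * ε ≤ im c := by
      rw [← hL.2, map_sum_apply]
      have h2 : ∀ x ∈ L.map (fun H => im (cls H)), ε ≤ x := by
        intro x hx
        obtain ⟨H, hH, rfl⟩ := Multiset.mem_map.1 hx
        exact hεS _ (hmem H hH)
      have h3 := Multiset.card_nsmul_le_sum h2
      rw [Multiset.card_map, nsmul_eq_mul] at h3
      exact h3
    have h2 : (L.card : ℝ) ≤ im c / ε := by rw [le_div_iff₀ hε]; exact h1
    exact_mod_cast h2.trans (Nat.le_ceil _)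

lemma FinCat.exists_min (h : FinCat A im) {w : K0 C →+ ℝ} {c : K0 C} (hfin : FinU A c)
    {P : Multiset C → Prop} (hP : ∀ L, P L → Cfg A im w c L) (hne : ∃ L, P L) :
    ∃ L, P L ∧ ∀ L', P L' → massL im w L ≤ massL im w L' ∧
      (massL im w L' = massL im w L → L.card ≤ L'.card) := by
  set T : Set (Multiset (K0 C)) := {s | ∃ L : Multiset C, P L ∧ L.map cls = s} with hT
  have hTfin : T.Finite := (h.cfg_finite (w := w) hfin).subset (by
    rintro s ⟨L, hL, hs⟩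
    exact ⟨L, hP L hL, hs⟩)
  have hTne : T.Nonempty := by
    obtain ⟨L, hL⟩ := hne
    exact ⟨_, L, hL, rfl⟩
  obtain ⟨s, ⟨L, hL, rfl⟩, hmin⟩ := Set.exists_min_image T
    (fun s => toLex ((s.map (fun x => w x ^ 2 / im x)).sum, s.card)) hTfin hTne
  have hm : ∀ L : Multiset C, ((L.map cls).map (fun x => w x ^ 2 / im x)).sum = massL im w L := by
    intro L
    rw [Multiset.map_map]
    rfl
  refine ⟨L, hL, ?_⟩
  intro L' hL'
  have h1 := hmin _ ⟨L', hL', rfl⟩
  rw [Prod.Lex.toLex_le_toLex] at h1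
  simp only [hm, Multiset.card_map] at h1
  rcases h1 with h1 | h1
  · exact ⟨h1.le, fun h2 => absurd h2 h1.ne'⟩
  · exact ⟨h1.1.le, fun _ => h1.2⟩

lemma sst_biprod (h : FinCat A im) {w : K0 C →+ ℝ} {X Y : C} (hX : SSt A im w X)
    (hY : SSt A im w Y) (hX0 : ¬ IsZero X) (hY0 : ¬ IsZero Y)
    (h0 : lin im w (cls X) (cls Y) = 0) : SSt A im w (X ⊞ Y) := by
  have hXpos := h.pos X hX.1 hX0
  have hYpos := h.pos Y hY.1 hY0
  have hY' : King A (lin im w (cls X)) Y := by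
    refine King.scale (l := lin im w (cls Y)) (r := im (cls X) / im (cls Y)) (by positivity) ?_ hY
    intro z
    exact lin_parallel hYpos (by rw [lin_anti, h0, neg_zero]) z
  have hXY : King A (lin im w (cls X)) (X ⊞ Y) :=
    (King.ab h.toAbSub (lin im w (cls X))).biprod_mem hX hY'
  refine King.scale (l := lin im w (cls X)) (r := im (cls (X ⊞ Y)) / im (cls X)) ?_ ?_ hXY
  · rw [cls_biprod, map_add]; positivity
  · intro z
    exact lin_parallel hXpos (by rw [cls_biprod, map_add, lin_self, h0, add_zero]) z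

lemma not_isZero_biprod {X Y : C} (hX : ¬ IsZero X) : ¬ IsZero (X ⊞ Y) := by
  intro h
  apply hX
  rw [IsZero.iff_id_eq_zero, ← biprod.inl_fst (X := X) (Y := Y), h.eq_of_tgt biprod.inl 0,
    zero_comp]

lemma simple_sst {w : K0 C →+ ℝ} {S : C} (hS : SimpleIn A S) :
    SSt A im w S := by
  refine ⟨hS.1, lin_self _ _ _, ?_⟩
  rintro x ⟨F, Q, f, g, hs, rfl⟩
  rcases (simpleIn_iff.1 hS).2.2 _ _ _ _ hs with h0 | h0
  · rw [cls_of_isZero h0, map_zero]
  · have := hs.cls_eq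
    rw [cls_of_isZero h0, add_zero] at this
    rw [← this, lin_self]

end

section Linear

variable {A : C → Prop} {im : K0 C →+ ℝ} [IsTriangulated C] [Linear ℂ C]
  [∀ n : ℤ, (shiftFunctor C n).Linear ℂ]

/-- The reduction step for a pair of semistable objects with a nonzero `Ext¹`. -/
lemma FinCat.step (h : FinCat A im) (hK : IsK3 C) {w : K0 C →+ ℝ} {X Y : C}
    (hX : SSt A im w X) (hY : SSt A im w Y) (hX0 : ¬ IsZero X) (hY0 : ¬ IsZero Y)
    (hne : lin im w (cls X) (cls Y) ≠ 0)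
    (hk : 0 < Module.finrank ℂ (X ⟶ Y⟦(1 : ℤ)⟧)) (E : C) :
    ∃ (G : C) (l : List C), HNo A im w G l ∧
      massL im w (l : Multiset C) < w (cls X) ^ 2 / im (cls X) + w (cls Y) ^ 2 / im (cls Y) ∧
      cls G = cls X + cls Y ∧ (Orth E G → Orth E X → Orth E Y) ∧
      (Orth E G → Orth E Y → Orth E X) ∧
      (1 < Module.finrank ℂ (X ⟶ Y⟦(1 : ℤ)⟧) → ¬ (Orth E X ∧ Orth E Y) → ¬ Orth E G) := by
  have key : ∀ {X Y : C}, SSt A im w X → SSt A im w Y → ¬ IsZero X → ¬ IsZero Y →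
      0 < lin im w (cls X) (cls Y) → 0 < Module.finrank ℂ (X ⟶ Y⟦(1 : ℤ)⟧) →
      ∃ (G : C) (l : List C), HNo A im w G l ∧
      massL im w (l : Multiset C) < w (cls X) ^ 2 / im (cls X) + w (cls Y) ^ 2 / im (cls Y) ∧
      cls G = cls X + cls Y ∧ (Orth E G → Orth E X → Orth E Y) ∧
      (Orth E G → Orth E Y → Orth E X) ∧
      (1 < Module.finrank ℂ (X ⟶ Y⟦(1 : ℤ)⟧) → ¬ (Orth E X ∧ Orth E Y) → ¬ Orth E G) := by
    intro X Y hX hY hX0 hY0 hlt hk
    obtain ⟨p, hp, hpen⟩ : ∃ p : X ⟶ Y⟦(1 : ℤ)⟧, p ≠ 0 ∧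
        (1 < Module.finrank ℂ (X ⟶ Y⟦(1 : ℤ)⟧) → ¬ (Orth E X ∧ Orth E Y) →
          ∀ (G : C) (a : Y ⟶ G) (b : G ⟶ X),
            Triangle.mk a b p ∈ distTriang C → ¬ Orth E G) := by
      by_cases hc : 1 < Module.finrank ℂ (X ⟶ Y⟦(1 : ℤ)⟧) ∧ ¬ (Orth E X ∧ Orth E Y)
      · obtain ⟨p, hp, hpp⟩ := exists_pencil hK hc.1 hc.2
        exact ⟨p, hp, fun _ _ => hpp⟩
      · obtain ⟨p, hp⟩ : ∃ p : X ⟶ Y⟦(1 : ℤ)⟧, p ≠ 0 := by
          have := hK.homFinite X (Y⟦(1 : ℤ)⟧)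
          exact Module.finrank_pos_iff_exists_ne_zero.1 hk
        exact ⟨p, hp, fun h1 h2 => absurd ⟨h1, h2⟩ hc⟩
    obtain ⟨G, a, b, hT⟩ := distinguished_cocone_triangle₂ p
    obtain ⟨l, hl, hm⟩ := strict_massL h hT hp hX hY hX0 hY0 hlt
    refine ⟨G, l, hl, hm, by rw [cls_mk hT, add_comm], ?_, ?_, ?_⟩
    · intro h1 h2
      exact Orth.first hT h1 h2
    · intro h1 h2
      exact Orth.third hT h2 h1
    · intro h1 h2
      exact hpen h1 h2 G a b hT
  rcases lt_or_gt_of_ne hne with h1 | h1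
  · have hk' : 0 < Module.finrank ℂ (Y ⟶ X⟦(1 : ℤ)⟧) := by rw [← finrank_ext_symm hK]; exact hk
    obtain ⟨G, l, g1, g2, g3, g4, g5, g6⟩ := key hY hX hY0 hX0
      (by rw [lin_anti]; linarith) hk'
    refine ⟨G, l, g1, by rw [add_comm]; exact g2, by rw [g3, add_comm], g5, g4, ?_⟩
    intro h2 h3
    exact g6 (by rw [← finrank_ext_symm hK]; exact h2) (fun h4 => h3 ⟨h4.2, h4.1⟩)
  · exact key hX hY hX0 hY0 h1 hk

lemma Cfg.replace {w : K0 C →+ ℝ} {c : K0 C} {X Y G : C} {L : Multiset C} {l : List C}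
    (hL : Cfg A im w c (X ::ₘ Y ::ₘ L)) (hG : HNo A im w G l) (hc : cls G = cls X + cls Y) :
    Cfg A im w c ((l : Multiset C) + L) := by
  refine ⟨?_, ?_⟩
  · intro H hH
    rcases Multiset.mem_add.1 hH with h1 | h1
    · exact hG.all H (by simpa using h1)
    · exact hL.1 H (by simp [h1])
  · rw [Multiset.map_add, Multiset.sum_add]
    have h1 : ((l : Multiset C).map cls).sum = cls G := by
      rw [hG.cls_eq]; simp
    rw [h1, hc, ← hL.2]
    simp [add_assoc]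

lemma Cfg.merge (h : FinCat A im) {w : K0 C →+ ℝ} {c : K0 C} {X Y : C} {L : Multiset C}
    (hL : Cfg A im w c (X ::ₘ Y ::ₘ L)) (h0 : lin im w (cls X) (cls Y) = 0) :
    Cfg A im w c ((X ⊞ Y) ::ₘ L) ∧
      massL im w ((X ⊞ Y) ::ₘ L) = massL im w (X ::ₘ Y ::ₘ L) := by
  have hX := hL.1 X (by simp)
  have hY := hL.1 Y (by simp)
  refine ⟨⟨?_, ?_⟩, ?_⟩
  · intro H hH
    rcases Multiset.mem_cons.1 hH with rfl | h1
    · exact ⟨sst_biprod h hX.1 hY.1 hX.2 hY.2 h0, not_isZero_biprod hX.2⟩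
    · exact hL.1 H (by simp [h1])
  · rw [← hL.2]
    simp [cls_biprod, add_assoc]
  · rw [massL_cons, massL_cons, massL_cons, cls_biprod,
      mass_parallel (h.pos X hX.1.1 hX.2) (h.pos Y hY.1.1 hY.2) h0]
    ring

/-- Pairs in a configuration of least mass. -/
lemma FinCat.min_pair (h : FinCat A im) (hK : IsK3 C) {w : K0 C →+ ℝ} {c : K0 C}
    {L : Multiset C} (hL : Cfg A im w c L)
    (hmin : ∀ L', Cfg A im w c L' → massL im w L ≤ massL im w L' ∧
      (massL im w L' = massL im w L → L.card ≤ L'.card)) {X Y : C} {L' : Multiset C}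
    (hXY : L = X ::ₘ Y ::ₘ L') :
    lin im w (cls X) (cls Y) ≠ 0 ∧ Module.finrank ℂ (X ⟶ Y⟦(1 : ℤ)⟧) = 0 ∧
      0 ≤ eulerForm hK (cls X) (cls Y) := by
  subst hXY
  have hX := hL.1 X (by simp)
  have hY := hL.1 Y (by simp)
  have h1 : lin im w (cls X) (cls Y) ≠ 0 := by
    intro h0
    obtain ⟨h2, h3⟩ := hL.merge h h0
    have h4 := (hmin _ h2).2 h3
    simp at h4
  have h2 : Module.finrank ℂ (X ⟶ Y⟦(1 : ℤ)⟧) = 0 := by
    by_contra hcon
    obtain ⟨G, l, g1, g2, g3, -⟩ := h.step hK hX.1 hY.1 hX.2 hY.2 h1 (Nat.pos_of_ne_zero hcon) X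
    have h4 := (hmin _ (hL.replace g1 g3)).1
    rw [massL_cons, massL_cons, massL_add] at h4
    linarith
  refine ⟨h1, h2, ?_⟩
  rw [h.toAbSub.eulerChar hK hX.1.1 hY.1.1, h2]
  simp only [Nat.cast_zero, sub_zero]
  positivity

end Linear

end Pool.Stab
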