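import Mathlib
import Pool.Agent.Work.MP_841263_r.Cfg

/-!
# Existence of semistable objects in real root classes: the local argument
-/

open CategoryTheory CategoryTheory.Limits CategoryTheory.Pretriangulated
open scoped ZeroObject

set_option backward.isDefEq.respectTransparency false
set_option backward.defeqAttrib.useBackward true
set_option linter.unusedSectionVars false

namespace Pool.Stab

universe v u

section Lattice

variable {K : Type*} [AddCommGroup K] {B : K →+ K →+ ℤ}

/-- Connectedness of a set of classes under the relation `B a b ≠ 0`. -/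
def Conn (B : K →+ K →+ ℤ) (R : Set K) : Prop :=
  ∀ J : Set K, J ⊆ R → J.Nonempty → (∀ a ∈ J, ∀ b ∈ R, b ∉ J → B a b = 0) → J = R

lemma form_sum_left (B : K →+ K →+ ℤ) (s : Multiset K) (y : K) :
    B s.sum y = (s.map (fun x => B x y)).sum := by
  induction s using Multiset.induction_on with
  | empty => simp
  | cons a s ih => simp [ih]

lemma all_zero_of_nonpos {ι : Type*} {f : ι → ℤ} (s : Multiset ι) (h : ∀ x ∈ s, f x ≤ 0)
    (h0 : (s.map f).sum = 0) : ∀ x ∈ s, f x = 0 := by
  induction s using Multiset.induction_on with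
  | empty => simp
  | cons a s ih =>
    rw [Multiset.map_cons, Multiset.sum_cons] at h0
    have h1 : (s.map f).sum ≤ 0 := by
      clear ih h0
      induction s using Multiset.induction_on with
      | empty => simp
      | cons b s ih =>
        rw [Multiset.map_cons, Multiset.sum_cons]
        have h2 := h b (by simp)
        have h3 := ih (fun x hx => h x (by
          rcases Multiset.mem_cons.1 hx with rfl | hx
          · simp
          · simp [hx]))
        linarith
    have h2 := h a (by simp)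
    have h3 := ih (fun x hx => h x (by simp [hx])) (by linarith)
    intro x hx
    rcases Multiset.mem_cons.1 hx with rfl | hx
    · linarith
    · exact h3 x hx

/-- Nonnegative combinations of simple roots lying in the radical have full support. -/
lemma full_support {R : Set K} (hR : OffDiag B R) (hconn : Conn B R) {s : Multiset K}
    (hs : ∀ x ∈ s, x ∈ R) (hne : s ≠ 0) (hrad : ∀ y, B s.sum y = 0) : ∀ a ∈ R, a ∈ s := by
  have h1 : {x | x ∈ s} = R := by
    refine hconn _ hs ?_ ?_
    · obtain ⟨x, hx⟩ := Multiset.exists_mem_of_ne_zero hne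
      exact ⟨x, hx⟩
    · intro a ha b hb hbJ
      have h2 := hrad b
      rw [form_sum_left] at h2
      refine all_zero_of_nonpos s ?_ h2 a ha
      intro x hx
      refine hR x (hs x hx) b hb ?_
      rintro rfl
      exact hbJ hx
  intro a ha
  rw [← h1] at ha
  exact ha

/-- Two nonnegative combinations in the radical are proportional. -/
lemma proportional {R : Set K} (hR : OffDiag B R) (hconn : Conn B R) {s s' : Multiset K}
    (hs : ∀ x ∈ s, x ∈ R) (hne : s ≠ 0) (hrad : ∀ y, B s.sum y = 0)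
    (hs' : ∀ x ∈ s', x ∈ R) (hne' : s' ≠ 0) (hrad' : ∀ y, B s'.sum y = 0) :
    ∃ N M : ℕ, 0 < N ∧ 0 < M ∧ N • s.sum = M • s'.sum := by
  classical
  have h1 := full_support hR hconn hs hne hrad
  have h2 := full_support hR hconn hs' hne' hrad'
  obtain ⟨x0, hx0⟩ := Multiset.exists_mem_of_ne_zero hne
  obtain ⟨a, ha, hmin⟩ := Finset.exists_min_image s.toFinset
    (fun x => (s'.count x : ℚ) / (s.count x : ℚ)) ⟨x0, Multiset.mem_toFinset.2 hx0⟩
  have ha' : a ∈ s := Multiset.mem_toFinset.1 ha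
  have hpos : 0 < s.count a := Multiset.count_pos.2 ha'
  have hpos' : 0 < s'.count a := Multiset.count_pos.2 (h2 a (hs a ha'))
  refine ⟨s'.count a, s.count a, hpos', hpos, ?_⟩
  have hle : (s'.count a) • s ≤ (s.count a) • s' := by
    rw [Multiset.le_iff_count]
    intro b
    rw [Multiset.count_nsmul, Multiset.count_nsmul]
    by_cases hb : b ∈ s
    · have h3 := hmin b (Multiset.mem_toFinset.2 hb)
      have hb' : 0 < s.count b := Multiset.count_pos.2 hb
      rw [div_le_div_iff₀ (by exact_mod_cast hpos) (by exact_mod_cast hb')] at h3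
      have h4 : s'.count a * s.count b ≤ s'.count b * s.count a := by exact_mod_cast h3
      rw [mul_comm (s.count a)]
      exact h4
    · rw [Multiset.count_eq_zero_of_notMem hb, mul_zero]
      exact Nat.zero_le _
  set D := (s.count a) • s' - (s'.count a) • s with hD
  have hDsum : (s.count a) • s' = D + (s'.count a) • s := (Multiset.sub_add_cancel hle).symm
  have hsum : (s.count a) • s'.sum = D.sum + (s'.count a) • s.sum := by
    rw [← Multiset.sum_nsmul, hDsum, Multiset.sum_add, Multiset.sum_nsmul]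
  have hD0 : D = 0 := by
    by_contra hD0
    have h5 : ∀ y, B D.sum y = 0 := by
      intro y
      have h6 : D.sum = (s.count a) • s'.sum - (s'.count a) • s.sum := by
        rw [hsum]; abel
      rw [h6, map_sub, AddMonoidHom.sub_apply, map_nsmul, map_nsmul, AddMonoidHom.coe_smul,
        Pi.smul_apply, AddMonoidHom.coe_smul, Pi.smul_apply, hrad, hrad']
      simp
    have h6 : ∀ x ∈ D, x ∈ R := by
      intro x hx
      have h7 : x ∈ (s.count a) • s' := by
        rw [hDsum]; exact Multiset.mem_add.2 (Or.inl hx)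
      have h8 : x ∈ s' := by
        rw [Multiset.mem_nsmul] at h7
        exact h7.2
      exact hs' x h8
    have h7 := full_support hR hconn h6 hD0 h5 a (hs a ha')
    have h8 : D.count a = 0 := by
      rw [hD, Multiset.count_sub, Multiset.count_nsmul, Multiset.count_nsmul, mul_comm]
      simp
    rw [Multiset.count_eq_zero] at h8
    exact h8 h7
  rw [hsum, hD0]
  simp

lemma exists_two {ι : Type*} {f : ι → ℤ} (s : Multiset ι) (h : ∀ x ∈ s, -1 ≤ f x)
    (hsum : (s.map f).sum ≤ -2) :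
    ∃ x y s', s = x ::ₘ y ::ₘ s' ∧ f x < 0 ∧ f y < 0 := by
  have key : ∀ s : Multiset ι, (s.map f).sum < 0 → ∃ x ∈ s, f x < 0 := by
    intro s hs
    by_contra hcon
    push Not at hcon
    have : 0 ≤ (s.map f).sum := by
      refine Multiset.sum_nonneg ?_
      intro r hr
      obtain ⟨x, hx, rfl⟩ := Multiset.mem_map.1 hr
      exact hcon x hx
    linarith
  obtain ⟨x, hx, hx0⟩ := key s (by linarith)
  obtain ⟨s1, rfl⟩ := Multiset.exists_cons_of_mem hx
  have h1 := h x (by simp)
  rw [Multiset.map_cons, Multiset.sum_cons] at hsum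
  obtain ⟨y, hy, hy0⟩ := key s1 (by linarith)
  obtain ⟨s2, rfl⟩ := Multiset.exists_cons_of_mem hy
  exact ⟨x, y, s2, rfl, hx0, hy0⟩

end Lattice

variable {C : Type u} [Category.{v} C] [Preadditive C] [HasZeroObject C] [HasShift C ℤ]
  [∀ n : ℤ, (shiftFunctor C n).Additive] [Pretriangulated C]

section Linear

variable {A : C → Prop} {im : K0 C →+ ℝ} [IsTriangulated C] [Linear ℂ C]
  [∀ n : ℤ, (shiftFunctor C n).Linear ℂ]

/-- **Witness lemma.** -/
lemma FinCat.witness (h : FinCat A im) (hK : IsK3 C) (hB : IsPSD (eulerForm hK))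
    (heven : ∀ x : K0 C, Even (eulerForm hK x x)) {w : K0 C →+ ℝ} {r : K0 C}
    (hfin : FinU A r) (hr : ∀ y, eulerForm hK r y = 0) {E : C}
    (hex : ∃ L, Cfg A im w r L ∧ ∃ H ∈ L, ¬ Orth E H) :
    ∃ (T : C) (L : Multiset C), Cfg A im w r (T ::ₘ L) ∧ ¬ Orth E T ∧
      eulerForm hK (cls T) (cls T) = 0 := by
  obtain ⟨L, ⟨hL, X, hXL, hXE⟩, hmin⟩ := h.exists_min (w := w) hfin
    (P := fun L => Cfg A im w r L ∧ ∃ H ∈ L, ¬ Orth E H) (fun L hL => hL.1) hex
  obtain ⟨L1, rfl⟩ := Multiset.exists_cons_of_mem hXL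
  refine ⟨X, L1, hL, hXE, ?_⟩
  by_contra hne
  have hX := hL.1 X (by simp)
  have hnn := hB.nonneg (cls X)
  obtain ⟨q, hq⟩ := heven (cls X)
  have h2 : 2 ≤ eulerForm hK (cls X) (cls X) := by omega
  have hsum : (L1.map (fun Y => eulerForm hK (cls X) (cls Y))).sum ≤ -2 := by
    have h3 : eulerForm hK (cls X) r = 0 := by rw [hB.symm]; exact hr _
    rw [← hL.2, Multiset.map_cons, Multiset.sum_cons, map_add] at h3
    have h4 : eulerForm hK (cls X) ((L1.map cls).sum) =
        (L1.map (fun Y => eulerForm hK (cls X) (cls Y))).sum := by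
      rw [hB.symm, form_sum_left, Multiset.map_map]
      congr 1
      refine Multiset.map_congr rfl ?_
      intro Y _
      exact hB.symm _ _
    rw [h4] at h3
    linarith
  -- what happens for an element with negative product
  have key : ∀ Y L2, L1 = Y ::ₘ L2 → eulerForm hK (cls X) (cls Y) < 0 →
      eulerForm hK (cls X) (cls Y) = -1 ∧ ¬ Orth E Y ∧ ∀ H ∈ L2, Orth E H := by
    intro Y L2 hY hneg
    subst hY
    have hY := hL.1 Y (by simp)
    have hlin : lin im w (cls X) (cls Y) ≠ 0 := by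
      intro h0
      obtain ⟨g1, g2⟩ := hL.merge h h0
      have g3 := (hmin _ ⟨g1, X ⊞ Y, by simp, fun ho => hXE ho.of_biprod_left⟩).2 g2
      simp at g3
    have hf := h.toAbSub.eulerChar hK hX.1.1 hY.1.1
    have hpos : 0 < Module.finrank ℂ (X ⟶ Y⟦(1 : ℤ)⟧) := by
      have e1 : (0 : ℤ) ≤ (Module.finrank ℂ (X ⟶ Y) : ℤ) := by positivity
      have e2 : (0 : ℤ) ≤ (Module.finrank ℂ (Y ⟶ X) : ℤ) := by positivity
      omega
    obtain ⟨G, l, g1, g2, g3, g4, g5, g6⟩ := h.step hK hX.1 hY.1 hX.2 hY.2 hlin hpos E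
    have hnew := hL.replace g1 g3
    have hmass : ¬ ∃ H ∈ (l : Multiset C) + L2, ¬ Orth E H := by
      intro hcon
      have := (hmin _ ⟨hnew, hcon⟩).1
      rw [massL_cons, massL_cons, massL_add] at this
      linarith
    push Not at hmass
    have hGo : Orth E G := by
      by_contra hcon
      obtain ⟨H, hH, hHo⟩ := exists_not_orth g1.gen hcon
      exact hHo (hmass H (by simp [hH]))
    refine ⟨?_, fun ho => hXE (g5 hGo ho), fun H hH => hmass H (by simp [hH])⟩
    have h1 : ¬ 1 < Module.finrank ℂ (X ⟶ Y⟦(1 : ℤ)⟧) := by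
      intro h1
      exact g6 h1 (fun h4 => hXE h4.1) hGo
    have e1 : (0 : ℤ) ≤ (Module.finrank ℂ (X ⟶ Y) : ℤ) := by positivity
    have e2 : (0 : ℤ) ≤ (Module.finrank ℂ (Y ⟶ X) : ℤ) := by positivity
    omega
  have hge : ∀ Y ∈ L1, -1 ≤ eulerForm hK (cls X) (cls Y) := by
    intro Y hY
    by_cases hneg : eulerForm hK (cls X) (cls Y) < 0
    · obtain ⟨L2, hL2⟩ := Multiset.exists_cons_of_mem hY
      exact (key Y L2 hL2 hneg).1.ge
    · omega
  obtain ⟨Y, Y', L3, hL3, hn1, hn2⟩ := exists_two L1 hge hsum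
  have k1 := (key Y (Y' ::ₘ L3) hL3 hn1).2.2 Y' (by simp)
  have k2 := (key Y' (Y ::ₘ L3) (by rw [hL3, Multiset.cons_swap]) hn2).2.1
  exact k2 k1

lemma gen_multiset {G : C → Prop} {X : C} (hX : Gen G X) :
    ∃ L : Multiset C, (∀ H ∈ L, G H) ∧ (L.map cls).sum = cls X ∧ Gen (fun H => H ∈ L) X := by
  induction hX with
  | zero h0 => exact ⟨0, by simp, by simp [cls_of_isZero h0], Gen.zero h0⟩
  | @of X hX => exact ⟨{X}, by simpa using hX, by simp, Gen.of (by simp)⟩
  | ext hT _ _ h1 h2 =>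
    obtain ⟨L1, a1, b1, c1⟩ := h1
    obtain ⟨L2, a2, b2, c2⟩ := h2
    refine ⟨L1 + L2, ?_, by rw [Multiset.map_add, Multiset.sum_add, b1, b2, cls_mk hT],
      Gen.ext hT (c1.mono (fun H hH => by simp [hH])) (c2.mono (fun H hH => by simp [hH]))⟩
    intro H hH
    rcases Multiset.mem_add.1 hH with h | h
    · exact a1 H h
    · exact a2 H h

/-- The setting of the local argument: a class `G` of pairwise non-orthogonally connected,
simple rigid objects generating `A`. -/
structure LocalSetting (hK : IsK3 C) (A : C → Prop) (im : K0 C →+ ℝ) (G : C → Prop) : Prop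
    extends FinCat A im where
  simple : ∀ S, G S → SimpleIn A S
  rigid : ∀ S, G S → Rigid S
  gen : ∀ X, A X → Gen G X
  conn : Conn (eulerForm hK) {x | ∃ S, G S ∧ cls S = x}

variable {G : C → Prop}

lemma LocalSetting.offDiag {hK : IsK3 C} (h : LocalSetting hK A im G) :
    OffDiag (eulerForm hK) {x | ∃ S, G S ∧ cls S = x} := by
  rintro _ ⟨S, hS, rfl⟩ _ ⟨T, hT, rfl⟩ hne
  have h1 := (h.toAbSub.simple_form_le hK (h.simple S hS) (h.simple T hT)
    (fun ⟨e⟩ => hne (cls_iso e))).1
  rw [h1]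
  have : (0 : ℤ) ≤ (Module.finrank ℂ (S ⟶ T⟦(1 : ℤ)⟧) : ℤ) := by positivity
  linarith

/-- The classes in the radical of nonzero objects are pairwise parallel. -/
lemma LocalSetting.parallel {hK : IsK3 C} (h : LocalSetting hK A im G) (w : K0 C →+ ℝ)
    {X Y : C} (hX : A X) (hY : A Y) (hX0 : ¬ IsZero X) (hY0 : ¬ IsZero Y)
    (hXr : ∀ y, eulerForm hK (cls X) y = 0) (hYr : ∀ y, eulerForm hK (cls Y) y = 0) :
    lin im w (cls X) (cls Y) = 0 := by
  obtain ⟨L, a1, b1, -⟩ := gen_multiset (h.gen X hX)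
  obtain ⟨L', a2, b2, -⟩ := gen_multiset (h.gen Y hY)
  have hXpos := h.pos X hX hX0
  have hYpos := h.pos Y hY hY0
  obtain ⟨N, M, hN, hM, hNM⟩ := proportional h.offDiag h.conn (s := L.map cls)
    (s' := L'.map cls)
    (by
      intro x hx
      obtain ⟨H, hH, rfl⟩ := Multiset.mem_map.1 hx
      exact ⟨H, a1 H hH, rfl⟩)
    (by
      intro h0
      rw [← b1, h0] at hXpos
      simp at hXpos)
    (by rw [b1]; exact hXr)
    (by
      intro x hx
      obtain ⟨H, hH, rfl⟩ := Multiset.mem_map.1 hx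
      exact ⟨H, a2 H hH, rfl⟩)
    (by
      intro h0
      rw [← b2, h0] at hYpos
      simp at hYpos)
    (by rw [b2]; exact hYr)
  rw [b1, b2] at hNM
  have e1 : (N : ℝ) * w (cls X) = M * w (cls Y) := by
    have := congrArg w hNM
    simpa using this
  have e2 : (N : ℝ) * im (cls X) = M * im (cls Y) := by
    have := congrArg im hNM
    simpa using this
  have hN' : (N : ℝ) ≠ 0 := by positivity
  have hM' : (M : ℝ) ≠ 0 := by positivity
  rw [lin_apply]
  have h3 : (N : ℝ) * (im (cls X) * w (cls Y) - w (cls X) * im (cls Y)) = 0 := by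
    linear_combination w (cls Y) * e2 - im (cls Y) * e1
  exact (mul_eq_zero.1 h3).resolve_left hN'

/-- Minimal configurations of a class in the radical, if radical classes are parallel. -/
lemma FinCat.rad_min (h : FinCat A im) (hK : IsK3 C) (hB : IsPSD (eulerForm hK))
    {w : K0 C →+ ℝ} {r : K0 C} (hfin : FinU A r) (hr : ∀ y, eulerForm hK r y = 0)
    (hex : ∃ L, Cfg A im w r L)
    (hpar : ∀ X Y, A X → A Y → ¬ IsZero X → ¬ IsZero Y →
      (∀ y, eulerForm hK (cls X) y = 0) → (∀ y, eulerForm hK (cls Y) y = 0) →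
      lin im w (cls X) (cls Y) = 0) :
    ∃ L, Cfg A im w r L ∧ L.card ≤ 1 ∧ ∀ H ∈ L, ∀ y, eulerForm hK (cls H) y = 0 := by
  obtain ⟨L, hL, hmin⟩ := h.exists_min (w := w) hfin (P := fun L => Cfg A im w r L)
    (fun L hL => hL) hex
  have hpair := fun (X Y : C) (L' : Multiset C) (hXY : L = X ::ₘ Y ::ₘ L') =>
    h.min_pair hK hL hmin hXY
  have hrad : ∀ X ∈ L, ∀ y, eulerForm hK (cls X) y = 0 := by
    intro X hX
    obtain ⟨L1, hL1⟩ := Multiset.exists_cons_of_mem hX
    have h1 : 0 ≤ eulerForm hK (cls X) ((L1.map cls).sum) := by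
      rw [hB.symm, form_sum_left]
      refine Multiset.sum_nonneg ?_
      intro z hz
      obtain ⟨y, hy, rfl⟩ := Multiset.mem_map.1 hz
      obtain ⟨Y, hY, rfl⟩ := Multiset.mem_map.1 hy
      obtain ⟨L2, hL2⟩ := Multiset.exists_cons_of_mem hY
      have := (hpair X Y L2 (by rw [hL1, hL2])).2.2
      rw [hB.symm] at this
      exact this
    have h2 : eulerForm hK (cls X) r = 0 := by rw [hB.symm]; exact hr _
    rw [← hL.2, hL1, Multiset.map_cons, Multiset.sum_cons, map_add] at h2
    have h3 := hB.nonneg (cls X)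
    have h4 : eulerForm hK (cls X) (cls X) = 0 := by linarith
    exact hB.mem_radical_of_self h4
  refine ⟨L, hL, ?_, hrad⟩
  by_contra hcard
  push Not at hcard
  obtain ⟨X, hX⟩ := Multiset.card_pos_iff_exists_mem.1 (by omega : 0 < L.card)
  obtain ⟨L1, hL1⟩ := Multiset.exists_cons_of_mem hX
  obtain ⟨Y, hY⟩ := Multiset.card_pos_iff_exists_mem.1 (by
    rw [hL1, Multiset.card_cons] at hcard
    omega : 0 < L1.card)
  obtain ⟨L2, hL2⟩ := Multiset.exists_cons_of_mem hY
  have hYL : Y ∈ L := by rw [hL1, hL2]; simp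
  refine (hpair X Y L2 (by rw [hL1, hL2])).1 ?_
  exact hpar X Y (hL.1 X hX).1.1 (hL.1 Y hYL).1.1 (hL.1 X hX).2 (hL.1 Y hYL).2 (hrad X hX)
    (hrad Y hYL)

/-- **The local existence theorem.** -/
theorem LocalSetting.core {hK : IsK3 C} (h : LocalSetting hK A im G)
    (hB : IsPSD (eulerForm hK)) (heven : ∀ x : K0 C, Even (eulerForm hK x x)) {c : K0 C}
    (hc : eulerForm hK c c = 2) (hex : ∃ E, A E ∧ cls E = c) (hfin : FinU A c)
    (w : K0 C →+ ℝ) : ∃ E, SSt A im w E ∧ cls E = c := by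
  have hcfg : ∃ L, Cfg A im w c L := by
    obtain ⟨E, hE, hEc⟩ := hex
    obtain ⟨l, hl⟩ := h.toFinCat.exists_HNo w E hE
    refine ⟨(l : Multiset C), fun H hH => hl.all H (by simpa using hH), ?_⟩
    rw [← hEc, hl.cls_eq]
    simp
  obtain ⟨L, hL, hmin⟩ := h.toFinCat.exists_min (w := w) hfin (P := fun L => Cfg A im w c L)
    (fun L hL => hL) hcfg
  have hpair := fun (X Y : C) (L' : Multiset C) (hXY : L = X ::ₘ Y ::ₘ L') =>
    h.toFinCat.min_pair hK hL hmin hXY
  -- an element which is not in the radical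
  obtain ⟨X, hXL, hX0⟩ : ∃ X ∈ L, eulerForm hK (cls X) (cls X) ≠ 0 := by
    by_contra hcon
    push Not at hcon
    have h1 : eulerForm hK ((L.map cls).sum) c = 0 := by
      rw [form_sum_left]
      refine Multiset.sum_eq_zero ?_
      intro z hz
      obtain ⟨y, hy, rfl⟩ := Multiset.mem_map.1 hz
      obtain ⟨Y, hY, rfl⟩ := Multiset.mem_map.1 hy
      exact hB.mem_radical_of_self (hcon Y hY) c
    rw [hL.2, hc] at h1
    norm_num at h1
  obtain ⟨L1, rfl⟩ := Multiset.exists_cons_of_mem hXL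
  have hX := hL.1 X hXL
  obtain ⟨q, hq⟩ := heven (cls X)
  have hnn := hB.nonneg (cls X)
  have hXr : ∀ Y ∈ L1, 0 ≤ eulerForm hK (cls X) (cls Y) := by
    intro Y hY
    obtain ⟨L2, hL2⟩ := Multiset.exists_cons_of_mem hY
    exact (hpair X Y L2 (by rw [hL2])).2.2
  have hXrest : eulerForm hK (cls X) ((L1.map cls).sum) =
      (L1.map (fun Y => eulerForm hK (cls X) (cls Y))).sum := by
    rw [hB.symm, form_sum_left, Multiset.map_map]
    congr 1
    refine Multiset.map_congr rfl ?_
    intro Y _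
    exact hB.symm _ _
  have hXrest0 : 0 ≤ eulerForm hK (cls X) ((L1.map cls).sum) := by
    rw [hXrest]
    refine Multiset.sum_nonneg ?_
    intro z hz
    obtain ⟨Y, hY, rfl⟩ := Multiset.mem_map.1 hz
    exact hXr Y hY
  have hcc : eulerForm hK c c = eulerForm hK (cls X) (cls X) +
      2 * eulerForm hK (cls X) ((L1.map cls).sum) +
      eulerForm hK ((L1.map cls).sum) ((L1.map cls).sum) := by
    have h1 : c = cls X + (L1.map cls).sum := by rw [← hL.2]; simp
    rw [h1]
    simp only [map_add, AddMonoidHom.add_apply]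
    rw [hB.symm ((L1.map cls).sum) (cls X)]
    ring
  have hrr := hB.nonneg ((L1.map cls).sum)
  have hrest0 : eulerForm hK ((L1.map cls).sum) ((L1.map cls).sum) = 0 := by omega
  have hrestrad : ∀ y, eulerForm hK ((L1.map cls).sum) y = 0 := hB.mem_radical_of_self hrest0
  by_cases hL10 : L1 = 0
  · refine ⟨X, hX.1, ?_⟩
    rw [← hL.2, hL10]
    simp
  exfalso
  -- the other elements are in the radical
  have hrad : ∀ Y ∈ L1, ∀ y, eulerForm hK (cls Y) y = 0 := by
    intro Y hY
    obtain ⟨L2, hL2⟩ := Multiset.exists_cons_of_mem hY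
    have h1 : 0 ≤ eulerForm hK (cls Y) ((L2.map cls).sum) := by
      rw [hB.symm, form_sum_left]
      refine Multiset.sum_nonneg ?_
      intro z hz
      obtain ⟨y, hy, rfl⟩ := Multiset.mem_map.1 hz
      obtain ⟨Z, hZ, rfl⟩ := Multiset.mem_map.1 hy
      obtain ⟨L3, hL3⟩ := Multiset.exists_cons_of_mem hZ
      have := (hpair Y Z (X ::ₘ L3) (by
        rw [hL2, hL3, Multiset.cons_swap, Multiset.cons_swap X Z])).2.2
      rw [hB.symm] at this
      exact this
    have h2 : eulerForm hK (cls Y) ((L1.map cls).sum) = 0 := by rw [hB.symm]; exact hrestrad _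
    rw [hL2, Multiset.map_cons, Multiset.sum_cons, map_add] at h2
    have h3 := hB.nonneg (cls Y)
    exact hB.mem_radical_of_self (by linarith)
  obtain ⟨T, hT⟩ := Multiset.exists_mem_of_ne_zero hL10
  obtain ⟨L2, rfl⟩ := Multiset.exists_cons_of_mem hT
  have hTs := hL.1 T (by simp)
  have hTr := hrad T (by simp)
  -- a simple object which is not orthogonal to `X`
  obtain ⟨S, hSG, hSX⟩ := exists_not_orth (h.gen X hX.1.1) (not_orth_self hX.2)
  obtain ⟨L0, a0, b0, -⟩ := gen_multiset (h.gen T hTs.1.1)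
  have hTpos := h.pos T hTs.1.1 hTs.2
  have hL0ne : L0.map cls ≠ 0 := by
    intro h0
    rw [← b0, h0] at hTpos
    simp at hTpos
  have hL0R : ∀ x ∈ L0.map cls, x ∈ {x | ∃ S, G S ∧ cls S = x} := by
    intro x hx
    obtain ⟨H, hH, rfl⟩ := Multiset.mem_map.1 hx
    exact ⟨H, a0 H hH, rfl⟩
  have hfull := full_support h.offDiag h.conn hL0R hL0ne (by rw [b0]; exact hTr) (cls S)
    ⟨S, hSG, rfl⟩
  obtain ⟨S', hS'L, hS'c⟩ := Multiset.mem_map.1 hfull
  obtain ⟨e⟩ := h.toAbSub.iso_of_cls hK (h.simple S hSG) (h.simple S' (a0 S' hS'L))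
    (h.rigid S hSG) hS'c.symm
  have hS'X : ¬ Orth X S' := fun ho => hSX (ho.iso e.symm)
  have hcfg0 : Cfg A im w (cls T) L0 :=
    ⟨fun H hH => ⟨simple_sst (h.simple H (a0 H hH)), (h.simple H (a0 H hH)).2.1⟩, b0⟩
  have hfinT : FinU A (cls T) := by
    obtain ⟨E', hE', hE'c, -⟩ := exists_sum_obj h.toAbSub (X ::ₘ L2) (by
      intro H hH
      refine (hL.1 H ?_).1.1
      rcases Multiset.mem_cons.1 hH with rfl | h1
      · simp
      · simp [h1])
    refine FinU.of_add h.toAbSub (b := (((X ::ₘ L2).map cls)).sum) ?_ ⟨E', hE', hE'c⟩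
    rw [← hL.2] at hfin
    have h1 : cls T + (Multiset.map cls (X ::ₘ L2)).sum =
        (Multiset.map cls (X ::ₘ T ::ₘ L2)).sum := by
      simp; abel
    rw [h1]
    exact hfin
  obtain ⟨T', L', hT'L', hT'X, hT'0⟩ := h.toFinCat.witness hK hB heven hfinT hTr (E := X)
    ⟨L0, hcfg0, S', hS'L, hS'X⟩
  have hT's := hT'L'.1 T' (by simp)
  have hT'r : ∀ y, eulerForm hK (cls T') y = 0 := hB.mem_radical_of_self hT'0
  set t'' : K0 C := (L'.map cls).sum with ht''
  have htt : cls T = cls T' + t'' := by rw [← hT'L'.2]; simp [ht'']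
  have ht''r : ∀ y, eulerForm hK t'' y = 0 := by
    intro y
    have h1 := hTr y
    rw [htt, map_add, AddMonoidHom.add_apply, hT'r y, zero_add] at h1
    exact h1
  have hcfg' : Cfg A im w t'' L' := ⟨fun H hH => hT'L'.1 H (by simp [hH]), rfl⟩
  have hfin'' : FinU A t'' := by
    refine FinU.of_add h.toAbSub (b := cls T') ?_ ⟨T', hT's.1.1, rfl⟩
    rw [add_comm, ← htt]
    exact hfinT
  obtain ⟨L'', hL'', hcard, hL''r⟩ := h.toFinCat.rad_min hK hB hfin'' ht''r ⟨L', hcfg'⟩
    (fun X Y hX hY hX0 hY0 h1 h2 => h.parallel w hX hY hX0 hY0 h1 h2)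
  have hT'pos := h.pos T' hT's.1.1 hT's.2
  have hmassT : w (cls T') ^ 2 / im (cls T') + massL im w L'' =
      w (cls T) ^ 2 / im (cls T) := by
    rcases Nat.le_one_iff_eq_zero_or_eq_one.1 hcard with h0 | h0
    · rw [Multiset.card_eq_zero] at h0
      have h1 := hL''.2
      rw [h0, Multiset.map_zero, Multiset.sum_zero] at h1
      rw [h0, htt, ← h1, add_zero]
      simp [massL]
    · obtain ⟨T2, hT2⟩ := Multiset.card_eq_one.1 h0
      have h1 := hL''.2
      rw [hT2, Multiset.map_singleton, Multiset.sum_singleton] at h1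
      have hT2s := hL''.1 T2 (by rw [hT2]; simp)
      have h2 : lin im w (cls T') (cls T2) = 0 :=
        h.parallel w hT's.1.1 hT2s.1.1 hT's.2 hT2s.2 hT'r (by rw [h1]; exact ht''r)
      rw [htt, ← h1, mass_parallel hT'pos (h.pos T2 hT2s.1.1 hT2s.2) h2, hT2]
      simp [massL]
  -- the new configuration
  have hnew : Cfg A im w c (X ::ₘ T' ::ₘ (L'' + L2)) := by
    refine ⟨?_, ?_⟩
    · intro H hH
      rcases Multiset.mem_cons.1 hH with rfl | h1
      · exact hX
      rcases Multiset.mem_cons.1 h1 with rfl | h2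
      · exact hT's
      rcases Multiset.mem_add.1 h2 with h3 | h3
      · exact hL''.1 H h3
      · exact hL.1 H (by simp [h3])
    · rw [← hL.2]
      simp only [Multiset.map_cons, Multiset.sum_cons, Multiset.map_add, Multiset.sum_add]
      rw [hL''.2, htt]
      abel
  have hXpos := h.pos X hX.1.1 hX.2
  have hlinXT : lin im w (cls X) (cls T) ≠ 0 := (hpair X T L2 rfl).1
  have hlin : lin im w (cls X) (cls T') ≠ 0 := by
    intro h0
    apply hlinXT
    have h1 := lin_trans im w (cls X) (cls T') (cls T)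
    rw [h0, h.parallel w hT's.1.1 hTs.1.1 hT's.2 hTs.2 hT'r hTr] at h1
    simp only [mul_zero, add_zero] at h1
    exact (mul_eq_zero.1 h1).resolve_left hT'pos.ne'
  have hform := h.toAbSub.eulerChar hK hX.1.1 hT's.1.1
  have hext : 0 < Module.finrank ℂ (X ⟶ T'⟦(1 : ℤ)⟧) := by
    rw [Nat.pos_iff_ne_zero]
    intro h0
    rw [h0, hB.symm, hT'r] at hform
    have e1 : Module.finrank ℂ (X ⟶ T') = 0 := by omega
    have e2 : Module.finrank ℂ (T' ⟶ X) = 0 := by omega
    exact hT'X (h.toAbSub.orth hK hX.1.1 hT's.1.1 (forall_zero_of_finrank hK e1)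
      (forall_zero_of_finrank hK h0) (forall_zero_of_finrank hK e2))
  obtain ⟨G', l, g1, g2, g3, -⟩ := h.toFinCat.step hK hX.1 hT's.1 hX.2 hT's.2 hlin hext X
  have h5 := (hmin _ (hnew.replace g1 g3)).1
  rw [massL_cons, massL_cons, massL_add, massL_add] at h5
  linarith

/-- The local existence theorem for classes in the radical. -/
theorem FinCat.core_rad (h : FinCat A im) (hK : IsK3 C) (hB : IsPSD (eulerForm hK))
    {w : K0 C →+ ℝ} {r : K0 C} (hfin : FinU A r) (hr : ∀ y, eulerForm hK r y = 0)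
    (hr0 : r ≠ 0) (hex : ∃ E, A E ∧ cls E = r)
    (hpar : ∀ X Y, A X → A Y → ¬ IsZero X → ¬ IsZero Y →
      (∀ y, eulerForm hK (cls X) y = 0) → (∀ y, eulerForm hK (cls Y) y = 0) →
      lin im w (cls X) (cls Y) = 0) : ∃ E, SSt A im w E ∧ cls E = r := by
  have hcfg : ∃ L, Cfg A im w r L := by
    obtain ⟨E, hE, hEc⟩ := hex
    obtain ⟨l, hl⟩ := h.exists_HNo w E hE
    refine ⟨(l : Multiset C), fun H hH => hl.all H (by simpa using hH), ?_⟩
    rw [← hEc, hl.cls_eq]
    simp
  obtain ⟨L, hL, hcard, -⟩ := h.rad_min hK hB hfin hr hcfg hpar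
  rcases Nat.le_one_iff_eq_zero_or_eq_one.1 hcard with h0 | h0
  · rw [Multiset.card_eq_zero] at h0
    have h1 := hL.2
    rw [h0, Multiset.map_zero, Multiset.sum_zero] at h1
    exact absurd h1.symm hr0
  · obtain ⟨T, hT⟩ := Multiset.card_eq_one.1 h0
    have h1 := hL.2
    rw [hT, Multiset.map_singleton, Multiset.sum_singleton] at h1
    exact ⟨T, (hL.1 T (by rw [hT]; simp)).1, h1⟩

end Linear

end Pool.Stab
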