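import Mathlib
import Pool.Agent.Work.MP_841263_st.Mass2
import Pool.Agent.Work.MP_841263_r.Core

/-!
# Bounds for objects which are semistable for a perturbed charge
-/

open CategoryTheory CategoryTheory.Limits CategoryTheory.Pretriangulated
open scoped ZeroObject

set_option backward.isDefEq.respectTransparency false
set_option backward.defeqAttrib.useBackward true
set_option linter.unusedSectionVars false

namespace Pool.Stab

universe v u

section nrm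

variable {K : Type*} [AddCommGroup K] [Module.Finite ℤ K] [Module.Free ℤ K]

/-- The norm of a functional with respect to a basis. -/
noncomputable def nrm (u : K →+ ℝ) : ℝ := ∑ i, |u (Module.Free.chooseBasis ℤ K i)|

lemma nrm_nonneg (u : K →+ ℝ) : 0 ≤ nrm u := Finset.sum_nonneg (fun _ _ => abs_nonneg _)

lemma nrm_add_le (u v : K →+ ℝ) : nrm (u + v) ≤ nrm u + nrm v := by
  rw [nrm, nrm, nrm, ← Finset.sum_add_distrib]
  exact Finset.sum_le_sum (fun i _ => abs_add_le _ _)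

lemma nrm_smul (s : ℝ) (u : K →+ ℝ) : nrm (s • u) = |s| * nrm u := by
  rw [nrm, nrm, Finset.mul_sum]
  exact Finset.sum_congr rfl (fun i _ => by rw [AddMonoidHom.smul_apply, smul_eq_mul, abs_mul])

lemma nrm_zero : nrm (0 : K →+ ℝ) = 0 := by simp [nrm]

lemma exists_nrm_bound (x : K) : ∃ c : ℝ, 0 ≤ c ∧ ∀ u : K →+ ℝ, |u x| ≤ c * nrm u := by
  set b := Module.Free.chooseBasis ℤ K with hb
  refine ⟨∑ i, |(b.repr x i : ℝ)|, Finset.sum_nonneg (fun _ _ => abs_nonneg _), ?_⟩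
  intro u
  have h1 : u x = ∑ i, (b.repr x i : ℝ) * u (b i) := by
    conv_lhs => rw [← b.sum_repr x]
    rw [map_sum]
    refine Finset.sum_congr rfl (fun i _ => ?_)
    rw [map_zsmul, zsmul_eq_mul]
  rw [h1, Finset.sum_mul]
  refine (Finset.abs_sum_le_sum_abs _ _).trans (Finset.sum_le_sum (fun i _ => ?_))
  rw [abs_mul]
  refine mul_le_mul_of_nonneg_left ?_ (abs_nonneg _)
  exact Finset.single_le_sum (f := fun i => |u (b i)|) (fun _ _ => abs_nonneg _)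
    (Finset.mem_univ i)

lemma exists_nrm_bound_set {S : Set K} (hS : S.Finite) :
    ∃ c : ℝ, 0 ≤ c ∧ ∀ x ∈ S, ∀ u : K →+ ℝ, |u x| ≤ c * nrm u := by
  choose c hc0 hc using fun x : K => exists_nrm_bound x
  refine ⟨∑ x ∈ hS.toFinset, c x, Finset.sum_nonneg (fun x _ => hc0 x), ?_⟩
  intro x hx u
  refine (hc x u).trans (mul_le_mul_of_nonneg_right ?_ (nrm_nonneg u))
  exact Finset.single_le_sum (f := c) (fun x _ => hc0 x) (by simpa using hx)

lemma finite_pos_lower {α : Type*} {S : Set α} (hS : S.Finite) (f : α → ℝ) :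
    ∃ e : ℝ, 0 < e ∧ ∀ x ∈ S, 0 < f x → e ≤ f x := by
  by_cases hne : {x ∈ S | 0 < f x}.Nonempty
  · obtain ⟨x, hx, hmin⟩ := Set.exists_min_image _ f (hS.subset (Set.sep_subset _ _)) hne
    exact ⟨f x, hx.2, fun y hy hpos => hmin y ⟨hy, hpos⟩⟩
  · exact ⟨1, one_pos, fun y hy hpos => absurd ⟨y, hy, hpos⟩ hne⟩

end nrm

variable {C : Type u} [Category.{v} C] [Preadditive C] [HasZeroObject C] [HasShift C ℤ]
  [∀ n : ℤ, (shiftFunctor C n).Additive] [Pretriangulated C]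

/-- There are no semistable objects of phase `t + 1`. -/
def StabCond.Gap (σ : StabCond C) (t : ℝ) : Prop := ∀ X, σ.sl.P (t + 1) X → IsZero X

lemma StabCond.Gap.im_pos {σ : StabCond C} {t : ℝ} (H : σ.Gap t) {X : C}
    (hX : σ.sl.Heart t X) (h0 : ¬ IsZero X) : 0 < σ.im t (cls X) :=
  lt_of_le_of_ne (σ.im_nonneg hX) (fun h => h0 (H X (σ.P_of_im hX h.symm)))

lemma lin_add_right (im w w' : K0 C →+ ℝ) (c x : K0 C) :
    lin im (w + w') c x = lin im w c x + lin im w' c x := by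
  simp only [lin_apply, AddMonoidHom.add_apply]; ring

lemma lin_smul_right (im w : K0 C →+ ℝ) (s : ℝ) (c x : K0 C) :
    lin im (s • w) c x = s * lin im w c x := by
  simp only [lin_apply, AddMonoidHom.smul_apply, smul_eq_mul]; ring

lemma exists_lin_bound [Module.Finite ℤ (K0 C)] [Module.Free ℤ (K0 C)] (im : K0 C →+ ℝ)
    (c : K0 C) {S : Set (K0 C)} (hS : S.Finite) :
    ∃ D : ℝ, 0 ≤ D ∧ ∀ x ∈ S, ∀ v : K0 C →+ ℝ, |lin im v c x| ≤ D * nrm v := by
  obtain ⟨D1, h1, h2⟩ := exists_nrm_bound_set hS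
  obtain ⟨D2, h3, h4⟩ := exists_nrm_bound c
  obtain ⟨M, hM⟩ : ∃ M : ℝ, ∀ x ∈ S, |im x| ≤ M := by
    refine ⟨∑ x ∈ hS.toFinset, |im x|, fun x hx => ?_⟩
    exact Finset.single_le_sum (f := fun x => |im x|) (fun x _ => abs_nonneg _)
      (by simpa using hx)
  refine ⟨|im c| * D1 + D2 * |M|, by positivity, ?_⟩
  intro x hx v
  have e1 := h2 x hx v
  have e2 := h4 v
  have e3 := (hM x hx).trans (le_abs_self M)
  rw [lin_apply]
  have hn := nrm_nonneg v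
  calc |im c * v x - v c * im x| ≤ |im c * v x| + |v c * im x| := abs_sub _ _
    _ = |im c| * |v x| + |v c| * |im x| := by rw [abs_mul, abs_mul]
    _ ≤ |im c| * (D1 * nrm v) + (D2 * nrm v) * |M| := by gcongr
    _ = (|im c| * D1 + D2 * |M|) * nrm v := by ring

/-- Phases near `t + 1`. -/
lemma StabCond.high_phase (σ : StabCond C) (t D : ℝ) : ∃ ψ : ℝ, t < ψ ∧ ψ < t + 1 ∧
    ∀ (φ : ℝ) (X : C), σ.sl.P φ X → ¬ IsZero X → ψ < φ → φ ≤ t + 1 →
      σ.re t (cls X) + 1 / 2 * ‖σ.Z (cls X)‖ + D * σ.im t (cls X) < 0 := by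
  have hpi := Real.pi_pos
  have hcont : Continuous (fun θ : ℝ => Real.cos θ + 1 / 2 + D * Real.sin θ) := by fun_prop
  have hneg : (fun θ : ℝ => Real.cos θ + 1 / 2 + D * Real.sin θ) Real.pi < 0 := by
    simp only [Real.cos_pi, Real.sin_pi, mul_zero]
    norm_num
  have hopen := (isOpen_Iio.preimage hcont).mem_nhds
    (show Real.pi ∈ (fun θ : ℝ => Real.cos θ + 1 / 2 + D * Real.sin θ) ⁻¹' Set.Iio 0 from hneg)
  obtain ⟨δ, hδ, hball⟩ := Metric.mem_nhds_iff.1 hopen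
  set m : ℝ := min (1 / 2) (δ / Real.pi) with hm
  have hm0 : 0 < m := lt_min (by norm_num) (by positivity)
  have hm1 : m ≤ 1 / 2 := min_le_left _ _
  have hm2 : m ≤ δ / Real.pi := min_le_right _ _
  refine ⟨t + 1 - m, by linarith, by linarith, ?_⟩
  intro φ X hX h0 h1 h2
  obtain ⟨hpos, hre, him⟩ := σ.polar t hX h0
  have h3 : Real.pi * (φ - t) ∈ Metric.ball Real.pi δ := by
    rw [Metric.mem_ball, Real.dist_eq]
    have h4 : Real.pi * (φ - t) - Real.pi = - (Real.pi * (t + 1 - φ)) := by ring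
    rw [h4, abs_neg, abs_of_nonneg (mul_nonneg hpi.le (by linarith))]
    calc Real.pi * (t + 1 - φ) < Real.pi * (δ / Real.pi) :=
          mul_lt_mul_of_pos_left (by linarith) hpi
      _ = δ := by field_simp
  have h5 : Real.cos (Real.pi * (φ - t)) + 1 / 2 + D * Real.sin (Real.pi * (φ - t)) < 0 :=
    hball h3
  rw [hre, him]
  have h6 := mul_neg_of_pos_of_neg hpos h5
  linarith

/-- Phases bounded away from `t + 1`. -/
lemma StabCond.low_phase (σ : StabCond C) {t ψ : ℝ} (h1 : t < ψ) (h2 : ψ < t + 1) :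
    ∃ T : ℝ, 0 ≤ T ∧ ∀ (φ : ℝ) (X : C), σ.sl.P φ X → t < φ → φ ≤ ψ →
      ‖σ.Z (cls X)‖ ≤ σ.re t (cls X) + T * σ.im t (cls X) := by
  have hpi := Real.pi_pos
  have hc : 0 < Real.cos (Real.pi * (ψ - t) / 2) :=
    Real.cos_pos_of_mem_Ioo ⟨by nlinarith, by nlinarith⟩
  refine ⟨1 / Real.cos (Real.pi * (ψ - t) / 2), by positivity, ?_⟩
  intro φ X hX h3 h4
  by_cases h0 : IsZero X
  · simp [cls_of_isZero h0]
  obtain ⟨hpos, hre, him⟩ := σ.polar t hX h0
  set h : ℝ := Real.pi * (φ - t) / 2 with hh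
  have hθ : Real.pi * (φ - t) = 2 * h := by rw [hh]; ring
  have hh0 : 0 < h := by rw [hh]; have : 0 < φ - t := by linarith
                         positivity
  have hhle : h ≤ Real.pi * (ψ - t) / 2 := by
    rw [hh]; nlinarith
  have hcos : Real.cos (Real.pi * (ψ - t) / 2) ≤ Real.cos h :=
    Real.cos_le_cos_of_nonneg_of_le_pi hh0.le (by nlinarith) hhle
  have hsin : 0 < Real.sin h := Real.sin_pos_of_pos_of_lt_pi hh0 (by nlinarith)
  have hsin1 := Real.sin_le_one h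
  have hT : 1 ≤ 1 / Real.cos (Real.pi * (ψ - t) / 2) * Real.cos h := by
    rw [one_div, ← div_eq_inv_mul, one_le_div hc]
    exact hcos
  have hkey : 1 ≤ Real.cos (2 * h) +
      1 / Real.cos (Real.pi * (ψ - t) / 2) * Real.sin (2 * h) := by
    rw [Real.cos_two_mul', Real.sin_two_mul]
    have h5 := Real.sin_sq_add_cos_sq h
    have h6 : Real.sin h * 1 ≤
        1 / Real.cos (Real.pi * (ψ - t) / 2) * Real.cos h * 1 := by nlinarith
    nlinarith [mul_le_mul_of_nonneg_left h6 hsin.le]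
  rw [hre, him, hθ]
  nlinarith [mul_le_mul_of_nonneg_left hkey hpos.le]

/-- The configuration of the HN factors and its mass. -/
lemma StabCond.exists_config_le (σ : StabCond C) {t ψ T D : ℝ} {u : K0 C →+ ℝ}
    (hlow : ∀ (φ : ℝ) (X : C), σ.sl.P φ X → t < φ → φ ≤ ψ →
      ‖σ.Z (cls X)‖ ≤ σ.re t (cls X) + T * σ.im t (cls X))
    (hu : ∀ (φ : ℝ) (X : C), σ.sl.P φ X → t < φ → φ ≤ t + 1 →
      |u (cls X)| ≤ 1 / 2 * ‖σ.Z (cls X)‖ + D * σ.im t (cls X))
    (hψ : ψ ≤ t + 1) {X : C} {l : List ℝ} (hX : HN σ.sl.P X l)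
    (hl : ∀ φ ∈ l, t < φ ∧ φ ≤ ψ) :
    ∃ s : Multiset (K0 C), (∀ x ∈ s, x ∈ σ.SS) ∧ s.sum = cls X ∧
      σ.mass s ≤ 2 * (σ.re t (cls X) + u (cls X)) + (2 * T + 2 * D) * σ.im t (cls X) := by
  induction hX with
  | zero h => exact ⟨0, by simp, by simp [cls_of_isZero h], by simp [cls_of_isZero h,
      StabCond.mass_zero]⟩
  | @step X Y A φ l hX hφ hA hA0 f g k hT ih =>
    obtain ⟨s, hs, hsum, hm⟩ := ih (fun χ hχ => hl χ (by simp [hχ]))
    obtain ⟨h1, h2⟩ := hl φ (by simp)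
    refine ⟨cls A ::ₘ s, ?_, ?_, ?_⟩
    · intro x hx
      rcases Multiset.mem_cons.1 hx with rfl | h
      · exact ⟨φ, A, hA, hA0, rfl⟩
      · exact hs x h
    · rw [Multiset.sum_cons, hsum, cls_mk hT, add_comm]
    · rw [StabCond.mass_cons, cls_mk hT]
      simp only [map_add]
      have h3 := hlow φ A hA h1 h2
      have h4 := neg_le_of_abs_le (hu φ A hA h1 (by linarith))
      linarith

section Linear

variable [Linear ℂ C] [∀ n : ℤ, (shiftFunctor C n).Linear ℂ]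
variable [Module.Finite ℤ (K0 C)] [Module.Free ℤ (K0 C)] [IsTriangulated C]

/-- Functionals which are bounded on the classes of small norm are small with respect to the
charge. -/
lemma StabCond.Gap.small_bound {σ : StabCond C} {t : ℝ} (H : σ.Gap t) (hK : IsK3 C) (U : ℝ) :
    ∃ D : ℝ, 0 ≤ D ∧ ∀ u : K0 C →+ ℝ, (∀ x, eulerForm hK x x ≤ 2 → |u x| ≤ U) →
      ∀ (φ : ℝ) (X : C), σ.sl.P φ X → t < φ → φ ≤ t + 1 →
        |u (cls X)| ≤ 1 / 2 * ‖σ.Z (cls X)‖ + D * σ.im t (cls X) := by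
  obtain ⟨e, he, hlow⟩ := finite_pos_lower (σ.finite_classes (2 * |U|)) (fun x => σ.im t x)
  refine ⟨|U| / e, by positivity, ?_⟩
  intro u hu φ X hX h1 h2
  rw [← σ.re_eq_norm hX]
  have hg := σ.gen_stable hX
  clear hX
  induction hg with
  | zero h => simp [cls_of_isZero h]
  | @of S h =>
    rw [σ.re_eq_norm h.1]
    have hS : SimpleIn (σ.sl.Heart (φ - 1)) S := StabCond.Stable.simple (by simpa using h)
    have hB2 := (σ.sl.heart_ab (φ - 1)).self_le' hK hS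
    have h3 := (hu _ hB2).trans (le_abs_self U)
    have hpos := H.im_pos (Slicing.heart_of_P h.1 h1 h2) h.2.1
    by_cases h4 : ‖σ.Z (cls S)‖ ≤ 2 * |U|
    · have h5 := hlow _ ⟨⟨φ, S, h.1, rfl⟩, h4⟩ hpos
      have h6 : |U| ≤ |U| / e * σ.im t (cls S) := by
        rw [div_mul_eq_mul_div, le_div_iff₀ he]
        exact mul_le_mul_of_nonneg_left h5 (abs_nonneg U)
      have := norm_nonneg (σ.Z (cls S))
      linarith
    · push Not at h4
      have h6 : 0 ≤ |U| / e * σ.im t (cls S) := by positivity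
      linarith
  | ext hT _ _ ih1 ih2 =>
    rw [cls_mk hT]
    simp only [map_add]
    have := abs_add_le (u (cls _)) (u (cls _)) |>.trans (add_le_add ih1 ih2)
    linarith

/-- Subobjects of objects with bounded phases. -/
lemma StabCond.sub_phases (σ : StabCond C) {t ψ : ℝ} {F E Q : C} {f : F ⟶ E} {g : E ⟶ Q}
    (hs : SES (σ.sl.Heart t) f g) (hE : σ.sl.In (Set.Ioi ψ)ᶜ E) : σ.sl.In (Set.Ioi ψ)ᶜ F := by
  classical
  have hab := σ.sl.heart_ab t
  obtain ⟨l, hl, hI⟩ := hs.1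
  obtain ⟨H₁, H₂, a, b, d, hT, hH₁, hH₂⟩ := hl.trunc (Set.Ioi ψ) (isUpperSet_Ioi _)
  have h1 : σ.sl.Heart t H₁ := ⟨_, hH₁, fun φ hφ => hI φ (List.mem_filter.1 hφ).1⟩
  have h2 : σ.sl.Heart t H₂ := ⟨_, hH₂, fun φ hφ => hI φ (List.mem_filter.1 hφ).1⟩
  have h3 : σ.sl.In (Set.Ioi ψ) H₁ :=
    ⟨_, hH₁, fun φ hφ => by simpa using (List.mem_filter.1 hφ).2⟩
  have h4 : σ.sl.In (Set.Ioi ψ)ᶜ H₂ :=
    ⟨_, hH₂, fun φ hφ => by simpa using (List.mem_filter.1 hφ).2⟩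
  have hs' : SES (σ.sl.Heart t) a b := ⟨h1, hs.1, h2, d, hT⟩
  have h5 : a ≫ f = 0 := h3.hom_zero hE (IsUpperSet.sep (isUpperSet_Ioi _)) _
  have h6 : a = 0 := hs.mono hab h1 a h5
  have h7 := isZero_of_SES_left hab hs' h6
  have := iso_of_isZero₁ hT h7
  exact h4.iso (asIso b).symm

lemma StabCond.high_sum (σ : StabCond C) {t ψ D K : ℝ} {u : K0 C →+ ℝ}
    (hhigh : ∀ (φ : ℝ) (X : C), σ.sl.P φ X → ¬ IsZero X → ψ < φ → φ ≤ t + 1 →
      σ.re t (cls X) + 1 / 2 * ‖σ.Z (cls X)‖ + (D + K) * σ.im t (cls X) < 0)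
    (hψ : t < ψ) (hu : ∀ (φ : ℝ) (X : C), σ.sl.P φ X → t < φ → φ ≤ t + 1 →
      |u (cls X)| ≤ 1 / 2 * ‖σ.Z (cls X)‖ + D * σ.im t (cls X)) {X : C} {l : List ℝ}
    (hX : HN σ.sl.P X l) (hl : ∀ φ ∈ l, ψ < φ ∧ φ ≤ t + 1) :
    σ.re t (cls X) + u (cls X) + K * σ.im t (cls X) ≤ 0 ∧
      (l ≠ [] → σ.re t (cls X) + u (cls X) + K * σ.im t (cls X) < 0) := by
  induction hX with
  | zero h => simp [cls_of_isZero h]
  | @step X Y A φ l hX hφ hA hA0 f g k hT ih =>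
    obtain ⟨h1, h2⟩ := hl φ (by simp)
    have h3 := (ih (fun χ hχ => hl χ (by simp [hχ]))).1
    have h4 := hhigh φ A hA hA0 h1 h2
    have h5 := le_of_abs_le (hu φ A hA (by linarith) h2)
    have h6 : σ.re t (cls Y) + u (cls Y) + K * σ.im t (cls Y) < 0 := by
      rw [cls_mk hT]
      simp only [map_add]
      linarith
    exact ⟨h6.le, fun _ => h6⟩

/-- Objects which are King semistable for a perturbed charge have bounded phases. -/
lemma StabCond.king_phases (σ : StabCond C) {t ψ D K : ℝ} {u : K0 C →+ ℝ} {c : K0 C}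
    (hc : 0 < σ.im t c)
    (hhigh : ∀ (φ : ℝ) (X : C), σ.sl.P φ X → ¬ IsZero X → ψ < φ → φ ≤ t + 1 →
      σ.re t (cls X) + 1 / 2 * ‖σ.Z (cls X)‖ + (D + K) * σ.im t (cls X) < 0)
    (hψ : t < ψ) (hu : ∀ (φ : ℝ) (X : C), σ.sl.P φ X → t < φ → φ ≤ t + 1 →
      |u (cls X)| ≤ 1 / 2 * ‖σ.Z (cls X)‖ + D * σ.im t (cls X))
    (hcK : -(σ.re t c + u c) ≤ K * σ.im t c) {E : C}
    (hE : King (σ.sl.Heart t) (lin (σ.im t) (σ.re t + u) c) E) :
    σ.sl.In (Set.Ioi ψ)ᶜ E := by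
  classical
  have hab := σ.sl.heart_ab t
  obtain ⟨hE1, hE2, hE3⟩ := hE
  obtain ⟨l, hl, hI⟩ := hE1
  obtain ⟨H₁, H₂, a, b, d, hT, hH₁, hH₂⟩ := hl.trunc (Set.Ioi ψ) (isUpperSet_Ioi _)
  have h1 : σ.sl.Heart t H₁ := ⟨_, hH₁, fun φ hφ => hI φ (List.mem_filter.1 hφ).1⟩
  have h2 : σ.sl.Heart t H₂ := ⟨_, hH₂, fun φ hφ => hI φ (List.mem_filter.1 hφ).1⟩
  have hs' : SES (σ.sl.Heart t) a b := ⟨h1, ⟨l, hl, hI⟩, h2, d, hT⟩
  have h3 := hE3 _ hs'.left_mem
  obtain ⟨-, h5⟩ := σ.high_sum hhigh hψ hu hH₁ (by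
    intro φ hφ
    obtain ⟨h6, h7⟩ := List.mem_filter.1 hφ
    exact ⟨by simpa using h7, (hI φ h6).2⟩)
  have h4 : σ.sl.In (Set.Ioi ψ)ᶜ H₂ :=
    ⟨_, hH₂, fun φ hφ => by simpa using (List.mem_filter.1 hφ).2⟩
  by_cases hnil : l.filter (· ∈ Set.Ioi ψ) = []
  · rw [hnil] at hH₁
    have hz : IsZero H₁ := by
      cases hH₁ with
      | zero h => exact h
    have := iso_of_isZero₁ hT hz
    exact h4.iso (asIso b).symm
  · exfalso
    have h6 := h5 hnil
    rw [lin_apply, AddMonoidHom.add_apply, AddMonoidHom.add_apply] at h3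
    have h7 := σ.im_nonneg h1
    have h8 : σ.im t c * (σ.re t (cls H₁) + u (cls H₁) + K * σ.im t (cls H₁)) < 0 :=
      mul_neg_of_pos_of_neg hc h6
    nlinarith [mul_le_mul_of_nonneg_right hcK h7]

end Linear

end Pool.Stab
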