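import Mathlib
import Pool.Agent.Work.MP_841263_r.Bound

/-!
# Small deformations of the charge
-/

open CategoryTheory CategoryTheory.Limits CategoryTheory.Pretriangulated
open scoped ZeroObject

set_option backward.isDefEq.respectTransparency false
set_option backward.defeqAttrib.useBackward true
set_option linter.unusedSectionVars false

namespace Pool.Stab

universe v u

variable {C : Type u} [Category.{v} C] [Preadditive C] [HasZeroObject C] [HasShift C ℤ]
  [∀ n : ℤ, (shiftFunctor C n).Additive] [Pretriangulated C]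
variable [Linear ℂ C] [∀ n : ℤ, (shiftFunctor C n).Linear ℂ]

/-- Functionals with bounded values on the classes of small norm and on `c`. -/
def Adm (hK : IsK3 C) (U : ℝ) (c : K0 C) (u : K0 C →+ ℝ) : Prop :=
  (∀ x, eulerForm hK x x ≤ 2 → |u x| ≤ U) ∧ |u c| ≤ U

/-- Functionals vanishing on the radical. -/
def VanRad (hK : IsK3 C) (u : K0 C →+ ℝ) : Prop :=
  ∀ x, (∀ y, eulerForm hK x y = 0) → u x = 0

lemma VanRad.zero (hK : IsK3 C) : VanRad hK 0 := fun _ _ => rfl

lemma VanRad.add {hK : IsK3 C} {u v : K0 C →+ ℝ} (hu : VanRad hK u) (hv : VanRad hK v) :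
    VanRad hK (u + v) := by
  intro x hx
  rw [AddMonoidHom.add_apply, hu x hx, hv x hx, add_zero]

lemma VanRad.smul {hK : IsK3 C} {u : K0 C →+ ℝ} (hu : VanRad hK u) (s : ℝ) :
    VanRad hK (s • u) := by
  intro x hx
  rw [AddMonoidHom.smul_apply, hu x hx, smul_zero]

lemma VanRad.sub {hK : IsK3 C} {u v : K0 C →+ ℝ} (hu : VanRad hK u) (hv : VanRad hK v) :
    VanRad hK (u - v) := by
  intro x hx
  rw [AddMonoidHom.sub_apply, hu x hx, hv x hx, sub_zero]

/-- The functional `B(y, ·)`. -/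
noncomputable def evB (hK : IsK3 C) (y : K0 C) : K0 C →+ ℝ :=
  (Int.castAddHom ℝ).comp (eulerForm hK y)

lemma evB_apply (hK : IsK3 C) (y x : K0 C) : evB hK y x = (eulerForm hK y x : ℝ) := rfl

lemma evB_van (hK : IsK3 C) (y : K0 C) : VanRad hK (evB hK y) := by
  intro x hx
  rw [evB_apply, eulerForm_symm hK y x, hx y, Int.cast_zero]

lemma King_eq {A : C → Prop} {im w : K0 C →+ ℝ} {x y : K0 C} (hx : 0 < im x) (hy : 0 < im y)
    (h : lin im w x y = 0) : King A (lin im w x) = King A (lin im w y) := by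
  funext E
  refine propext ⟨?_, ?_⟩
  · intro hE
    exact King.scale (r := im y / im x) (by positivity) (lin_parallel hx h) hE
  · intro hE
    exact King.scale (r := im x / im y) (by positivity)
      (lin_parallel hy (by rw [lin_anti, h, neg_zero])) hE

variable [Module.Finite ℤ (K0 C)] [Module.Free ℤ (K0 C)]

lemma exists_van_bound (hK : IsK3 C) (hB : IsPSD (eulerForm hK)) :
    ∃ M : ℝ, 0 ≤ M ∧ ∀ u : K0 C →+ ℝ, VanRad hK u → ∀ x, eulerForm hK x x ≤ 2 →
      |u x| ≤ M * nrm u := by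
  obtain ⟨F, hF⟩ := hB.finite_mod_radical 2
  obtain ⟨M, hM0, hM⟩ := exists_nrm_bound_set F.finite_toSet
  refine ⟨M, hM0, ?_⟩
  intro u hu x hx
  obtain ⟨f, hf, hxf⟩ := hF x hx
  have h1 : u x = u f := by
    have := hu (x - f) hxf
    rw [map_sub] at this
    linarith
  rw [h1]
  exact hM f (by simpa using hf) u

lemma exists_adm (hK : IsK3 C) (hB : IsPSD (eulerForm hK)) (R : ℝ) (c : K0 C) :
    ∃ U : ℝ, ∀ u : K0 C →+ ℝ, VanRad hK u → nrm u ≤ R → Adm hK U c u := by
  obtain ⟨M, hM0, hM⟩ := exists_van_bound hK hB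
  obtain ⟨M', hM'0, hM'⟩ := exists_nrm_bound c
  refine ⟨max (M * R) (M' * R), fun u hu hR => ⟨fun x hx => ?_, ?_⟩⟩
  · exact ((hM u hu x hx).trans (mul_le_mul_of_nonneg_left hR hM0)).trans (le_max_left _ _)
  · exact ((hM' u).trans (mul_le_mul_of_nonneg_left hR hM'0)).trans (le_max_right _ _)

variable [IsTriangulated C]

/-- The classes of destabilising subobjects. -/
def StabCond.FS (σ : StabCond C) (t : ℝ) (hK : IsK3 C) (U : ℝ) (c : K0 C) : Set (K0 C) :=
  {x : K0 C | ∃ (E : C) (u u' : K0 C →+ ℝ), Adm hK U c u ∧ Adm hK U c u' ∧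
    King (σ.sl.Heart t) (lin (σ.im t) (σ.re t + u) c) E ∧ cls E = c ∧
    x ∈ Sub (σ.sl.Heart t) E ∧ lin (σ.im t) (σ.re t + u') c x ≤ 0}

lemma StabCond.Gap.finite_FS {σ : StabCond C} {t : ℝ} (H : σ.Gap t) (hK : IsK3 C) {c : K0 C}
    (hc : 0 < σ.im t c) (U : ℝ) : (σ.FS t hK U c).Finite := by
  obtain ⟨D, hD0, hD⟩ := H.small_bound hK U
  set K : ℝ := (|σ.re t c| + |U|) / σ.im t c with hKdef
  obtain ⟨ψ, h1, h2, hhigh⟩ := σ.high_phase t (D + K)
  obtain ⟨T, hT0, hT⟩ := σ.low_phase h1 h2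
  set M : ℝ := 2 * (|σ.re t c| + |U|) + (2 * T + 2 * D) * σ.im t c with hM
  refine ((σ.finite_configs M).image Multiset.sum).subset ?_
  rintro x ⟨E, u, u', hu, hu', hE, hEc, ⟨F, Q, f, g, hs, rfl⟩, hle⟩
  have hcK : -(σ.re t c + u c) ≤ K * σ.im t c := by
    rw [hKdef, div_mul_cancel₀ _ hc.ne']
    have e1 := neg_abs_le (σ.re t c)
    have e2 := neg_abs_le (u c)
    have e3 := hu.2.trans (le_abs_self U)
    linarith
  have hphE := σ.king_phases hc hhigh h1 (hD u hu.1) hcK hE
  have hphF := σ.sub_phases hs hphE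
  obtain ⟨l, hl, hI⟩ := hs.1
  have hl2 := hl.mem_lower (isUpperSet_Ioi ψ) hphF
  obtain ⟨s, hs1, hs2, hs3⟩ := σ.exists_config_le hT (hD u' hu'.1) h2.le hl
    (fun φ hφ => ⟨(hI φ hφ).1, not_lt.1 (hl2 φ hφ)⟩)
  refine ⟨s, ⟨hs1, ?_⟩, hs2⟩
  have hF0 := σ.im_nonneg hs.1
  have hQ0 := σ.im_nonneg hs.2.2.1
  have hFc : σ.im t (cls F) ≤ σ.im t c := by
    rw [← hEc, hs.cls_eq, map_add]; linarith
  rw [lin_apply, AddMonoidHom.add_apply, AddMonoidHom.add_apply] at hle
  have hR : σ.re t (cls F) + u' (cls F) ≤ |σ.re t c| + |U| := by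
    have e1 := le_abs_self (σ.re t c)
    have e2 := (le_abs_self (u' c)).trans (hu'.2.trans (le_abs_self U))
    have e3 : (σ.re t c + u' c) * σ.im t (cls F) ≤ (|σ.re t c| + |U|) * σ.im t c := by
      calc (σ.re t c + u' c) * σ.im t (cls F) ≤ (|σ.re t c| + |U|) * σ.im t (cls F) :=
            mul_le_mul_of_nonneg_right (by linarith) hF0
        _ ≤ (|σ.re t c| + |U|) * σ.im t c := mul_le_mul_of_nonneg_left hFc (by positivity)
    have e4 : σ.im t c * (σ.re t (cls F) + u' (cls F)) ≤ σ.im t c * (|σ.re t c| + |U|) := by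
      linarith
    exact le_of_mul_le_mul_left e4 hc
  have e5 : (2 * T + 2 * D) * σ.im t (cls F) ≤ (2 * T + 2 * D) * σ.im t c :=
    mul_le_mul_of_nonneg_left hFc (by positivity)
  rw [hM]
  linarith

lemma StabCond.Gap.finCat {σ : StabCond C} {t : ℝ} (H : σ.Gap t) (hK : IsK3 C)
    (hB : IsPSD (eulerForm hK)) {c : K0 C} (hc : 0 < σ.im t c) {u : K0 C →+ ℝ}
    (hu : VanRad hK u) :
    FinCat (King (σ.sl.Heart t) (lin (σ.im t) (σ.re t + u) c)) (σ.im t) where
  toAbSub := King.ab (σ.sl.heart_ab t) _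
  pos := fun X hX h0 => H.im_pos hX.1 h0
  fin := by
    intro X hX
    have hab := σ.sl.heart_ab t
    by_cases h0 : IsZero X
    · refine (Set.finite_singleton (0 : K0 C)).subset ?_
      intro x hx
      exact sub_of_isZero (King.ab hab _) h0 hx
    · have hXpos := H.im_pos hX.1 h0
      obtain ⟨U, hU⟩ := exists_adm hK hB (nrm u) (cls X)
      refine (H.finite_FS hK hXpos U).subset ?_
      rintro x ⟨F, Q, f, g, hs, rfl⟩
      have hXl := hX.2.1
      refine ⟨X, u, u, hU u hu le_rfl, hU u hu le_rfl, ?_, rfl, ?_, ?_⟩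
      · rw [← King_eq hc hXpos hXl]
        exact hX
      · exact ⟨F, Q, f, g, hs.of_le hs.1.1 hs.2.1.1 hs.2.2.1.1, rfl⟩
      · rw [lin_parallel hc hXl, hs.1.2.1, mul_zero]

lemma StabCond.Gap.finU {σ : StabCond C} {t : ℝ} (H : σ.Gap t) (hK : IsK3 C)
    (hB : IsPSD (eulerForm hK)) {c : K0 C} (hc : 0 < σ.im t c) {u : K0 C →+ ℝ}
    (hu : VanRad hK u) : FinU (King (σ.sl.Heart t) (lin (σ.im t) (σ.re t + u) c)) c := by
  obtain ⟨U, hU⟩ := exists_adm hK hB (nrm u) c
  refine (H.finite_FS hK hc U).subset ?_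
  rintro x ⟨E, hE, hEc, F, Q, f, g, hs, rfl⟩
  exact ⟨E, u, u, hU u hu le_rfl, hU u hu le_rfl, hE, hEc,
    ⟨F, Q, f, g, hs.of_le hs.1.1 hs.2.1.1 hs.2.2.1.1, rfl⟩, hs.1.2.1.le⟩

/-- Semistability is a closed condition. -/
lemma StabCond.Gap.closed {σ : StabCond C} {t : ℝ} (H : σ.Gap t) (hK : IsK3 C)
    (hB : IsPSD (eulerForm hK)) {c : K0 C} (hc : 0 < σ.im t c) {u : K0 C →+ ℝ}
    (hu : VanRad hK u) : ∃ δ : ℝ, 0 < δ ∧ ∀ u' : K0 C →+ ℝ, VanRad hK u' → nrm (u' - u) < δ →
      ∀ E, King (σ.sl.Heart t) (lin (σ.im t) (σ.re t + u') c) E → cls E = c →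
        King (σ.sl.Heart t) (lin (σ.im t) (σ.re t + u) c) E := by
  obtain ⟨U, hU⟩ := exists_adm hK hB (nrm u + 1) c
  have hfin := H.finite_FS hK hc U
  obtain ⟨e, he, hlow⟩ := finite_pos_lower hfin
    (fun x => - lin (σ.im t) (σ.re t + u) c x)
  obtain ⟨D, hD0, hD⟩ := exists_lin_bound (σ.im t) c hfin
  refine ⟨min 1 (e / (D + 1)), lt_min one_pos (by positivity), ?_⟩
  intro u' hu' hlt E hE hEc
  have hlt1 : nrm (u' - u) ≤ 1 := (hlt.trans_le (min_le_left _ _)).le
  have hlt2 : nrm (u' - u) < e / (D + 1) := hlt.trans_le (min_le_right _ _)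
  have hn : nrm u' ≤ nrm u + 1 := by
    have h1 := nrm_add_le u (u' - u)
    have h2 : u + (u' - u) = u' := by abel
    rw [h2] at h1
    linarith
  refine ⟨hE.1, by rw [hEc, lin_self], ?_⟩
  intro x hx
  by_contra hcon
  push Not at hcon
  have hxFS : x ∈ σ.FS t hK U c := ⟨E, u', u, hU u' hu' hn,
    hU u hu (by linarith), hE, hEc, hx, hcon.le⟩
  have h1 := hlow x hxFS (by linarith)
  have h2 := hE.2.2 x hx
  have h3 := hD x hxFS (u' - u)
  have h4 : lin (σ.im t) (σ.re t + u') c x =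
      lin (σ.im t) (σ.re t + u) c x + lin (σ.im t) (u' - u) c x := by
    rw [← lin_add_right]
    congr 1
    abel_nf
  have h5 := le_of_abs_le h3
  have h6 : D * nrm (u' - u) < e := by
    have h7 : nrm (u' - u) * (D + 1) < e := by rwa [lt_div_iff₀ (by positivity)] at hlt2
    have := nrm_nonneg (u' - u)
    linarith
  linarith

/-- Semistability for nearby charges can be tested on the subobjects of the same phase. -/
lemma StabCond.Gap.near {σ : StabCond C} {t : ℝ} (H : σ.Gap t) (hK : IsK3 C)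
    (hB : IsPSD (eulerForm hK)) {c : K0 C} (hc : 0 < σ.im t c) {u : K0 C →+ ℝ}
    (hu : VanRad hK u) : ∃ δ : ℝ, 0 < δ ∧ ∀ u' : K0 C →+ ℝ, VanRad hK u' → nrm (u' - u) < δ →
      ∀ E, King (σ.sl.Heart t) (lin (σ.im t) (σ.re t + u) c) E → cls E = c →
        (∀ x ∈ Sub (King (σ.sl.Heart t) (lin (σ.im t) (σ.re t + u) c)) E,
          0 ≤ lin (σ.im t) (σ.re t + u') c x) →
        King (σ.sl.Heart t) (lin (σ.im t) (σ.re t + u') c) E := by
  obtain ⟨U, hU⟩ := exists_adm hK hB (nrm u + 1) c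
  have hfin := H.finite_FS hK hc U
  obtain ⟨e, he, hlow⟩ := finite_pos_lower hfin
    (fun x => lin (σ.im t) (σ.re t + u) c x)
  obtain ⟨D, hD0, hD⟩ := exists_lin_bound (σ.im t) c hfin
  refine ⟨min 1 (e / (D + 1)), lt_min one_pos (by positivity), ?_⟩
  intro u' hu' hlt E hE hEc hsub
  have hlt1 : nrm (u' - u) ≤ 1 := (hlt.trans_le (min_le_left _ _)).le
  have hlt2 : nrm (u' - u) < e / (D + 1) := hlt.trans_le (min_le_right _ _)
  have hn : nrm u' ≤ nrm u + 1 := by
    have h1 := nrm_add_le u (u' - u)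
    have h2 : u + (u' - u) = u' := by abel
    rw [h2] at h1
    linarith
  refine ⟨hE.1, by rw [hEc, lin_self], ?_⟩
  intro x hx
  by_contra hcon
  push Not at hcon
  have hxFS : x ∈ σ.FS t hK U c := ⟨E, u, u', hU u hu (by linarith), hU u' hu' hn, hE, hEc, hx,
    hcon.le⟩
  have h0 := hE.2.2 x hx
  rcases h0.lt_or_eq with h0 | h0
  · have h1 := hlow x hxFS h0
    have h3 := hD x hxFS (u' - u)
    have h4 : lin (σ.im t) (σ.re t + u') c x =
        lin (σ.im t) (σ.re t + u) c x + lin (σ.im t) (u' - u) c x := by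
      rw [← lin_add_right]
      congr 1
      abel_nf
    have h5 := neg_le_of_abs_le h3
    have h6 : D * nrm (u' - u) < e := by
      have h7 : nrm (u' - u) * (D + 1) < e := by rwa [lt_div_iff₀ (by positivity)] at hlt2
      have := nrm_nonneg (u' - u)
      linarith
    linarith
  · obtain ⟨F, Q, f, g, hs, rfl⟩ := hx
    have h1 := King.sub (σ.sl.heart_ab t) hs hE h0.symm
    have h2 := hsub _ h1.left_mem
    linarith

/-- A functional which separates `c` from finitely many classes of smaller imaginary part. -/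
lemma exists_generic {hK : IsK3 C} (hB : IsPSD (eulerForm hK))
    (heven : ∀ x : K0 C, Even (eulerForm hK x x)) {im : K0 C →+ ℝ} {c : K0 C} (hc : 0 < im c)
    (hcc : eulerForm hK c c = 2) {S : Set (K0 C)} (hS : S.Finite)
    (hS' : ∀ x ∈ S, 0 < im x ∧ im x < im c) :
    ∃ v : K0 C →+ ℝ, VanRad hK v ∧ ∀ x ∈ S, lin im v c x ≠ 0 := by
  have hone : ∀ x : K0 C, 0 < im x → im x < im c →
      ∃ w : K0 C →+ ℝ, VanRad hK w ∧ lin im w c x ≠ 0 := by
    intro x h1 h2
    by_contra hcon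
    push Not at hcon
    have e1 := hcon (evB hK c) (evB_van hK c)
    have e2 := hcon (evB hK x) (evB_van hK x)
    rw [lin_apply, evB_apply, evB_apply, hcc] at e1
    rw [lin_apply, evB_apply, evB_apply, eulerForm_symm hK x c] at e2
    push_cast at e1
    set p : ℤ := eulerForm hK c x with hp
    set q : ℤ := eulerForm hK x x with hq
    have e3 : im c ^ 2 * (q : ℝ) = 2 * im x ^ 2 := by
      have h3 : im c * (im c * (q : ℝ)) = im c * ((p : ℝ) * im x) := by
        have : im c * (q : ℝ) = (p : ℝ) * im x := by linarith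
        rw [this]
      have h4 : im c * (p : ℝ) = 2 * im x := by linarith
      calc im c ^ 2 * (q : ℝ) = im c * (im c * (q : ℝ)) := by ring
        _ = im c * ((p : ℝ) * im x) := h3
        _ = (im c * (p : ℝ)) * im x := by ring
        _ = 2 * im x ^ 2 := by rw [h4]; ring
    have hq0 : (0 : ℝ) < q := by
      have : 0 < im c ^ 2 * (q : ℝ) := by rw [e3]; positivity
      exact (pos_iff_pos_of_mul_pos this).1 (by positivity)
    have hq2 : (q : ℝ) < 2 := by
      have h5 : im x ^ 2 < im c ^ 2 := by nlinarith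
      nlinarith
    have hq0' : 0 < q := by exact_mod_cast hq0
    have hq2' : q < 2 := by exact_mod_cast hq2
    obtain ⟨r, hr⟩ := heven x
    rw [← hq] at hr
    omega
  induction S, hS using Set.Finite.induction_on with
  | empty => exact ⟨0, VanRad.zero hK, by simp⟩
  | @insert x S _ hS ih =>
    obtain ⟨v, hv, hvS⟩ := ih (fun y hy => hS' y (Set.mem_insert_of_mem _ hy))
    obtain ⟨w, hw, hwx⟩ := hone x (hS' x (Set.mem_insert _ _)).1 (hS' x (Set.mem_insert _ _)).2
    have hbad : (⋃ y ∈ insert x S, {s : ℝ | lin im v c y + s * lin im w c y = 0}).Finite := by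
      refine Set.Finite.biUnion (hS.insert x) ?_
      intro y hy
      refine Set.Subsingleton.finite ?_
      intro s hs s' hs'
      have hs1 : lin im v c y + s * lin im w c y = 0 := hs
      have hs2 : lin im v c y + s' * lin im w c y = 0 := hs'
      have h3 : (s - s') * lin im w c y = 0 := by linarith
      rcases mul_eq_zero.1 h3 with h4 | h4
      · linarith
      · exfalso
        rcases Set.mem_insert_iff.1 hy with rfl | hy
        · exact hwx h4
        · rw [h4, mul_zero, add_zero] at hs1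
          exact hvS y hy hs1
    obtain ⟨s, hs⟩ := hbad.infinite_compl.nonempty
    refine ⟨v + s • w, hv.add (hw.smul s), ?_⟩
    intro y hy h0
    apply hs
    refine Set.mem_biUnion hy ?_
    show lin im v c y + s * lin im w c y = 0
    rw [← h0, lin_add_right, lin_smul_right]

/-- Arbitrarily close to `u` there are charges for which all semistable objects in the root
class `c` are rigid. -/
lemma StabCond.Gap.exists_generic_near {σ : StabCond C} {t : ℝ} (H : σ.Gap t) (hK : IsK3 C)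
    (hB : IsPSD (eulerForm hK)) (heven : ∀ x : K0 C, Even (eulerForm hK x x)) {c : K0 C}
    (hc : 0 < σ.im t c) (hcc : eulerForm hK c c = 2) {u : K0 C →+ ℝ} (hu : VanRad hK u)
    {δ : ℝ} (hδ : 0 < δ) : ∃ u' : K0 C →+ ℝ, VanRad hK u' ∧ nrm (u' - u) < δ ∧
      ∀ E, King (σ.sl.Heart t) (lin (σ.im t) (σ.re t + u') c) E → cls E = c → Rigid E := by
  obtain ⟨U, hU⟩ := exists_adm hK hB (nrm u + 1) c
  have hfin := H.finite_FS hK hc U
  set S : Set (K0 C) := {x ∈ σ.FS t hK U c | 0 < σ.im t x ∧ σ.im t x < σ.im t c} with hS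
  have hSfin : S.Finite := hfin.subset (Set.sep_subset _ _)
  obtain ⟨v, hv, hvS⟩ := exists_generic hB heven hc hcc hSfin (fun x hx => hx.2)
  have hbad : (⋃ y ∈ S, {s : ℝ | lin (σ.im t) (σ.re t + u) c y +
      s * lin (σ.im t) v c y = 0}).Finite := by
    refine Set.Finite.biUnion hSfin ?_
    intro y hy
    refine Set.Subsingleton.finite ?_
    intro s hs s' hs'
    have hs1 : lin (σ.im t) (σ.re t + u) c y + s * lin (σ.im t) v c y = 0 := hs
    have hs2 : lin (σ.im t) (σ.re t + u) c y + s' * lin (σ.im t) v c y = 0 := hs'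
    have h3 : (s - s') * lin (σ.im t) v c y = 0 := by linarith
    rcases mul_eq_zero.1 h3 with h4 | h4
    · linarith
    · exact absurd h4 (hvS y hy)
  set m : ℝ := min δ 1 / (nrm v + 1) with hm
  have hnv := nrm_nonneg v
  have hm0 : 0 < m := by
    have : 0 < min δ 1 := lt_min hδ one_pos
    positivity
  obtain ⟨s, ⟨hs0, hsm⟩, hsbad⟩ : ((Set.Ioo 0 m) \ (⋃ y ∈ S, {s : ℝ |
      lin (σ.im t) (σ.re t + u) c y + s * lin (σ.im t) v c y = 0})).Nonempty :=
    ((Set.Ioo_infinite hm0).sdiff hbad).nonempty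
  have hsub : u + s • v - u = s • v := by abel
  have hnrm : nrm (u + s • v - u) < min δ 1 := by
    rw [hsub, nrm_smul, abs_of_pos hs0]
    calc s * nrm v ≤ s * (nrm v + 1) := mul_le_mul_of_nonneg_left (by linarith) hs0.le
      _ < m * (nrm v + 1) := mul_lt_mul_of_pos_right hsm (by linarith)
      _ = min δ 1 := by rw [hm]; field_simp
  have hu' : VanRad hK (u + s • v) := hu.add (hv.smul s)
  refine ⟨u + s • v, hu', hnrm.trans_le (min_le_left _ _), ?_⟩
  intro E hE hEc
  have hfc := H.finCat hK hB hc hu'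
  have hn : nrm (u + s • v) ≤ nrm u + 1 := by
    have h1 := nrm_add_le u (s • v)
    rw [hsub] at hnrm
    have := hnrm.trans_le (min_le_right _ _)
    linarith
  have hE0 : ¬ IsZero E := by
    intro h0
    rw [← hEc, cls_of_isZero h0, map_zero] at hc
    exact lt_irrefl _ hc
  have hsimple : SimpleIn (King (σ.sl.Heart t) (lin (σ.im t) (σ.re t + (u + s • v)) c)) E := by
    rw [simpleIn_iff]
    refine ⟨hE, hE0, ?_⟩
    intro Y Z f g hs
    by_contra hcon
    rw [not_or] at hcon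
    have hY := hfc.pos Y hs.1 hcon.1
    have hZ := hfc.pos Z hs.2.2.1 hcon.2
    have hcls := hs.cls_eq
    rw [hEc] at hcls
    have hYc : σ.im t (cls Y) < σ.im t c := by rw [hcls, map_add]; linarith
    have hYS : cls Y ∈ S := ⟨⟨E, u + s • v, u + s • v, hU _ hu' hn, hU _ hu' hn, hE, hEc,
      ⟨Y, Z, f, g, hs.of_le hs.1.1 hs.2.1.1 hs.2.2.1.1, rfl⟩, hs.1.2.1.le⟩, hY, hYc⟩
    apply hsbad
    refine Set.mem_biUnion hYS ?_
    show lin (σ.im t) (σ.re t + u) c (cls Y) + s * lin (σ.im t) v c (cls Y) = 0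
    have h1 := hs.1.2.1
    rw [← add_assoc, lin_add_right, lin_smul_right] at h1
    exact h1
  exact hfc.toAbSub.rigid_of_pos hK heven hsimple (by rw [hEc, hcc]; norm_num)

end Pool.Stab
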