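import Mathlib
import Pool.Agent.Work.MP_841263_r.Near

/-!
# Components of the category of semistable objects of a given phase
-/

open CategoryTheory CategoryTheory.Limits CategoryTheory.Pretriangulated
open scoped ZeroObject

set_option backward.isDefEq.respectTransparency false
set_option backward.defeqAttrib.useBackward true
set_option linter.unusedSectionVars false

namespace Pool.Stab

universe v u

variable {C : Type u} [Category.{v} C] [Preadditive C] [HasZeroObject C] [HasShift C ℤ]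
  [∀ n : ℤ, (shiftFunctor C n).Additive] [Pretriangulated C]
variable [Linear ℂ C] [∀ n : ℤ, (shiftFunctor C n).Linear ℂ]

/-- An object with one dimensional endomorphism algebra is indecomposable. -/
lemma isZero_of_iso_biprod {E X Y : C} (h : Module.finrank ℂ (E ⟶ E) = 1) (e : E ≅ X ⊞ Y) :
    IsZero X ∨ IsZero Y := by
  set p : E ⟶ E := e.hom ≫ biprod.fst ≫ biprod.inl ≫ e.inv with hp
  set q : E ⟶ E := e.hom ≫ biprod.snd ≫ biprod.inr ≫ e.inv with hq
  by_cases hp0 : p = 0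
  · left
    have h1 : biprod.inl ≫ e.inv ≫ p = (0 : X ⟶ E) := by rw [hp0]; simp
    have h2 : biprod.inl ≫ e.inv ≫ p = (biprod.inl ≫ e.inv : X ⟶ E) := by
      rw [hp]; simp
    rw [h1] at h2
    rw [IsZero.iff_id_eq_zero]
    have h3 : (biprod.inl : X ⟶ X ⊞ Y) = 0 := by
      rw [← cancel_mono e.inv, ← h2, zero_comp]
    rw [← biprod.inl_fst (X := X) (Y := Y), h3, zero_comp]
  · right
    obtain ⟨c, hc⟩ := exists_smul_eq_of_finrank_eq_one h hp0 q
    have h1 : biprod.inr ≫ e.inv ≫ q = (biprod.inr ≫ e.inv : Y ⟶ E) := by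
      rw [hq]; simp
    have h2 : biprod.inr ≫ e.inv ≫ q = (0 : Y ⟶ E) := by
      rw [← hc, hp]; simp
    rw [h2] at h1
    rw [IsZero.iff_id_eq_zero]
    have h3 : (biprod.inr : Y ⟶ X ⊞ Y) = 0 := by
      rw [← cancel_mono e.inv, ← h1, zero_comp]
    rw [← biprod.inr_snd (X := X) (Y := Y), h3, zero_comp]

/-- Symmetry of the relation of being orthogonal. -/
lemma orth_shift' {X Y : C} (h : ∀ (n : ℤ) (f : X ⟶ Y⟦n⟧), f = 0) (a b : ℤ)
    (f : X⟦a⟧ ⟶ Y⟦b⟧) : f = 0 :=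
  hom_shift_zero (c := b - a) (by ring) (h _) f

variable [IsTriangulated C] {A : C → Prop} {im : K0 C →+ ℝ}

/-- Splitting off orthogonal simple objects. -/
lemma AbSub.split (hA : AbSub A) (hK : IsK3 C) {G : C → Prop}
    (hG : ∀ X, G X → SimpleIn A X) {E S₀ : C} (hE : Gen G E)
    (hend : Module.finrank ℂ (E ⟶ E) = 1) {J : Set (K0 C)}
    (hJ : ∀ S T, G S → G T → cls S ∈ J → cls T ∉ J → eulerForm hK (cls S) (cls T) = 0)
    (hS₀ : G S₀) (hS₀J : cls S₀ ∈ J) (hne : ∃ f : E ⟶ S₀, f ≠ 0) :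
    Gen (fun S => G S ∧ cls S ∈ J) E := by
  -- orthogonality
  have horth : ∀ S T, G S → G T → cls S ∈ J → cls T ∉ J →
      (∀ (n : ℤ) (f : S ⟶ T⟦n⟧), f = 0) ∧ (∀ (n : ℤ) (f : T ⟶ S⟦n⟧), f = 0) := by
    intro S T hS hT hSJ hTJ
    have hni : ¬ Nonempty (S ≅ T) := by
      rintro ⟨e⟩
      exact hTJ (by rw [← cls_iso e]; exact hSJ)
    obtain ⟨h1, h2, h3⟩ := hA.simple_form_le hK (hG S hS) (hG T hT) hni
    rw [hJ S T hS hT hSJ hTJ] at h1
    have h4 : Module.finrank ℂ (S ⟶ T⟦(1 : ℤ)⟧) = 0 := by omega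
    have h5 : Module.finrank ℂ (T ⟶ S⟦(1 : ℤ)⟧) = 0 := by rw [← finrank_ext_symm hK]; exact h4
    exact ⟨hA.orth hK (hG S hS).1 (hG T hT).1 h2 (forall_zero_of_finrank hK h4) h3,
      hA.orth hK (hG T hT).1 (hG S hS).1 h3 (forall_zero_of_finrank hK h5) h2⟩
  set G1 : C → Prop := fun S => G S ∧ cls S ∈ J with hG1
  set G2 : C → Prop := fun X => ∃ (T : C) (n : ℤ), G T ∧ cls T ∉ J ∧ Nonempty (X ≅ T⟦n⟧) with hG2
  have h12 : ∀ X Y, G1 X → G2 Y → ∀ f : X ⟶ Y, f = 0 := by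
    rintro X Y ⟨hX, hXJ⟩ ⟨T, n, hT, hTJ, ⟨e⟩⟩ f
    rw [← cancel_mono e.hom, (horth X T hX hT hXJ hTJ).1 n (f ≫ e.hom), zero_comp]
  have h21 : ∀ X Y, G2 X → (∃ (S : C) (m : ℤ), G1 S ∧ Nonempty (Y ≅ S⟦m⟧)) → ∀ f : X ⟶ Y, f = 0 := by
    rintro X Y ⟨T, n, hT, hTJ, ⟨e⟩⟩ ⟨S, m, ⟨hS, hSJ⟩, ⟨e'⟩⟩ f
    have h := orth_shift' (horth S T hS hT hSJ hTJ).2 n m (e.inv ≫ f ≫ e'.hom)
    rw [← cancel_epi e.inv, ← cancel_mono e'.hom, Category.assoc, h]
    simp
  have hG2s : ∀ X, G2 X → G2 (X⟦(1 : ℤ)⟧) := by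
    rintro X ⟨T, n, hT, hTJ, ⟨e⟩⟩
    exact ⟨T, n + 1, hT, hTJ, ⟨(shiftFunctor C (1 : ℤ)).mapIso e ≪≫
      ((shiftFunctorAdd' C n 1 (n + 1) rfl).app T).symm⟩⟩
  have key : ∃ (X Y : C) (a : X ⟶ E) (b : E ⟶ Y) (c : Y ⟶ X⟦(1 : ℤ)⟧),
      Triangle.mk a b c ∈ distTriang C ∧ Gen G1 X ∧ Gen G2 Y := by
    clear hend hne
    induction hE with
    | @zero E h =>
      exact ⟨E, 0, 𝟙 E, 0, 0, contractible_distinguished E, Gen.zero h, Gen.zero (isZero_zero C)⟩
    | @of E h =>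
      by_cases hEJ : cls E ∈ J
      · exact ⟨E, 0, 𝟙 E, 0, 0, contractible_distinguished E, Gen.of ⟨h, hEJ⟩,
          Gen.zero (isZero_zero C)⟩
      · exact ⟨0, E, 0, 𝟙 E, 0, contractible_distinguished₁ E, Gen.zero (isZero_zero C),
          Gen.of ⟨E, 0, h, hEJ, ⟨((shiftFunctorZero C ℤ).app E).symm⟩⟩⟩
    | ext hT _ _ h1 h2 =>
      obtain ⟨X₁, Y₁, a₁, b₁, c₁, t1, p1, q1⟩ := h1
      obtain ⟨X₂, Y₂, a₂, b₂, c₂, t2, p2, q2⟩ := h2
      refine exists_decomp_ext (P := Gen G1) (Q := Gen G2) (fun hT h1 h2 => Gen.ext hT h1 h2)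
        (fun hT h1 h2 => Gen.ext hT h1 h2) (fun X h => h.shift' 1 hG2s)
        (fun X Y hX hY f => hX.hom_zero h12 hY f) hT t1 p1 q1 t2 p2 q2
  obtain ⟨X, Y, a, b, c, hT, hX, hY⟩ := key
  have hc : c = 0 := by
    refine Gen.hom_zero (G := G2) (G' := fun Y => ∃ (S : C) (m : ℤ), G1 S ∧ Nonempty (Y ≅ S⟦m⟧))
      h21 hY ?_ c
    exact hX.shift' 1 (fun S hS => ⟨S, 1, hS, ⟨Iso.refl _⟩⟩)
  obtain ⟨e, -⟩ := exists_iso_binaryBiproduct_of_distTriang _ hT hc
  have e' : E ≅ X ⊞ Y := e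
  rcases isZero_of_iso_biprod hend e' with h0 | h0
  · exfalso
    have := iso_of_isZero₁ hT h0
    obtain ⟨f, hf⟩ := hne
    apply hf
    have hEG2 : Gen G2 E := hY.iso (asIso b).symm
    refine Gen.hom_zero (G := G2) (G' := fun Y => ∃ (S : C) (m : ℤ), G1 S ∧ Nonempty (Y ≅ S⟦m⟧))
      h21 hEG2 ?_ f
    exact Gen.of ⟨S₀, 0, ⟨hS₀, hS₀J⟩, ⟨((shiftFunctorZero C ℤ).app S₀).symm⟩⟩
  · have := iso_of_isZero₃ hT h0
    exact hX.iso (asIso a)

/-- The rigid simple objects. -/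
def RS (A : C → Prop) (S : C) : Prop := SimpleIn A S ∧ Rigid S

/-- The step relation on classes of rigid simple objects. -/
def stepRel (hK : IsK3 C) (A : C → Prop) (x y : K0 C) : Prop :=
  (∃ S, RS A S ∧ cls S = y) ∧ eulerForm hK x y ≠ 0

/-- The connected component of a rigid object of norm two. -/
lemma FinCat.exists_component (h : FinCat A im) (hK : IsK3 C)
    (heven : ∀ x : K0 C, Even (eulerForm hK x x)) {E : C} (hE : A E) (hr : Rigid E)
    (hcc : eulerForm hK (cls E) (cls E) = 2) :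
    ∃ G : C → Prop, (∀ S, G S → SimpleIn A S) ∧ LocalSetting hK (Gen G) im G ∧ Gen G E ∧
      ∀ E', A E' → Rigid E' → eulerForm hK (cls E') (cls E') = 2 →
        eulerForm hK (cls E) (cls E') ≠ 0 → Gen G E' := by
  have hend : ∀ E', A E' → Rigid E' → eulerForm hK (cls E') (cls E') = 2 →
      Module.finrank ℂ (E' ⟶ E') = 1 := by
    intro E' hE' hr' hcc'
    have h1 := hr'.form_self h.toAbSub hK hE'
    rw [hcc'] at h1
    omega
  have hRS : ∀ S, RS A S → SimpleIn A S := fun S hS => hS.1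
  have hEgen : Gen (RS A) E := h.rigid_factors hK heven E hE hr
  obtain ⟨S₀, hS₀, f₀, hf₀⟩ : ∃ S₀, RS A S₀ ∧ ∃ f : E ⟶ S₀, f ≠ 0 := by
    by_contra hcon
    push Not at hcon
    have h1 : ∀ f : E ⟶ E, f = 0 := fun f =>
      Gen.hom_zero (G := fun X => X = E) (G' := RS A)
        (by rintro X Y rfl hY f; exact hcon Y hY f) (Gen.of rfl) hEgen f
    have h2 := finrank_of_forall_zero h1
    rw [hend E hE hr hcc] at h2
    exact one_ne_zero h2
  set J : Set (K0 C) := {x | Relation.ReflTransGen (stepRel hK A) (cls S₀) x} with hJ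
  have hJmem : ∀ x ∈ J, ∃ S, RS A S ∧ cls S = x := by
    intro x hx
    rcases Relation.ReflTransGen.cases_tail hx with h1 | ⟨y, -, hy⟩
    · exact ⟨S₀, hS₀, h1.symm⟩
    · exact hy.1
  have hJcl : ∀ S T, RS A S → RS A T → cls S ∈ J → cls T ∉ J →
      eulerForm hK (cls S) (cls T) = 0 := by
    intro S T hS hT hSJ hTJ
    by_contra hne
    exact hTJ (Relation.ReflTransGen.tail hSJ ⟨⟨T, hT, rfl⟩, hne⟩)
  set G : C → Prop := fun S => RS A S ∧ cls S ∈ J with hG
  have hGs : ∀ S, G S → SimpleIn A S := fun S hS => hS.1.1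
  have hset : {x | ∃ S, G S ∧ cls S = x} = J := by
    ext x
    constructor
    · rintro ⟨S, hS, rfl⟩
      exact hS.2
    · intro hx
      obtain ⟨S, hS, rfl⟩ := hJmem x hx
      exact ⟨S, ⟨hS, hx⟩, rfl⟩
  have hEG : Gen G E := h.toAbSub.split hK hRS hEgen (hend E hE hr hcc) hJcl hS₀
    Relation.ReflTransGen.refl ⟨f₀, hf₀⟩
  refine ⟨G, hGs, ?_, hEG, ?_⟩
  · refine { toFinCat := h.gen_fin hGs, simple := ?_, rigid := fun S hS => hS.1.2,
             gen := fun X hX => hX, conn := ?_ }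
    · intro S hS
      exact simple_of_gen h.toAbSub hGs (Gen.of hS) (hGs S hS)
    · rw [hset]
      -- connectedness
      have hsymm : ∀ x y, x ∈ J → Relation.ReflTransGen (stepRel hK A) x y →
          Relation.ReflTransGen (stepRel hK A) y x := by
        intro x y hx hxy
        induction hxy with
        | refl => exact Relation.ReflTransGen.refl
        | @tail b c hb hbc ih =>
          have hbJ : b ∈ J := Relation.ReflTransGen.trans hx hb
          refine Relation.ReflTransGen.head ⟨hJmem b hbJ, ?_⟩ ih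
          rw [eulerForm_symm]
          exact hbc.2
      intro J' hJ'J hne hcl
      refine Set.Subset.antisymm hJ'J ?_
      obtain ⟨a, ha⟩ := hne
      have haJ := hJ'J ha
      intro b hb
      have hab : Relation.ReflTransGen (stepRel hK A) a b :=
        Relation.ReflTransGen.trans (hsymm _ _ Relation.ReflTransGen.refl haJ) hb
      clear hb
      induction hab with
      | refl => exact ha
      | @tail b c hb hbc ih =>
        by_contra hc
        have hcJ : c ∈ J := Relation.ReflTransGen.tail (hJ'J ih) hbc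
        exact hbc.2 (hcl b ih c hcJ hc)
  · intro E' hE' hr' hcc' hne
    have hE'gen : Gen (RS A) E' := h.rigid_factors hK heven E' hE' hr'
    -- some factor of `E'` is not orthogonal to a factor of `E`
    obtain ⟨L, a1, b1, c1⟩ := gen_multiset hEG
    obtain ⟨L', a2, b2, c2⟩ := gen_multiset hE'gen
    by_contra hcon
    -- all morphisms from `E'` to objects of `G` vanish
    have hz : ∀ S, G S → ∀ f : E' ⟶ S, f = 0 := by
      intro S hS f
      by_contra hf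
      exact hcon (h.toAbSub.split hK hRS hE'gen (hend E' hE' hr' hcc') hJcl hS.1 hS.2 ⟨f, hf⟩)
    set G' : C → Prop := fun S => RS A S ∧ cls S ∈ Jᶜ with hG'
    obtain ⟨T₀, hT₀, g₀, hg₀⟩ : ∃ T₀, RS A T₀ ∧ ∃ f : E' ⟶ T₀, f ≠ 0 := by
      by_contra hcon
      push Not at hcon
      have h1 : ∀ f : E' ⟶ E', f = 0 := fun f =>
        Gen.hom_zero (G := fun X => X = E') (G' := RS A)
          (by rintro X Y rfl hY f; exact hcon Y hY f) (Gen.of rfl) hE'gen f
      have h2 := finrank_of_forall_zero h1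
      rw [hend E' hE' hr' hcc'] at h2
      exact one_ne_zero h2
    have hT₀J : cls T₀ ∈ Jᶜ := by
      intro hmem
      exact hg₀ (hz T₀ ⟨hT₀, hmem⟩ g₀)
    have hE'G' : Gen G' E' := h.toAbSub.split hK (J := Jᶜ) hRS hE'gen (hend E' hE' hr' hcc')
      (by
        intro S T hS hT hSJ hTJ
        rw [eulerForm_symm]
        exact hJcl T S hT hS (not_not.1 hTJ) hSJ) hT₀ hT₀J ⟨g₀, hg₀⟩
    apply hne
    obtain ⟨L'', a3, b3, c3⟩ := gen_multiset hE'G'
    rw [← b1, ← b3, form_sum_left]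
    refine Multiset.sum_eq_zero ?_
    intro z hz
    obtain ⟨x, hx, rfl⟩ := Multiset.mem_map.1 hz
    obtain ⟨S, hS, rfl⟩ := Multiset.mem_map.1 hx
    rw [eulerForm_symm, form_sum_left]
    refine Multiset.sum_eq_zero ?_
    intro z hz
    obtain ⟨y, hy, rfl⟩ := Multiset.mem_map.1 hz
    obtain ⟨T, hT, rfl⟩ := Multiset.mem_map.1 hy
    rw [eulerForm_symm]
    exact hJcl S T (a1 S hS).1 (a3 T hT).1 (a1 S hS).2 (a3 T hT).2

end Pool.Stab
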