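import Mathlib
import Pool.Agent.Work.MP_841263_r.Comp

/-!
# Rigid semistable objects in root classes: independence of the charge, rank two subsystems
-/

open CategoryTheory CategoryTheory.Limits CategoryTheory.Pretriangulated
open scoped ZeroObject

set_option backward.isDefEq.respectTransparency false
set_option backward.defeqAttrib.useBackward true
set_option linter.unusedSectionVars false

namespace Pool.Stab

universe v u

variable {C : Type u} [Category.{v} C] [Preadditive C] [HasZeroObject C] [HasShift C ℤ]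
  [∀ n : ℤ, (shiftFunctor C n).Additive] [Pretriangulated C]
variable [Linear ℂ C] [∀ n : ℤ, (shiftFunctor C n).Linear ℂ]
variable [Module.Finite ℤ (K0 C)] [Module.Free ℤ (K0 C)]

/-- A locally constant property of the functionals vanishing on the radical is constant. -/
lemma const_of_local {hK : IsK3 C} {P : (K0 C →+ ℝ) → Prop}
    (h : ∀ u, VanRad hK u → ∃ δ : ℝ, 0 < δ ∧ ∀ u', VanRad hK u' → nrm (u' - u) < δ →
      (P u' ↔ P u)) {u u' : K0 C →+ ℝ} (hu : VanRad hK u) (hu' : VanRad hK u') (hP : P u) :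
    P u' := by
  set v : K0 C →+ ℝ := u' - u with hv
  have hvan : VanRad hK v := hu'.sub hu
  have hline : ∀ s : ℝ, VanRad hK (u + s • v) := fun s => hu.add (hvan.smul s)
  have hloc : IsLocallyConstant (fun s : ℝ => P (u + s • v)) := by
    rw [IsLocallyConstant.iff_eventually_eq]
    intro s
    obtain ⟨δ, hδ, hd⟩ := h _ (hline s)
    have hn := nrm_nonneg v
    have hball : Metric.ball s (δ / (nrm v + 1)) ∈ nhds s :=
      Metric.ball_mem_nhds s (by positivity)
    filter_upwards [hball] with s' hs'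
    rw [Metric.mem_ball, Real.dist_eq] at hs'
    have h1 : (u + s' • v) - (u + s • v) = (s' - s) • v := by
      rw [sub_smul]; abel
    refine propext (hd _ (hline s') ?_)
    rw [h1, nrm_smul]
    have h2 : |s' - s| * (nrm v + 1) < δ := by rwa [lt_div_iff₀ (by positivity)] at hs'
    have h3 := abs_nonneg (s' - s)
    nlinarith
  have h1 := hloc.apply_eq_of_preconnectedSpace 0 1
  simp only [zero_smul, add_zero, one_smul] at h1
  have h2 : u + v = u' := by rw [hv]; abel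
  rw [h2] at h1
  rw [← h1]
  exact hP

lemma exists_align {hK : IsK3 C} {im w : K0 C →+ ℝ} {a b : K0 C} (ha : 0 < im a)
    (hb : 0 < im b) (haa : eulerForm hK a a = 2) (hbb : eulerForm hK b b = 2)
    (hab : eulerForm hK a b < 2) : ∃ u, VanRad hK u ∧ lin im (w + u) a b = 0 := by
  set q : ℝ := (eulerForm hK a b : ℝ) with hq
  have hq2 : q < 2 := by rw [hq]; exact_mod_cast hab
  have hpos : 0 < (2 - q) * (im a + im b) := mul_pos (by linarith) (by linarith)
  refine ⟨(-(lin im w a b) / ((2 - q) * (im a + im b))) • evB hK (b - a),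
    (evB_van hK _).smul _, ?_⟩
  have h1 : lin im (evB hK (b - a)) a b = (2 - q) * (im a + im b) := by
    rw [lin_apply, evB_apply, evB_apply]
    rw [map_sub, AddMonoidHom.sub_apply, AddMonoidHom.sub_apply, hbb, haa,
      eulerForm_symm hK b a]
    push_cast
    rw [← hq]
    ring
  rw [lin_add_right, lin_smul_right, h1, div_mul_cancel₀ _ hpos.ne']
  ring

lemma exists_obj_of_multiset {A : C → Prop} (hA : AbSub A) (m : Multiset (K0 C))
    (hm : ∀ x ∈ m, ∃ S, A S ∧ cls S = x) : ∃ E, A E ∧ cls E = m.sum := by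
  induction m using Multiset.induction_on with
  | empty => exact ⟨0, hA.zero_mem (isZero_zero C), by simp [cls_of_isZero (isZero_zero C)]⟩
  | cons x m ih =>
    obtain ⟨E, hE, hEm⟩ := ih (fun y hy => hm y (Multiset.mem_cons_of_mem hy))
    obtain ⟨S, hS, rfl⟩ := hm x (Multiset.mem_cons_self x m)
    exact ⟨S ⊞ E, hA.biprod_mem hS hE, by rw [cls_biprod, hEm, Multiset.sum_cons]⟩

variable [IsTriangulated C]

/-- `c` is the class of a rigid object which is semistable for the charge `(re + u, im)`. -/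
def StabCond.Q (σ : StabCond C) (t : ℝ) (u : K0 C →+ ℝ) (c : K0 C) : Prop :=
  ∃ E, King (σ.sl.Heart t) (lin (σ.im t) (σ.re t + u) c) E ∧ cls E = c ∧ Rigid E

section

variable {σ : StabCond C} {t : ℝ}

lemma StabCond.Gap.Q_of_near (H : σ.Gap t) (hK : IsK3 C)
    (hB : IsPSD (eulerForm hK)) (heven : ∀ x : K0 C, Even (eulerForm hK x x)) {c : K0 C}
    (hc : 0 < σ.im t c) (hcc : eulerForm hK c c = 2) {u : K0 C →+ ℝ} (hu : VanRad hK u)
    {δ : ℝ} (hδ : 0 < δ) (hex : ∀ u' : K0 C →+ ℝ, VanRad hK u' → nrm (u' - u) < δ →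
      ∃ E, King (σ.sl.Heart t) (lin (σ.im t) (σ.re t + u') c) E ∧ cls E = c) :
    σ.Q t u c := by
  obtain ⟨δ', hδ', hcl⟩ := H.closed hK hB hc hu
  obtain ⟨u', hu', hlt, hrig⟩ := H.exists_generic_near hK hB heven hc hcc hu
    (lt_min hδ hδ')
  obtain ⟨E, hE, hEc⟩ := hex u' hu' (hlt.trans_le (min_le_left _ _))
  exact ⟨E, hcl u' hu' (hlt.trans_le (min_le_right _ _)) E hE hEc, hEc, hrig E hE hEc⟩

lemma StabCond.Gap.core_near (H : σ.Gap t) (hK : IsK3 C)
    (hB : IsPSD (eulerForm hK)) (heven : ∀ x : K0 C, Even (eulerForm hK x x)) {c : K0 C}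
    (hc : 0 < σ.im t c) (hcc : eulerForm hK c c = 2) {u : K0 C →+ ℝ} (hu : VanRad hK u)
    {G : C → Prop}
    (hG : ∀ S, G S → SimpleIn (King (σ.sl.Heart t) (lin (σ.im t) (σ.re t + u) c)) S)
    (hLS : LocalSetting hK (Gen G) (σ.im t) G) (hex : ∃ E, Gen G E ∧ cls E = c) :
    ∃ δ : ℝ, 0 < δ ∧ ∀ u' : K0 C →+ ℝ, VanRad hK u' → nrm (u' - u) < δ → σ.Q t u' c := by
  have hfc := H.finCat hK hB hc hu
  obtain ⟨δ, hδ, hnear⟩ := H.near hK hB hc hu
  have hfinU : FinU (Gen G) c := by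
    refine (H.finU hK hB hc hu).subset ?_
    rintro x ⟨E, hE, hEc, F, Q, f, g, hs, rfl⟩
    exact ⟨E, hfc.gen_mem hG hE, hEc, F, Q, f, g, hs.of_le (hfc.gen_mem hG hs.1)
      (hfc.gen_mem hG hs.2.1) (hfc.gen_mem hG hs.2.2.1), rfl⟩
  have hball : ∀ u' : K0 C →+ ℝ, VanRad hK u' → nrm (u' - u) < δ →
      ∃ E, King (σ.sl.Heart t) (lin (σ.im t) (σ.re t + u') c) E ∧ cls E = c := by
    intro u' hu' hlt
    obtain ⟨E, hE, hEc⟩ := hLS.core hB heven hcc hex hfinU (σ.re t + u')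
    refine ⟨E, hnear u' hu' hlt E (hfc.gen_mem hG hE.1) hEc ?_, hEc⟩
    rintro x ⟨F, Q, f, g, hs, rfl⟩
    obtain ⟨hF, hQ⟩ := hfc.toAbSub.serre hG hE.1 _ _ _ _ hs
    have h1 := hE.2.2 (cls F) ⟨F, Q, f, g, hs.of_le hF hE.1 hQ, rfl⟩
    rw [hEc] at h1
    exact h1
  refine ⟨δ / 2, by positivity, ?_⟩
  intro u' hu' hlt
  refine H.Q_of_near hK hB heven hc hcc hu' (show 0 < δ / 2 by positivity) ?_
  intro u'' hu'' hlt'
  refine hball u'' hu'' ?_
  have h1 := nrm_add_le (u'' - u') (u' - u)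
  have h2 : u'' - u' + (u' - u) = u'' - u := by abel
  rw [h2] at h1
  linarith

lemma StabCond.Gap.Q_const (H : σ.Gap t) (hK : IsK3 C)
    (hB : IsPSD (eulerForm hK)) (heven : ∀ x : K0 C, Even (eulerForm hK x x)) {c : K0 C}
    (hc : 0 < σ.im t c) (hcc : eulerForm hK c c = 2) {u u' : K0 C →+ ℝ} (hu : VanRad hK u)
    (hu' : VanRad hK u') (hQ : σ.Q t u c) : σ.Q t u' c := by
  refine const_of_local (P := fun u => σ.Q t u c) ?_ hu hu' hQ
  intro u hu
  by_cases hQu : σ.Q t u c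
  · obtain ⟨E, hE, hEc, hr⟩ := hQu
    have hfc := H.finCat hK hB hc hu
    obtain ⟨G, hG, hLS, hGE, -⟩ := hfc.exists_component hK heven hE hr (by rw [hEc, hcc])
    obtain ⟨δ, hδ, hd⟩ := H.core_near hK hB heven hc hcc hu hG hLS ⟨E, hGE, hEc⟩
    refine ⟨δ, hδ, fun u' hu' hlt => ?_⟩
    exact ⟨fun _ => ⟨E, hE, hEc, hr⟩, fun _ => hd u' hu' hlt⟩
  · obtain ⟨δ, hδ, hcl⟩ := H.closed hK hB hc hu
    refine ⟨δ, hδ, fun u' hu' hlt => ⟨?_, fun h => absurd h hQu⟩⟩
    rintro ⟨E, hE, hEc, hr⟩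
    exact ⟨E, hcl u' hu' hlt E hE hEc, hEc, hr⟩

/-- Rank two subsystems, sum. -/
lemma StabCond.Gap.Q_add (H : σ.Gap t) (hK : IsK3 C)
    (hB : IsPSD (eulerForm hK)) (heven : ∀ x : K0 C, Even (eulerForm hK x x)) {a b : K0 C}
    (ha : 0 < σ.im t a) (haa : eulerForm hK a a = 2) (hb : 0 < σ.im t b)
    (hbb : eulerForm hK b b = 2) (hab : eulerForm hK a b = -1) (hQa : σ.Q t 0 a)
    (hQb : σ.Q t 0 b) : σ.Q t 0 (a + b) := by
  obtain ⟨u, hu, hlin⟩ := exists_align (w := σ.re t) ha hb haa hbb (by rw [hab]; norm_num)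
  obtain ⟨Ea, hEa, hEac, hra⟩ := H.Q_const hK hB heven ha haa (VanRad.zero hK) hu hQa
  obtain ⟨Eb, hEb, hEbc, hrb⟩ := H.Q_const hK hB heven hb hbb (VanRad.zero hK) hu hQb
  have hc : 0 < σ.im t (a + b) := by rw [map_add]; linarith
  have hcc : eulerForm hK (a + b) (a + b) = 2 := by
    simp only [map_add, AddMonoidHom.add_apply]
    rw [haa, hbb, eulerForm_symm hK b a, hab]
    norm_num
  have hlin' : lin (σ.im t) (σ.re t + u) a (a + b) = 0 := by
    rw [map_add, lin_self, hlin, add_zero]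
  rw [← King_eq ha hb hlin] at hEb
  have hfc := H.finCat hK hB ha hu
  obtain ⟨G, hG, hLS, hGE, hmax⟩ := hfc.exists_component hK heven hEa hra (by rw [hEac, haa])
  have hGb := hmax Eb hEb hrb (by rw [hEbc, hbb]) (by rw [hEac, hEbc, hab]; norm_num)
  rw [King_eq ha hc hlin'] at hG
  obtain ⟨δ, hδ, hd⟩ := H.core_near hK hB heven hc hcc hu hG hLS
    ⟨Ea ⊞ Eb, hLS.toAbSub.biprod_mem hGE hGb, by rw [cls_biprod, hEac, hEbc]⟩
  exact H.Q_const hK hB heven hc hcc hu (VanRad.zero hK) (hd u hu (by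
    rw [sub_self, nrm_zero]; exact hδ))

open Classical in
/-- Rank two subsystems, difference. -/
lemma StabCond.Gap.Q_sub (H : σ.Gap t) (hK : IsK3 C)
    (hB : IsPSD (eulerForm hK)) (heven : ∀ x : K0 C, Even (eulerForm hK x x)) {a b : K0 C}
    (ha : 0 < σ.im t a) (haa : eulerForm hK a a = 2) (hb : 0 < σ.im t b)
    (hbb : eulerForm hK b b = 2) (hab : eulerForm hK a b = 1) (hQa : σ.Q t 0 a)
    (hQb : σ.Q t 0 b) :
    (0 < σ.im t (a - b) ∧ σ.Q t 0 (a - b)) ∨ (0 < σ.im t (b - a) ∧ σ.Q t 0 (b - a)) := by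
  obtain ⟨u, hu, hlin⟩ := exists_align (w := σ.re t) ha hb haa hbb (by rw [hab]; norm_num)
  obtain ⟨Ea, hEa, hEac, hra⟩ := H.Q_const hK hB heven ha haa (VanRad.zero hK) hu hQa
  obtain ⟨Eb, hEb, hEbc, hrb⟩ := H.Q_const hK hB heven hb hbb (VanRad.zero hK) hu hQb
  have hcc : eulerForm hK (a - b) (a - b) = 2 := by
    simp only [map_sub, AddMonoidHom.sub_apply]
    rw [haa, hbb, eulerForm_symm hK b a, hab]
    norm_num
  rw [← King_eq ha hb hlin] at hEb
  have hfc := H.finCat hK hB ha hu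
  obtain ⟨G, hG, hLS, hGE, hmax⟩ := hfc.exists_component hK heven hEa hra (by rw [hEac, haa])
  have hGb := hmax Eb hEb hrb (by rw [hEbc, hbb]) (by rw [hEac, hEbc, hab]; norm_num)
  -- a class of norm two which is a combination of simple classes
  have hfin : ∀ c : K0 C, eulerForm hK c c = 2 → lin (σ.im t) (σ.re t + u) a c = 0 →
      (∃ m : Multiset (K0 C), (∀ x ∈ m, x ∈ {x | ∃ S, G S ∧ cls S = x}) ∧ m.sum = c) →
      0 < σ.im t c ∧ σ.Q t 0 c := by
    rintro c hc2 hlinc ⟨m, hm, rfl⟩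
    obtain ⟨E, hE, hEm⟩ := exists_obj_of_multiset hLS.toAbSub m (by
      intro x hx
      obtain ⟨S, hS, rfl⟩ := hm x hx
      exact ⟨S, Gen.of hS, rfl⟩)
    have hE0 : ¬ IsZero E := by
      intro h0
      rw [← hEm, cls_of_isZero h0, map_zero] at hc2
      simp at hc2
    have hc : 0 < σ.im t m.sum := by
      rw [← hEm]
      exact hLS.pos E hE hE0
    refine ⟨hc, ?_⟩
    rw [King_eq ha hc hlinc] at hG
    obtain ⟨δ, hδ, hd⟩ := H.core_near hK hB heven hc hc2 hu hG hLS ⟨E, hE, hEm⟩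
    exact H.Q_const hK hB heven hc hc2 hu (VanRad.zero hK) (hd u hu (by
      rw [sub_self, nrm_zero]; exact hδ))
  obtain ⟨La, a1, b1, -⟩ := gen_multiset hGE
  obtain ⟨Lb, a2, b2, -⟩ := gen_multiset hGb
  rw [hEac] at b1
  rw [hEbc] at b2
  set sa := La.map cls with hsa
  set sb := Lb.map cls with hsb
  have hsaR : ∀ x ∈ sa, x ∈ {x | ∃ S, G S ∧ cls S = x} := by
    intro x hx
    obtain ⟨H', hH, rfl⟩ := Multiset.mem_map.1 hx
    exact ⟨H', a1 H' hH, rfl⟩
  have hsbR : ∀ x ∈ sb, x ∈ {x | ∃ S, G S ∧ cls S = x} := by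
    intro x hx
    obtain ⟨H', hH, rfl⟩ := Multiset.mem_map.1 hx
    exact ⟨H', a2 H' hH, rfl⟩
  set m := sa - sb with hm
  set n := sb - sa with hn
  have hmR : ∀ x ∈ m, x ∈ {x | ∃ S, G S ∧ cls S = x} := fun x hx =>
    hsaR x (Multiset.mem_of_le (Multiset.sub_le_self _ _) hx)
  have hnR : ∀ x ∈ n, x ∈ {x | ∃ S, G S ∧ cls S = x} := fun x hx =>
    hsbR x (Multiset.mem_of_le (Multiset.sub_le_self _ _) hx)
  have hdisj : ∀ x, x ∈ m → x ∉ n := by
    intro x hxm hxn
    rw [hm, ← Multiset.count_pos, Multiset.count_sub] at hxm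
    rw [hn, ← Multiset.count_pos, Multiset.count_sub] at hxn
    omega
  have hsum : a - b = m.sum - n.sum := by
    have h1 : sa + n = sb + m := by
      ext x
      rw [Multiset.count_add, Multiset.count_add, hm, hn, Multiset.count_sub,
        Multiset.count_sub]
      omega
    have h2 := congrArg Multiset.sum h1
    rw [Multiset.sum_add, Multiset.sum_add, b1, b2] at h2
    rw [sub_eq_sub_iff_add_eq_add, h2]
    abel
  have hmn : eulerForm hK m.sum n.sum ≤ 0 := by
    refine form_multiset_nonpos _ m n ?_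
    intro x hx y hy
    refine hLS.offDiag x (hmR x hx) y (hnR y hy) ?_
    rintro rfl
    exact hdisj x hx hy
  have hexp : eulerForm hK m.sum m.sum - 2 * eulerForm hK m.sum n.sum +
      eulerForm hK n.sum n.sum = 2 := by
    have h3 : eulerForm hK (m.sum - n.sum) (m.sum - n.sum) = 2 := by rw [← hsum]; exact hcc
    simp only [map_sub, AddMonoidHom.sub_apply] at h3
    rw [eulerForm_symm hK n.sum m.sum] at h3
    linarith
  have hmm := hB.nonneg m.sum
  have hnn := hB.nonneg n.sum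
  obtain ⟨p, hp⟩ := heven m.sum
  obtain ⟨q, hq⟩ := heven n.sum
  have hempty : ∀ m n : Multiset (K0 C), (∀ x ∈ m, x ∈ {x | ∃ S, G S ∧ cls S = x}) →
      (∀ x ∈ n, x ∈ {x | ∃ S, G S ∧ cls S = x}) → (∀ x, x ∈ m → x ∉ n) →
      eulerForm hK n.sum n.sum = 0 → eulerForm hK m.sum m.sum ≠ 0 → n = 0 := by
    intro m n hmR hnR hdisj h0 hm0
    by_contra hne
    have hfull := full_support hLS.offDiag hLS.conn hnR hne (hB.mem_radical_of_self h0)
    have hme : m = 0 := by
      by_contra hm'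
      obtain ⟨x, hx⟩ := Multiset.exists_mem_of_ne_zero hm'
      exact hdisj x hx (hfull x (hmR x hx))
    rw [hme] at hm0
    simp at hm0
  by_cases hn0 : eulerForm hK n.sum n.sum = 0
  · have hmn0 : eulerForm hK m.sum n.sum = 0 := by
      rw [eulerForm_symm]
      exact hB.mem_radical_of_self hn0 _
    have hm2 : eulerForm hK m.sum m.sum = 2 := by rw [hmn0, hn0] at hexp; linarith
    have hne := hempty m n hmR hnR hdisj hn0 (by rw [hm2]; norm_num)
    left
    refine hfin (a - b) hcc (by rw [map_sub, lin_self, hlin, sub_zero]) ⟨m, hmR, ?_⟩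
    rw [hsum, hne]
    simp
  · have hm0 : eulerForm hK m.sum m.sum = 0 := by omega
    have hne := hempty n m hnR hmR (fun x hx hx' => hdisj x hx' hx) hm0 hn0
    right
    refine hfin (b - a) ?_ (by rw [map_sub, lin_self, hlin, sub_zero]) ⟨n, hnR, ?_⟩
    · rw [← neg_sub, map_neg, map_neg, AddMonoidHom.neg_apply, neg_neg, hcc]
    · rw [← neg_sub, hsum, hne]
      simp

end

end Pool.Stab
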