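import Mathlib
import Pool.Agent.Work.MP_841263_r.Wall
import Pool.Agent.Work.MP_841263_r.LatL
import Pool.Agent.Work.MP_841263_st.Radical3

/-!
# Semistable objects of the slicing and King semistable objects of the heart
-/

open CategoryTheory CategoryTheory.Limits CategoryTheory.Pretriangulated
open scoped ZeroObject

set_option backward.isDefEq.respectTransparency false
set_option backward.defeqAttrib.useBackward true
set_option linter.unusedSectionVars false

namespace Pool.Stab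

universe v u

variable {C : Type u} [Category.{v} C] [Preadditive C] [HasZeroObject C] [HasShift C ℤ]
  [∀ n : ℤ, (shiftFunctor C n).Additive] [Pretriangulated C]

lemma StabCond.lin_polar (σ : StabCond C) (t : ℝ) {φ ψ : ℝ} {X Y : C} (hX : σ.sl.P φ X)
    (hX0 : ¬ IsZero X) (hY : σ.sl.P ψ Y) (hY0 : ¬ IsZero Y) :
    lin (σ.im t) (σ.re t) (cls X) (cls Y) =
      ‖σ.Z (cls X)‖ * ‖σ.Z (cls Y)‖ * Real.sin (Real.pi * (φ - ψ)) := by
  obtain ⟨-, h1, h2⟩ := σ.polar t hX hX0
  obtain ⟨-, h3, h4⟩ := σ.polar t hY hY0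
  rw [lin_apply, h1, h2, h3, h4]
  have h5 : Real.pi * (φ - ψ) = Real.pi * (φ - t) - Real.pi * (ψ - t) := by ring
  rw [h5, Real.sin_sub]
  ring

lemma StabCond.lin_HN_nonneg (σ : StabCond C) (t : ℝ) {φ : ℝ} {E : C} (hE : σ.sl.P φ E)
    (hE0 : ¬ IsZero E) {X : C} {l : List ℝ} (hX : HN σ.sl.P X l)
    (hl : ∀ ψ ∈ l, ψ ≤ φ ∧ φ - 1 < ψ) : 0 ≤ lin (σ.im t) (σ.re t) (cls E) (cls X) := by
  induction hX with
  | zero h => rw [cls_of_isZero h, map_zero]
  | @step X Y A ψ l hX hψ hA hA0 f g k hT ih =>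
    rw [cls_mk hT, map_add]
    have h1 := ih (fun χ hχ => hl χ (by simp [hχ]))
    obtain ⟨h2, h3⟩ := hl ψ (by simp)
    rw [σ.lin_polar t hE hE0 hA hA0]
    have h4 : 0 ≤ Real.sin (Real.pi * (φ - ψ)) :=
      Real.sin_nonneg_of_nonneg_of_le_pi (mul_nonneg Real.pi_pos.le (by linarith))
        (by nlinarith [Real.pi_pos])
    positivity

lemma StabCond.lin_HN_neg (σ : StabCond C) (t : ℝ) {φ : ℝ} {E : C} (hE : σ.sl.P φ E)
    (hE0 : ¬ IsZero E) {X : C} {l : List ℝ} (hX : HN σ.sl.P X l)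
    (hl : ∀ ψ ∈ l, φ < ψ ∧ ψ < φ + 1) : lin (σ.im t) (σ.re t) (cls E) (cls X) ≤ 0 ∧
      (l ≠ [] → lin (σ.im t) (σ.re t) (cls E) (cls X) < 0) := by
  induction hX with
  | zero h => simp [cls_of_isZero h]
  | @step X Y A ψ l hX hψ hA hA0 f g k hT ih =>
    have h1 := (ih (fun χ hχ => hl χ (by simp [hχ]))).1
    obtain ⟨h2, h3⟩ := hl ψ (by simp)
    have h5 := (σ.polar t hE hE0).1
    have h6 := (σ.polar t hA hA0).1
    have h4 : Real.sin (Real.pi * (φ - ψ)) < 0 :=
      Real.sin_neg_of_neg_of_neg_pi_lt (by nlinarith [Real.pi_pos]) (by nlinarith [Real.pi_pos])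
    have h7 : lin (σ.im t) (σ.re t) (cls E) (cls Y) < 0 := by
      rw [cls_mk hT, map_add, σ.lin_polar t hE hE0 hA hA0]
      have := mul_neg_of_pos_of_neg (mul_pos h5 h6) h4
      linarith
    exact ⟨h7.le, fun _ => h7⟩

section

variable [IsTriangulated C] [Linear ℂ C] [∀ n : ℤ, (shiftFunctor C n).Linear ℂ]
variable [Module.Finite ℤ (K0 C)] [Module.Free ℤ (K0 C)]

/-- Semistable objects of the heart are King semistable. -/
lemma StabCond.king_of_P (σ : StabCond C) {t φ : ℝ} {E : C} (hE : σ.sl.P φ E) (h1 : t < φ)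
    (h2 : φ ≤ t + 1) : King (σ.sl.Heart t) (lin (σ.im t) (σ.re t) (cls E)) E := by
  have hH := Slicing.heart_of_P hE h1 h2
  refine ⟨hH, lin_self _ _ _, ?_⟩
  by_cases hE0 : IsZero E
  · intro x hx
    rw [sub_of_isZero (σ.sl.heart_ab t) hE0 hx, map_zero]
  rintro x ⟨F, Q, f, g, hs, rfl⟩
  have h3 := σ.sub_phases (ψ := φ) hs (Slicing.in_of_P hE (by simp))
  obtain ⟨l, hl, hI⟩ := hs.1
  have hl2 := hl.mem_lower (isUpperSet_Ioi φ) h3
  refine σ.lin_HN_nonneg t hE hE0 hl ?_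
  intro ψ hψ
  have h4 := hl2 ψ hψ
  have h5 := hI ψ hψ
  exact ⟨not_lt.1 h4, by linarith [h5.1]⟩

/-- King semistable objects of the heart are semistable. -/
lemma StabCond.P_of_king (σ : StabCond C) {t : ℝ} {E : C} (hE0 : ¬ IsZero E)
    (hE : King (σ.sl.Heart t) (lin (σ.im t) (σ.re t) (cls E)) E) :
    ∃ φ, t < φ ∧ φ ≤ t + 1 ∧ σ.sl.P φ E := by
  obtain ⟨⟨l, hl, hI⟩, -, hE3⟩ := hE
  cases hl with
  | zero h => exact absurd h hE0
  | @step X _ A φ l hX hφ hA hA0 f g k hT =>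
    obtain ⟨h1, h2⟩ := hI φ (by simp)
    have hXH : σ.sl.Heart t X := ⟨l, hX, fun ψ hψ => hI ψ (by simp [hψ])⟩
    have hAH : σ.sl.Heart t A := Slicing.heart_of_P hA h1 h2
    have hEH : σ.sl.Heart t E := Slicing.Heart.ext hT hXH hAH
    have hs : SES (σ.sl.Heart t) f g := ⟨hXH, hEH, hAH, k, hT⟩
    have h3 := hE3 _ hs.left_mem
    rw [hs.cls_eq, lin_add_left, lin_self, zero_add] at h3
    have h4 := (σ.lin_HN_neg t hA hA0 hX (by
      intro ψ hψ
      have h5 := hφ ψ hψ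
      have h6 := hI ψ (by simp [hψ])
      exact ⟨h5, by linarith [h6.2]⟩)).2
    by_cases hnil : l = []
    · subst hnil
      cases hX with
      | zero h0 =>
        have := iso_of_isZero₁ hT h0
        exact ⟨φ, h1, h2, σ.sl.iso_mem φ (asIso g).symm hA⟩
    · have := h4 hnil
      linarith

lemma cls_shift_cases (X : C) (n : ℤ) : cls (X⟦n⟧) = cls X ∨ cls (X⟦n⟧) = -cls X := by
  rcases Int.even_or_odd n with h | h
  · left; rw [cls_shift, Int.negOnePow_even n h]; simp
  · right; rw [cls_shift, Int.negOnePow_odd n h]; simp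

/-- A shift of a semistable object lies in the heart and is semistable. -/
lemma Slicing.exists_shift_P {S : Slicing C} (t : ℝ) {φ : ℝ} {X : C} (hX : S.P φ X) :
    ∃ (n : ℤ) (ψ : ℝ), t < ψ ∧ ψ ≤ t + 1 ∧ S.P ψ (X⟦n⟧) := by
  have h1 : S.In ((· + ((⌊t - φ⌋ + 1 : ℤ) : ℝ)) '' {φ}) (X⟦⌊t - φ⌋ + 1⟧) :=
    Slicing.In.shift (Slicing.in_of_P hX (Set.mem_singleton φ)) _
  have h2 := Int.floor_le (t - φ)
  have h3 := Int.lt_floor_add_one (t - φ)
  refine ⟨⌊t - φ⌋ + 1, φ + ((⌊t - φ⌋ + 1 : ℤ) : ℝ), ?_, ?_, ?_⟩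
  · push_cast; linarith
  · push_cast; linarith
  · refine Slicing.In.P_of_singleton (h1.mono ?_)
    rintro _ ⟨x, hx, rfl⟩
    have hx' : x = φ := hx
    subst hx'
    exact Set.mem_singleton _

variable {σ : StabCond C} {t : ℝ}

/-- The set of the classes `c` of norm two with positive imaginary part which carry a rigid
semistable object. -/
def StabCond.RR (σ : StabCond C) (t : ℝ) (hK : IsK3 C) : Set (K0 C) :=
  {c | eulerForm hK c c = 2 ∧ 0 < σ.im t c ∧ σ.Q t 0 c}

lemma StabCond.Gap.rigid_mem_P (H : σ.Gap t) (hK : IsK3 C)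
    (hB : IsPSD (eulerForm hK)) (heven : ∀ x : K0 C, Even (eulerForm hK x x)) {φ : ℝ} {A : C}
    (hA : σ.sl.P φ A) (hr : Rigid A) : cls A ∈ AddSubgroup.closure (σ.RR t hK) := by
  by_cases hA0 : IsZero A
  · rw [cls_of_isZero hA0]; exact AddSubgroup.zero_mem _
  obtain ⟨n, ψ, h1, h2, hP⟩ := Slicing.exists_shift_P t hA
  have hH := Slicing.heart_of_P hP h1 h2
  have hn0 : ¬ IsZero (A⟦n⟧) := fun h => hA0 ((isZero_shift_iff _ _).1 h)
  have hpos := H.im_pos hH hn0
  have hking := σ.king_of_P hP h1 h2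
  have hfc := H.finCat hK hB hpos (VanRad.zero hK)
  rw [add_zero] at hfc
  have hgen := hfc.rigid_factors hK heven _ hking (hr.shift n)
  have hmem : cls (A⟦n⟧) ∈ AddSubgroup.closure (σ.RR t hK) := by
    refine hgen.cls_mem ?_
    rintro S ⟨hS, hSr⟩
    refine AddSubgroup.subset_closure ⟨hfc.toAbSub.norm_of_rigid hK hS hSr, ?_, S, ?_, rfl, hSr⟩
    · exact hfc.pos S hS.1 hS.2.1
    · rw [add_zero, ← King_eq hpos (hfc.pos S hS.1 hS.2.1) hS.1.2.1]
      exact hS.1
  rcases cls_shift_cases A n with h | h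
  · rw [← h]; exact hmem
  · rw [h] at hmem
    have := AddSubgroup.neg_mem _ hmem
    rwa [neg_neg] at this

lemma StabCond.Gap.rigid_mem (H : σ.Gap t) (hK : IsK3 C)
    (hB : IsPSD (eulerForm hK)) (heven : ∀ x : K0 C, Even (eulerForm hK x x)) {X : C}
    (hr : Rigid X) : cls X ∈ AddSubgroup.closure (σ.RR t hK) := by
  obtain ⟨l, hl⟩ := σ.sl.exists_HN X
  induction hl with
  | zero h => rw [cls_of_isZero h]; exact AddSubgroup.zero_mem _
  | @step X Y A φ l hX hφ hA hA0 f g k hT ih =>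
    have hz : ∀ a : X ⟶ A, a = 0 := by
      intro a
      refine Slicing.hom_zero' hX (Slicing.hn_single hA hA0) ?_ a
      intro ψ hψ χ hχ
      simp only [List.mem_singleton] at hχ
      rw [hχ]
      exact hφ ψ hψ
    obtain ⟨hrX, hrA⟩ := Rigid.of_triangle hK hT hz hr
    rw [cls_mk hT]
    exact AddSubgroup.add_mem _ (ih hrX) (H.rigid_mem_P hK hB heven hA hrA)

/-- Classes of norm two and their negatives form a subsystem. -/
lemma StabCond.Gap.sub2 (H : σ.Gap t) (hK : IsK3 C)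
    (hB : IsPSD (eulerForm hK)) (heven : ∀ x : K0 C, Even (eulerForm hK x x)) :
    Sub2 (eulerForm hK) {x | x ∈ σ.RR t hK ∨ -x ∈ σ.RR t hK} where
  two := by
    rintro x (h | h)
    · exact h.1
    · have := h.1
      rwa [map_neg, map_neg, AddMonoidHom.neg_apply, neg_neg] at this
  neg := by
    rintro x (h | h)
    · exact Or.inr (by rwa [neg_neg])
    · exact Or.inl h
  add := by
    have key : ∀ x ∈ σ.RR t hK, ∀ y ∈ σ.RR t hK, eulerForm hK x y = 1 →
        x - y ∈ σ.RR t hK ∨ y - x ∈ σ.RR t hK := by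
      intro x hx y hy hxy
      have hyx : eulerForm hK y x = 1 := by rw [eulerForm_symm, hxy]
      rcases H.Q_sub hK hB heven hx.2.1 hx.1 hy.2.1 hy.1 hxy hx.2.2 hy.2.2 with h | h
      · refine Or.inl ⟨?_, h.1, h.2⟩
        simp only [map_sub, AddMonoidHom.sub_apply]
        rw [hx.1, hy.1, hxy, hyx]; norm_num
      · refine Or.inr ⟨?_, h.1, h.2⟩
        simp only [map_sub, AddMonoidHom.sub_apply]
        rw [hx.1, hy.1, hxy, hyx]; norm_num
    have key2 : ∀ x ∈ σ.RR t hK, ∀ y ∈ σ.RR t hK, eulerForm hK x y = -1 →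
        x + y ∈ σ.RR t hK := by
      intro x hx y hy hxy
      refine ⟨?_, ?_, H.Q_add hK hB heven hx.2.1 hx.1 hy.2.1 hy.1 hxy hx.2.2 hy.2.2⟩
      · simp only [map_add, AddMonoidHom.add_apply]
        rw [hx.1, hy.1, hxy, eulerForm_symm hK y x, hxy]; norm_num
      · rw [map_add]
        linarith [hx.2.1, hy.2.1]
    rintro x (hx | hx) y (hy | hy) hxy
    · exact Or.inl (key2 x hx y hy hxy)
    · have h1 := key x hx (-y) hy (by rw [map_neg, hxy]; norm_num)
      rcases h1 with h1 | h1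
      · left
        rwa [sub_neg_eq_add] at h1
      · right
        have h2 : -(x + y) = -y - x := by abel
        rw [h2]
        exact h1
    · have h1 := key (-x) hx y hy (by
        rw [map_neg, AddMonoidHom.neg_apply, hxy]; norm_num)
      rcases h1 with h1 | h1
      · right
        have h2 : -(x + y) = -x - y := by abel
        rw [h2]
        exact h1
      · left
        have h2 : x + y = y - -x := by abel
        rw [h2]
        exact h1
    · right
      have h1 := key2 (-x) hx (-y) hy (by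
        rw [map_neg, map_neg, AddMonoidHom.neg_apply, neg_neg, hxy])
      have h2 : -(x + y) = -x + -y := by abel
      rw [h2]
      exact h1

end

end Pool.Stab
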