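import Mathlib
import Pool.Agent.Work.MP_841263_r.PK

/-!
# Semistable objects in all real root classes and all radical classes
-/

open CategoryTheory CategoryTheory.Limits CategoryTheory.Pretriangulated
open scoped ZeroObject

set_option backward.isDefEq.respectTransparency false
set_option backward.defeqAttrib.useBackward true
set_option linter.unusedSectionVars false

namespace Pool.Stab

universe v u

variable {C : Type u} [Category.{v} C] [Preadditive C] [HasZeroObject C] [HasShift C ℤ]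
  [∀ n : ℤ, (shiftFunctor C n).Additive] [Pretriangulated C]

section

variable [Linear ℂ C] [∀ n : ℤ, (shiftFunctor C n).Linear ℂ]

/-- The classes of rigid objects have even norm. -/
lemma even_of_rigid (hK : IsK3 C) {X : C} (hr : Rigid X) :
    Even (eulerForm hK (cls X) (cls X)) := by
  rw [eulerForm_cls, eulerChar]
  set f : ℤ → ℤ := fun n => (n.negOnePow : ℤ) * (Module.finrank ℂ (X ⟶ X⟦n⟧) : ℤ) with hf
  have hfin : (Function.support f).Finite := by
    refine (support_finite hK X X).subset ?_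
    intro n hn h0
    apply hn
    rw [hf]
    simp only
    rw [h0]
    simp
  rw [finsum_eq_sum _ hfin]
  have hsymm : ∀ n : ℤ, f (2 - n) = f n := by
    intro n
    rw [hf]
    simp only
    rw [finrank_duality hK X X n, Int.negOnePow_sub, Int.negOnePow_even 2 (by decide), one_mul]
  have h1 : f 1 = 0 := by
    rw [hf]
    simp only
    rw [finrank_of_forall_zero hr]
    simp
  have hmain : ((∑ i ∈ hfin.toFinset, f i : ℤ) : ZMod 2) = 0 := by
    rw [Int.cast_sum]
    refine Finset.sum_involution (fun n _ => 2 - n) ?_ ?_ ?_ ?_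
    · intro a ha
      rw [hsymm]
      exact CharTwo.add_self_eq_zero _
    · intro a ha hne h2
      have h3 : a = 1 := by omega
      rw [h3, h1] at hne
      exact hne (by simp)
    · intro a ha
      rw [Set.Finite.mem_toFinset, Function.mem_support] at ha ⊢
      have h4 : f (2 - a) ≠ 0 := by rw [hsymm]; exact ha
      exact h4
    · intro a ha
      ring
  rw [even_iff_two_dvd]
  exact_mod_cast (ZMod.intCast_zmod_eq_zero_iff_dvd _ 2).1 hmain

/-- If rigid objects generate the Grothendieck group the form is even. -/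
lemma even_of_gen (hK : IsK3 C)
    (hgen : AddSubgroup.closure {x : K0 C | ∃ X : C, Rigid X ∧ cls X = x} = ⊤) (x : K0 C) :
    Even (eulerForm hK x x) := by
  have hx : x ∈ AddSubgroup.closure {x : K0 C | ∃ X : C, Rigid X ∧ cls X = x} := by
    rw [hgen]; trivial
  induction hx using AddSubgroup.closure_induction with
  | mem x hx =>
    obtain ⟨X, hX, rfl⟩ := hx
    exact even_of_rigid hK hX
  | zero => simp
  | add a b _ _ ha hb =>
    simp only [map_add, AddMonoidHom.add_apply]
    rw [eulerForm_symm hK b a]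
    obtain ⟨p, hp⟩ := ha
    obtain ⟨q, hq⟩ := hb
    exact ⟨p + q + eulerForm hK a b, by rw [hp, hq]; ring⟩
  | neg a _ ha =>
    rw [map_neg, map_neg, AddMonoidHom.neg_apply, neg_neg]
    exact ha

variable [Module.Finite ℤ (K0 C)] [Module.Free ℤ (K0 C)]

lemma not_rank_three (hK : IsK3 C) (hR : Module.finrank ℤ (radical (eulerForm hK)) = 2)
    (h4 : 4 ≤ Module.finrank ℤ (K0 C)) (a : K0 C) :
    ∃ x : K0 C, ∀ m : ℤ, ∃ y, eulerForm hK (x - m • a) y ≠ 0 := by
  classical
  by_contra hcon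
  push Not at hcon
  obtain ⟨b₀, h0, b₁, h1, hspan, -⟩ := exists_basis_of_finrank_two _ hR
  have htop : Submodule.span ℤ ({a, b₀, b₁} : Set (K0 C)) = ⊤ := by
    rw [eq_top_iff]
    intro x _
    obtain ⟨m, hm⟩ := hcon x
    obtain ⟨p, q, hpq⟩ := hspan (x - m • a) hm
    have hx : x = m • a + (p • b₀ + q • b₁) := by rw [← hpq]; abel
    rw [hx]
    refine Submodule.add_mem _ (Submodule.smul_mem _ _ (Submodule.subset_span (by simp)))
      (Submodule.add_mem _ (Submodule.smul_mem _ _ (Submodule.subset_span (by simp)))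
      (Submodule.smul_mem _ _ (Submodule.subset_span (by simp))))
  have hle := finrank_span_le_card (R := ℤ) ({a, b₀, b₁} : Set (K0 C))
  rw [htop, finrank_top] at hle
  have h3 : ({a, b₀, b₁} : Set (K0 C)).toFinset.card ≤ 3 := by
    have : ({a, b₀, b₁} : Set (K0 C)).toFinset = {a, b₀, b₁} := by ext; simp
    rw [this]
    exact Finset.card_le_three
  omega

lemma countable_K0 : Countable (K0 C) := by
  obtain ⟨n, f, hf⟩ := Module.Finite.exists_fin' ℤ (K0 C)
  exact hf.countable

/-- For some `t` there are no semistable objects of phase `t + 1`. -/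
lemma StabCond.exists_Gap (σ : StabCond C) : ∃ t, σ.Gap t := by
  by_contra hcon
  push Not at hcon
  have hcon' : ∀ t : ℝ, ∃ X, σ.sl.P (t + 1) X ∧ ¬ IsZero X := by
    intro t
    have := hcon t
    rw [StabCond.Gap] at this
    push Not at this
    exact this
  choose X hX hX0 using hcon'
  have hinj : Set.InjOn (fun t : ℝ => cls (X t)) (Set.Ioo 0 1) := by
    intro s hs t ht hst
    have := σ.phase_unique (hX s) (hX t) (hX0 s) (hX0 t) hst 1
      ⟨by linarith [hs.1], by linarith [hs.2]⟩ ⟨by linarith [ht.1], by linarith [ht.2]⟩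
    linarith
  have hc : Countable (K0 C) := countable_K0
  have := Set.countable_of_injective_of_countable_image hinj (Set.to_countable _)
  rw [Cardinal.Real.Ioo_countable_iff] at this
  norm_num at this

end

section

variable [IsTriangulated C] [Linear ℂ C] [∀ n : ℤ, (shiftFunctor C n).Linear ℂ]
variable [Module.Finite ℤ (K0 C)] [Module.Free ℤ (K0 C)]
variable {σ : StabCond C} {t : ℝ}

lemma Spherical.shift {X : C} (h : Spherical X) (m : ℤ) : Spherical (X⟦m⟧) := by
  refine ⟨?_, ?_⟩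
  · rw [finrank_shift_both]
    exact h.1
  · intro n h0 h2 f
    have e : (X⟦m⟧)⟦n⟧ ≅ X⟦n + m⟧ := ((shiftFunctorAdd' C m n (n + m) (by ring)).app X).symm
    have h1 := hom_shift_zero (X := X) (Y := X) (a := m) (b := n + m) (c := n) rfl
      (h.2 n h0 h2) (f ≫ e.hom)
    rw [← cancel_mono e.hom, h1, zero_comp]

lemma spherical_of_rigid {A : C → Prop} (hA : AbSub A) (hK : IsK3 C) {X : C} (hX : A X)
    (hr : Rigid X) (h2 : eulerForm hK (cls X) (cls X) = 2) : Spherical X := by
  have h1 := hr.form_self hA hK hX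
  rw [h2] at h1
  refine ⟨by omega, ?_⟩
  intro n hn0 hn2
  refine forall_zero_of_finrank hK ?_
  by_cases hn : n < 0 ∨ 2 < n
  · exact hA.finrank_zero hK hX hX hn
  · have h3 : n = 1 := by omega
    subst h3
    exact finrank_of_forall_zero hr

/-- All real roots have nonzero imaginary part and carry rigid semistable objects. -/
lemma StabCond.Gap.all_roots (H : σ.Gap t) (hK : IsK3 C) (hB : IsPSD (eulerForm hK))
    (hgen : AddSubgroup.closure {x : K0 C | ∃ X : C, Rigid X ∧ cls X = x} = ⊤)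
    (hind : ∀ P Q : AddSubgroup (K0 C), P ⊔ Q = ⊤ →
      (∀ x ∈ P, ∀ y ∈ Q, eulerForm hK x y = 0) →
      (∀ x ∈ P, ∀ y, eulerForm hK x y = 0) ∨ (∀ x ∈ Q, ∀ y, eulerForm hK x y = 0))
    (hR : Module.finrank ℤ (radical (eulerForm hK)) = 2)
    (h4 : 4 ≤ Module.finrank ℤ (K0 C)) {α : K0 C} (hα : eulerForm hK α α = 2) :
    α ∈ σ.RR t hK ∨ -α ∈ σ.RR t hK := by
  have heven := even_of_gen hK hgen
  have hD := H.sub2 hK hB heven
  refine hD.all_roots hB ?_ hind (not_rank_three hK hR h4) hα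
  rw [eq_top_iff, ← hgen, AddSubgroup.closure_le]
  rintro x ⟨X, hX, rfl⟩
  have h1 := H.rigid_mem hK hB heven hX
  exact AddSubgroup.closure_mono (fun y hy => Or.inl hy) h1

/-- Radical classes have nonzero imaginary part. -/
lemma StabCond.Gap.im_radical (H : σ.Gap t) (hK : IsK3 C) (hB : IsPSD (eulerForm hK))
    (hR : Module.finrank ℤ (radical (eulerForm hK)) = 2) (hindC : Indecomposable C)
    {δ : K0 C} (hδ : δ ∈ radical (eulerForm hK)) (hδ0 : δ ≠ 0) : σ.im t δ ≠ 0 := by
  intro h0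
  obtain ⟨k, hk, φ, X, hX, hX0, hXc⟩ := σ.radical_semistable hK hB hR hindC hδ hδ0
  obtain ⟨n, ψ, h1, h2, hP⟩ := Slicing.exists_shift_P t hX
  have hn0 : ¬ IsZero (X⟦n⟧) := fun h => hX0 ((isZero_shift_iff _ _).1 h)
  have hpos := H.im_pos (Slicing.heart_of_P hP h1 h2) hn0
  have h3 : σ.im t (cls X) = 0 := by rw [hXc, map_nsmul, h0, smul_zero]
  rcases cls_shift_cases X n with h | h
  · rw [h, h3] at hpos
    exact lt_irrefl _ hpos
  · rw [h, map_neg, h3, neg_zero] at hpos
    exact lt_irrefl _ hpos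

/-- A root whose imaginary part lies between zero and that of a given radical class. -/
lemma StabCond.Gap.exists_small_root (H : σ.Gap t) (hK : IsK3 C) (hB : IsPSD (eulerForm hK))
    (hR : Module.finrank ℤ (radical (eulerForm hK)) = 2) (hindC : Indecomposable C)
    {α : K0 C} (hα : eulerForm hK α α = 2) {m : ℝ} (hm : 0 < m) :
    ∃ a : K0 C, eulerForm hK a a = 2 ∧ 0 < σ.im t a ∧ σ.im t a < m := by
  set S : AddSubgroup ℝ := (radical (eulerForm hK)).toAddSubgroup.map (σ.im t) with hS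
  rcases AddSubgroup.dense_or_cyclic S with hd | ⟨g, hg⟩
  · obtain ⟨s, hs1, hs2⟩ := hd.exists_between (show -(σ.im t α) < -(σ.im t α) + m by linarith)
    obtain ⟨r, hr, rfl⟩ := hs1
    have hr' : ∀ y, eulerForm hK r y = 0 := hr
    refine ⟨α + r, ?_, ?_, ?_⟩
    · simp only [map_add, AddMonoidHom.add_apply]
      rw [hr', hr', eulerForm_symm hK α r, hr', hα]
      norm_num
    · rw [map_add]; linarith [hs2.1]
    · rw [map_add]; linarith [hs2.2]
  · exfalso
    obtain ⟨b₀, h0, b₁, h1, -, hb⟩ := exists_basis_of_finrank_two _ hR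
    have hm0 : σ.im t b₀ ∈ S := ⟨b₀, h0, rfl⟩
    have hm1 : σ.im t b₁ ∈ S := ⟨b₁, h1, rfl⟩
    rw [hg, AddSubgroup.mem_closure_singleton] at hm0 hm1
    obtain ⟨p, hp⟩ := hm0
    obtain ⟨q, hq⟩ := hm1
    have h3 : q • b₀ + (-p) • b₁ ∈ radical (eulerForm hK) :=
      Submodule.add_mem _ (Submodule.smul_mem _ _ h0) (Submodule.smul_mem _ _ h1)
    have h4 : σ.im t (q • b₀ + (-p) • b₁) = 0 := by
      rw [map_add, map_zsmul, map_zsmul, ← hp, ← hq]
      simp only [zsmul_eq_mul]
      push_cast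
      ring
    have h5 : q • b₀ + (-p) • b₁ = 0 := by
      by_contra hne
      exact H.im_radical hK hB hR hindC h3 hne h4
    obtain ⟨h6, h7⟩ := hb q (-p) h5
    have h8 : p = 0 := by linarith
    rw [h8, zero_smul] at hp
    have h9 : b₀ ≠ 0 := by
      intro h9
      have := hb 1 0 (by rw [h9]; simp)
      exact one_ne_zero this.1
    exact H.im_radical hK hB hR hindC h0 h9 hp.symm

lemma StabCond.Gap.rad_const (H : σ.Gap t) (hK : IsK3 C) (hB : IsPSD (eulerForm hK)) {δ : K0 C}
    (hδ : δ ∈ radical (eulerForm hK)) (hpos : 0 < σ.im t δ) {u u' : K0 C →+ ℝ}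
    (hu : VanRad hK u) (hu' : VanRad hK u')
    (hQ : ∃ E, King (σ.sl.Heart t) (lin (σ.im t) (σ.re t + u) δ) E ∧ cls E = δ) :
    ∃ E, King (σ.sl.Heart t) (lin (σ.im t) (σ.re t + u') δ) E ∧ cls E = δ := by
  refine const_of_local (P := fun u => ∃ E, King (σ.sl.Heart t)
    (lin (σ.im t) (σ.re t + u) δ) E ∧ cls E = δ) ?_ hu hu' hQ
  intro u hu
  have hδ0 : δ ≠ 0 := by
    rintro rfl
    rw [map_zero] at hpos
    exact lt_irrefl _ hpos
  by_cases hQu : ∃ E, King (σ.sl.Heart t) (lin (σ.im t) (σ.re t + u) δ) E ∧ cls E = δ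
  · have hfc := H.finCat hK hB hpos hu
    obtain ⟨d, hd, hnear⟩ := H.near hK hB hpos hu
    refine ⟨d, hd, fun u' hu' hlt => ⟨fun _ => hQu, fun _ => ?_⟩⟩
    obtain ⟨E, hE, hEc⟩ := hfc.core_rad hK hB (w := σ.re t + u') (H.finU hK hB hpos hu) hδ hδ0
      hQu (by
        intro X Y hX hY hX0 hY0 hXr hYr
        have h1 : ∀ x y : K0 C, (∀ z, eulerForm hK x z = 0) → (∀ z, eulerForm hK y z = 0) →
            lin (σ.im t) (σ.re t + u') x y = lin (σ.im t) (σ.re t + u) x y := by
          intro x y hx hy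
          simp only [lin_apply, AddMonoidHom.add_apply]
          rw [hu x hx, hu y hy, hu' x hx, hu' y hy]
        rw [h1 _ _ hXr hYr]
        have h2 := lin_trans (σ.im t) (σ.re t + u) (cls X) δ (cls Y)
        rw [hY.2.1, lin_anti (σ.im t) (σ.re t + u) (cls X) δ, hX.2.1] at h2
        simp only [neg_zero, mul_zero, add_zero] at h2
        exact (mul_eq_zero.1 h2).resolve_left hpos.ne')
    refine ⟨E, hnear u' hu' hlt E hE.1 hEc ?_, hEc⟩
    intro x hx
    have h3 := hE.2.2 x hx
    rw [hEc] at h3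
    exact h3
  · obtain ⟨d, hd, hcl⟩ := H.closed hK hB hpos hu
    refine ⟨d, hd, fun u' hu' hlt => ⟨?_, fun h => absurd h hQu⟩⟩
    rintro ⟨E, hE, hEc⟩
    exact ⟨E, hcl u' hu' hlt E hE hEc, hEc⟩

/-- Radical classes of positive imaginary part are classes of semistable objects. -/
lemma StabCond.Gap.rad_king (H : σ.Gap t) (hK : IsK3 C) (hB : IsPSD (eulerForm hK))
    (heven : ∀ x : K0 C, Even (eulerForm hK x x))
    (hall : ∀ α : K0 C, eulerForm hK α α = 2 → α ∈ σ.RR t hK ∨ -α ∈ σ.RR t hK)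
    (hR : Module.finrank ℤ (radical (eulerForm hK)) = 2) (hindC : Indecomposable C)
    (hex : ∃ α : K0 C, eulerForm hK α α = 2) {δ : K0 C}
    (hδ : δ ∈ radical (eulerForm hK)) (hpos : 0 < σ.im t δ) :
    ∃ E, King (σ.sl.Heart t) (lin (σ.im t) (σ.re t) δ) E ∧ cls E = δ := by
  obtain ⟨α, hα⟩ := hex
  obtain ⟨a, haa, ha0, ham⟩ := H.exists_small_root hK hB hR hindC hα hpos
  have hδ' : ∀ y, eulerForm hK δ y = 0 := hδ
  set b : K0 C := δ - a with hb
  have hbb : eulerForm hK b b = 2 := by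
    rw [hb]
    simp only [map_sub, AddMonoidHom.sub_apply]
    rw [hδ', hδ', eulerForm_symm hK a δ, hδ', haa]
    norm_num
  have hb0 : 0 < σ.im t b := by rw [hb, map_sub]; linarith
  have hmem : ∀ x : K0 C, eulerForm hK x x = 2 → 0 < σ.im t x → σ.Q t 0 x := by
    intro x hx hx0
    rcases hall x hx with h | h
    · exact h.2.2
    · have := h.2.1
      rw [map_neg] at this
      linarith
  set u : K0 C →+ ℝ := (lin (σ.im t) (σ.re t) a δ / (2 * σ.im t δ)) • evB hK a with hu
  have hvan : VanRad hK u := (evB_van hK a).smul _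
  have hlin : lin (σ.im t) (σ.re t + u) a δ = 0 := by
    rw [lin_add_right, hu, lin_smul_right]
    have h1 : lin (σ.im t) (evB hK a) a δ = -(2 * σ.im t δ) := by
      rw [lin_apply, evB_apply, evB_apply, eulerForm_symm hK a δ, hδ', haa]
      push_cast
      ring
    rw [h1, mul_neg, div_mul_cancel₀ _ (by positivity)]
    ring
  have hlinb : lin (σ.im t) (σ.re t + u) b δ = 0 := by
    have h1 := lin_add_left (σ.im t) (σ.re t + u) a b δ
    have h2 : a + b = δ := by rw [hb]; abel
    rw [h2, lin_self, hlin, zero_add] at h1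
    exact h1.symm
  obtain ⟨Ea, hEa, hEac, -⟩ := H.Q_const hK hB heven ha0 haa (VanRad.zero hK) hvan
    (hmem a haa ha0)
  obtain ⟨Eb, hEb, hEbc, -⟩ := H.Q_const hK hB heven hb0 hbb (VanRad.zero hK) hvan
    (hmem b hbb hb0)
  rw [King_eq ha0 hpos hlin] at hEa
  rw [King_eq hb0 hpos hlinb] at hEb
  have hfc := H.finCat hK hB hpos hvan
  obtain ⟨E, hE, hEc⟩ := H.rad_const hK hB hδ hpos hvan (VanRad.zero hK)
    ⟨Ea ⊞ Eb, hfc.toAbSub.biprod_mem hEa hEb, by rw [cls_biprod, hEac, hEbc, hb]; abel⟩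
  rw [add_zero] at hE
  exact ⟨E, hE, hEc⟩

end

end Pool.Stab
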