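import Mathlib
import Pool.Agent.Work.MP_841263_st.Setting
import Pool.Agent.Work.MP_841263_r.Defs

/-!
# K3 categories of elliptic type

The derived category `𝒟` of the problem satisfies these assumptions.
-/

open CategoryTheory CategoryTheory.Limits CategoryTheory.Pretriangulated
open scoped ZeroObject

namespace Pool.Stab

universe v u

/-- The standing assumptions: those of `Setting` (an indecomposable Ext-finite K3 category,
Grothendieck group free of finite rank, Euler form positive semidefinite with radical of rank
two), the Grothendieck group is generated by the classes of rigid objects and has rank at least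
four, and the lattice `K(C)` modulo the radical is indecomposable: if `K(C)` is the sum of two
orthogonal subgroups, one of them is contained in the radical. -/
structure EllipticSetting (C : Type u) [Category.{v} C] [Preadditive C] [HasZeroObject C]
    [HasShift C ℤ] [∀ n : ℤ, (shiftFunctor C n).Additive] [Pretriangulated C] [Linear ℂ C]
    [∀ n : ℤ, (shiftFunctor C n).Linear ℂ] : Prop extends Setting C where
  gen : AddSubgroup.closure {x : K0 C | ∃ X : C, Rigid X ∧ cls X = x} = ⊤
  irred : ∀ P Q : AddSubgroup (K0 C), P ⊔ Q = ⊤ →
    (∀ x ∈ P, ∀ y ∈ Q, eulerForm k3 x y = 0) →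
    (∀ x ∈ P, x ∈ radical (eulerForm k3)) ∨ (∀ x ∈ Q, x ∈ radical (eulerForm k3))
  rank4 : 4 ≤ Module.finrank ℤ (K0 C)

end Pool.Stab
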