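import Mathlib
import Pool.Agent.Work.MP_841263_r.Roots
import Pool.Agent.Work.MP_841263_r.Setting2

/-!
# All real root classes and all radical classes are classes of semistable objects
-/

open CategoryTheory CategoryTheory.Limits CategoryTheory.Pretriangulated
open scoped ZeroObject

set_option backward.isDefEq.respectTransparency false
set_option backward.defeqAttrib.useBackward true
set_option linter.unusedSectionVars false

namespace Pool.Stab

universe v u

variable {C : Type u} [Category.{v} C] [Preadditive C] [HasZeroObject C] [HasShift C ℤ]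
  [∀ n : ℤ, (shiftFunctor C n).Additive] [Pretriangulated C] [IsTriangulated C] [Linear ℂ C]
  [∀ n : ℤ, (shiftFunctor C n).Linear ℂ]

lemma EllipticSetting.even (h : EllipticSetting C) (x : K0 C) : Even (eulerForm h.k3 x x) :=
  even_of_gen h.k3 h.gen x

lemma EllipticSetting.psd' (h : EllipticSetting C) : IsPSD (eulerForm h.k3) :=
  isPSD_of h.k3 h.psd

section

variable [Module.Finite ℤ (K0 C)] [Module.Free ℤ (K0 C)] {σ : StabCond C} {t : ℝ}

lemma StabCond.Gap.roots (H : σ.Gap t) (h : EllipticSetting C) {α : K0 C}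
    (hα : eulerForm h.k3 α α = 2) : α ∈ σ.RR t h.k3 ∨ -α ∈ σ.RR t h.k3 :=
  H.all_roots h.k3 h.psd' h.gen h.irred h.rank h.rank4 hα

/-- There is a root. -/
lemma EllipticSetting.exists_root (h : EllipticSetting C) (H : σ.Gap t) :
    ∃ α : K0 C, eulerForm h.k3 α α = 2 := by
  by_contra hcon
  push Not at hcon
  have hempty : σ.RR t h.k3 = ∅ := by
    rw [Set.eq_empty_iff_forall_notMem]
    intro x hx
    exact hcon x hx.1
  have h1 : ∀ x : K0 C, x = 0 := by
    intro x
    have hx : x ∈ AddSubgroup.closure {x : K0 C | ∃ X : C, Rigid X ∧ cls X = x} := by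
      rw [h.gen]; trivial
    have h2 : AddSubgroup.closure {x : K0 C | ∃ X : C, Rigid X ∧ cls X = x} ≤
        AddSubgroup.closure (σ.RR t h.k3) := by
      rw [AddSubgroup.closure_le]
      rintro y ⟨Y, hY, rfl⟩
      exact H.rigid_mem h.k3 h.psd' h.even hY
    have h3 := h2 hx
    rw [hempty, AddSubgroup.closure_empty, AddSubgroup.mem_bot] at h3
    exact h3
  have h4 := h.rank4
  have h5 : Subsingleton (K0 C) := ⟨fun x y => by rw [h1 x, h1 y]⟩
  rw [Module.finrank_zero_of_subsingleton] at h4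
  omega

end

/-- Every real root is the class of a semistable spherical object. -/
theorem EllipticSetting.root_semistable (h : EllipticSetting C) (σ : StabCond C) {α : K0 C}
    (hα : eulerForm h.k3 α α = 2) :
    ∃ (φ : ℝ) (X : C), σ.sl.P φ X ∧ Spherical X ∧ cls X = α := by
  have := h.finite
  have := h.free
  obtain ⟨t, H⟩ := σ.exists_Gap
  have key : ∀ c : K0 C, c ∈ σ.RR t h.k3 →
      ∃ (φ : ℝ) (X : C), σ.sl.P φ X ∧ Spherical X ∧ cls X = c := by
    rintro c ⟨hcc, hc, E, hE, rfl, hr⟩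
    have hE0 : ¬ IsZero E := by
      intro h0
      rw [cls_of_isZero h0, map_zero] at hc
      exact lt_irrefl _ hc
    rw [add_zero] at hE
    obtain ⟨φ, -, -, hP⟩ := σ.P_of_king hE0 hE
    exact ⟨φ, E, hP, spherical_of_rigid (σ.sl.heart_ab t) h.k3 hE.1 hr hcc, rfl⟩
  rcases H.roots h hα with h1 | h1
  · exact key α h1
  · obtain ⟨φ, X, hX, hs, hc⟩ := key _ h1
    refine ⟨φ + 1, X⟦(1 : ℤ)⟧, (σ.sl.shift_mem φ X).1 hX, hs.shift 1, ?_⟩
    rw [cls_shift_one, hc, neg_neg]

/-- Every nonzero radical class is the class of a semistable object. -/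
theorem EllipticSetting.radical_semistable (h : EllipticSetting C) (σ : StabCond C) {δ : K0 C}
    (hδ : δ ∈ radical (eulerForm h.k3)) (hδ0 : δ ≠ 0) :
    ∃ (φ : ℝ) (X : C), σ.sl.P φ X ∧ ¬ IsZero X ∧ cls X = δ := by
  have := h.finite
  have := h.free
  obtain ⟨t, H⟩ := σ.exists_Gap
  have key : ∀ c : K0 C, c ∈ radical (eulerForm h.k3) → 0 < σ.im t c →
      ∃ (φ : ℝ) (X : C), σ.sl.P φ X ∧ ¬ IsZero X ∧ cls X = c := by
    intro c hc hpos
    obtain ⟨E, hE, hEc⟩ := H.rad_king h.k3 h.psd' h.even (fun α hα => H.roots h hα) h.rank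
      h.indec (h.exists_root H) hc hpos
    have hE0 : ¬ IsZero E := by
      intro h0
      rw [← hEc, cls_of_isZero h0, map_zero] at hpos
      exact lt_irrefl _ hpos
    subst hEc
    obtain ⟨φ, -, -, hP⟩ := σ.P_of_king hE0 hE
    exact ⟨φ, E, hP, hE0, rfl⟩
  rcases lt_or_gt_of_ne (H.im_radical h.k3 h.psd' h.rank h.indec hδ hδ0) with h1 | h1
  · obtain ⟨φ, X, hX, h0, hc⟩ := key (-δ) (Submodule.neg_mem _ hδ) (by rw [map_neg]; linarith)
    refine ⟨φ + 1, X⟦(1 : ℤ)⟧, (σ.sl.shift_mem φ X).1 hX,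
      fun h => h0 ((isZero_shift_iff _ _).1 h), ?_⟩
    rw [cls_shift_one, hc, neg_neg]
  · exact key δ hδ h1

/-- The central charge does not vanish on the classes of norm at most two. -/
theorem EllipticSetting.Z_ne_zero (h : EllipticSetting C) (σ : StabCond C) {x : K0 C}
    (hx : eulerForm h.k3 x x ≤ 2) (hx0 : x ≠ 0) : σ.Z x ≠ 0 := by
  intro hZ
  have h1 := h.psd x
  obtain ⟨r, hr⟩ := h.even x
  have h2 : eulerForm h.k3 x x = 0 ∨ eulerForm h.k3 x x = 2 := by omega
  rcases h2 with h2 | h2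
  · obtain ⟨φ, X, hX, h0, rfl⟩ := h.radical_semistable σ (h.psd'.mem_radical_of_self h2) hx0
    exact h0 (σ.Z_ne_zero hX hZ)
  · obtain ⟨φ, X, hX, hs, rfl⟩ := h.root_semistable σ h2
    have h0 := σ.Z_ne_zero hX hZ
    apply hx0
    exact cls_of_isZero h0

end Pool.Stab
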